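import Pool.Agent.Lib_helper23.SD.Base

/-!
# MP_bc6371_lc.StronglyDependent, block SM: small sets
-/

set_option autoImplicit false

namespace Pool.Agent.Lib_helper23.SD

open Cardinal

variable {U : Type}

theorem SM_union {κ : Cardinal.{0}} (hκ : ℵ₀ < κ) {A B : Set U} (hA : #A < κ) (hB : #B < κ) :
    #(A ∪ B : Set U) < κ := by
  rcases lt_or_ge (#A) ℵ₀ with hA' | hA'
  · rcases lt_or_ge (#B) ℵ₀ with hB' | hB'
    · have h := mk_union_le A B
      have h2 : #A + #B < ℵ₀ := add_lt_aleph0 hA' hB'
      exact (lt_of_le_of_lt h h2).trans hκ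
    · have h := mk_union_le A B
      have h2 : #A + #B = max #A #B := add_eq_max' hB'
      rw [h2] at h
      exact lt_of_le_of_lt h (max_lt hA hB)
  · have h := mk_union_le A B
    have h2 : #A + #B = max #A #B := add_eq_max hA'
    rw [h2] at h
    exact lt_of_le_of_lt h (max_lt hA hB)

theorem SM_countable {κ : Cardinal.{0}} (hκ : ℵ₀ < κ) {A : Set U} (hA : A.Countable) :
    #A < κ :=
  lt_of_le_of_lt (le_aleph0_iff_set_countable.2 hA) hκ

end Pool.Agent.Lib_helper23.SD
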