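import Pool.Agent.Lib_helper23.SD.Base
import Pool.Agent.Lib_helper23.SD.SM

/-!
# MP_bc6371_lc.StronglyDependent, block DF: definability
-/

set_option autoImplicit false

namespace Pool.Agent.Lib_helper23.SD

open Cardinal

variable {L : FirstOrder.Language.{0, 0}} {U : Type} [L.Structure U]

/-- preimage under a map all of whose coordinates are variables or constants from `A` -/
theorem DF_pre {A : Set U} {α β : Type} [Finite β] {R : Set (β → U)} (hR : A.Definable L R)
    (f : β → α ⊕ A) :
    A.Definable L {x : α → U | (fun i => Sum.elim x (fun a : A => (a : U)) (f i)) ∈ R} := by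
  refine Set.Definable.preimage_map (F := fun (x : α → U) (i : β) =>
    Sum.elim x (fun a : A => (a : U)) (f i)) (fun i => ?_) hR
  show A.DefinableFun L (fun x : α → U => Sum.elim x (fun a : A => (a : U)) (f i))
  rcases f i with j | a
  · exact Set.DefinableFun.proj L
  · exact L.definableFun_const α a.2

/-- fibres -/
theorem DF_fib {A : Set U} {α β : Type} [Finite α] [Finite β] {R : Set (α ⊕ β → U)}
    (hR : A.Definable L R) (b : β → U) :
    (A ∪ Set.range b).Definable L {x : α → U | Sum.elim x b ∈ R} := by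
  have h := DF_pre (hR.mono (B := A ∪ Set.range b) Set.subset_union_left)
    (Sum.elim (fun i => Sum.inl i) (fun j => Sum.inr ⟨b j, Or.inr ⟨j, rfl⟩⟩) :
      α ⊕ β → α ⊕ (A ∪ Set.range b : Set U))
  have h1 : ∀ x : α → U, (fun i => Sum.elim x (fun a : (A ∪ Set.range b : Set U) => (a : U))
      ((Sum.elim (fun i => Sum.inl i) (fun j => Sum.inr ⟨b j, Or.inr ⟨j, rfl⟩⟩) :
      α ⊕ β → α ⊕ (A ∪ Set.range b : Set U)) i)) = Sum.elim x b := by
    intro x
    funext i
    rcases i with i | i <;> rfl
  simp only [h1] at h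
  exact h

/-- the other fibres -/
theorem DF_fib' {A : Set U} {α β : Type} [Finite α] [Finite β] {R : Set (α ⊕ β → U)}
    (hR : A.Definable L R) (a : α → U) :
    (A ∪ Set.range a).Definable L {y : β → U | Sum.elim a y ∈ R} := by
  have h := DF_fib (hR.preimage_comp (α := α ⊕ β) (β := β ⊕ α) Sum.swap) a
  have h1 : ∀ y : β → U, (Sum.elim y a : β ⊕ α → U) ∘ (Sum.swap : α ⊕ β → β ⊕ α) = Sum.elim a y := by
    intro y
    funext i
    rcases i with i | i <;> rfl
  simp only [Set.mem_preimage, h1] at h
  exact h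

/-- the parameters of a tuple can be moved into variables -/
theorem DF_par' {A : Set U} {α β : Type} [Finite α] [Finite β] {b : β → U} {D : Set (α → U)}
    (hD : (A ∪ Set.range b).Definable L D) :
    ∃ R : Set (α ⊕ β → U), A.Definable L R ∧ D = {x | Sum.elim x b ∈ R} := by
  classical
  rw [Set.definable_iff_exists_formula_sum] at hD
  obtain ⟨φ, rfl⟩ := hD
  have hc : ∀ c : (A ∪ Set.range b : Set U), (c : U) ∉ A → ∃ j, b j = c := by
    intro c hc
    rcases c.2 with h | h
    · exact absurd h hc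
    · exact h
  let g : (A ∪ Set.range b : Set U) ⊕ α → A ⊕ (α ⊕ β) := Sum.elim
    (fun c => if h : (c : U) ∈ A then Sum.inl ⟨c, h⟩ else Sum.inr (Sum.inr (hc c h).choose))
    (fun i => Sum.inr (Sum.inl i))
  refine ⟨{w | (φ.relabel g).Realize (Sum.elim (fun a : A => (a : U)) w)},
    Set.definable_iff_exists_formula_sum.2 ⟨_, rfl⟩, ?_⟩
  ext x
  simp only [Set.mem_ofPred_eq, FirstOrder.Language.Formula.realize_relabel]
  have h1 : (Sum.elim (fun a : A => (a : U)) (Sum.elim x b)) ∘ g =
      Sum.elim (fun c : (A ∪ Set.range b : Set U) => (c : U)) x := by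
    funext i
    rcases i with c | i
    · by_cases h : (c : U) ∈ A
      · simp [g, h]
      · simp only [g, Function.comp_apply, Sum.elim_inl, dif_neg h, Sum.elim_inr]
        exact (hc c h).choose_spec
    · rfl
  rw [h1]

/-- the parameters can be moved into a tuple -/
theorem DF_par {A : Set U} {α : Type} [Finite α] {D : Set (α → U)} (hD : A.Definable L D) :
    ∃ (m : ℕ) (b : Fin m → U) (R : Set (α ⊕ Fin m → U)), (∀ i, b i ∈ A) ∧
      (∅ : Set U).Definable L R ∧ D = {x | Sum.elim x b ∈ R} := by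
  rw [Set.definable_iff_finitely_definable] at hD
  obtain ⟨A0, hA0, hD⟩ := hD
  let b : Fin A0.card → U := fun i => (A0.equivFin.symm i : U)
  have hb : (A0 : Set U) ⊆ ∅ ∪ Set.range b := by
    intro a ha
    refine Or.inr ⟨A0.equivFin ⟨a, ha⟩, ?_⟩
    simp [b]
  obtain ⟨R, hR, hDR⟩ := DF_par' (hD.mono hb)
  exact ⟨_, b, R, fun i => hA0 (A0.equivFin.symm i).2, hR, hDR⟩

end Pool.Agent.Lib_helper23.SD
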