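import Pool.Agent.Lib_helper23.SD.Base
import Pool.Agent.Lib_helper23.SD.SM
import Pool.Agent.Lib_helper23.SD.DF

set_option autoImplicit false

/-! Block IN. -/

namespace Pool.Agent.Lib_helper23.SD

open Cardinal

variable {L : FirstOrder.Language.{0, 0}} {U : Type} [L.Structure U]

theorem IN_mono {A B : Set U} {α : Type} {p : Set (Set (α → U))} (h : InvOver L A p)
    (hAB : A ⊆ B) : InvOver L B p := by
  intro β _ R hR b b' hb
  exact h β R hR b b' fun D hD => hb D (hD.mono hAB)

/-- invariance for relations with parameters -/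
theorem IN_rel {A B : Set U} {α β : Type} [Finite α] [Finite β] {p : Set (Set (α → U))}
    (h : InvOver L A p) (hAB : A ⊆ B) {R : Set (α ⊕ β → U)} (hR : B.Definable L R) {b b' : β → U}
    (hb : SameTp L B b b') :
    {x | Sum.elim x b ∈ R} ∈ p ↔ {x | Sum.elim x b' ∈ R} ∈ p := by
  obtain ⟨m, c, R', hc, hR', rfl⟩ := DF_par hR
  have hdef : (∅ : Set U).Definable L {z : α ⊕ (β ⊕ Fin m) → U |
      z ∘ (Equiv.sumAssoc α β (Fin m)) ∈ R'} := hR'.preimage_comp _
  have hel : ∀ (x : α → U) (y : β → U), Sum.elim x (Sum.elim y c) ∘ Equiv.sumAssoc α β (Fin m) =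
      Sum.elim (Sum.elim x y) c := by
    intro x y
    funext i
    rcases i with (i | i) | i <;> rfl
  have hsame : SameTp L A (Sum.elim b c) (Sum.elim b' c) := by
    intro D hD
    have hfib : B.Definable L {y : β → U | Sum.elim y c ∈ D} := by
      refine (DF_fib hD c).mono ?_
      refine Set.union_subset hAB ?_
      rintro _ ⟨i, rfl⟩
      exact hc i
    exact hb _ hfib
  have := h (β ⊕ Fin m) _ hdef _ _ hsame
  simp only [Set.mem_ofPred_eq, hel] at this
  exact this

theorem IN_univ {A : Set U} {α : Type} (p : Typ L A α) : Set.univ ∈ p.sets := by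
  rcases p.ultra ∅ Set.definable_empty with h | h
  · exact absurd h p.nempty
  · rwa [Set.compl_empty] at h

/-- finite intersections -/
theorem IN_fin {A : Set U} {α : Type} (p : Typ L A α) {𝓖 : Set (Set (α → U))} (h : 𝓖 ⊆ p.sets)
    (hf : 𝓖.Finite) : ⋂₀ 𝓖 ∈ p.sets := by
  revert h
  refine Set.Finite.induction_on (motive := fun 𝓖 _ => 𝓖 ⊆ p.sets → ⋂₀ 𝓖 ∈ p.sets) 𝓖 hf ?_ ?_
  · intro _
    rw [Set.sInter_empty]
    exact IN_univ p
  · intro D 𝓖 _ _ ih h
    rw [Set.sInter_insert]
    exact p.inter _ (h (Set.mem_insert _ _)) _ (ih fun E hE => h (Set.mem_insert_of_mem _ hE))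

theorem IN_iff {α : Type} (p : Typ L (Set.univ : Set U) α) {B : Set U} {x : α → U}
    (hx : Real L p.sets B x) {D : Set (α → U)} (hD : B.Definable L D) :
    x ∈ D ↔ D ∈ p.sets := by
  constructor
  · intro h
    rcases p.ultra D (hD.mono (Set.subset_univ _)) with h' | h'
    · exact h'
    · exact absurd h (hx _ h' hD.compl)
  · intro h
    exact hx D h hD

theorem IN_same {α : Type} (p : Typ L (Set.univ : Set U) α) {B : Set U} {x x' : α → U}
    (hx : Real L p.sets B x) (hx' : Real L p.sets B x') : SameTp L B x x' := by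
  intro D hD
  rw [IN_iff p hx hD, IN_iff p hx' hD]

theorem IN_real {α : Type} {p : Set (Set (α → U))} {A B : Set U} {x : α → U}
    (hx : Real L p B x) (h : A ⊆ B) : Real L p A x :=
  fun D hD hA => hx D hD (hA.mono h)

/-- finite character of realisations -/
theorem IN_union {α : Type} {p : Set (Set (α → U))} {x : α → U} (B : ℕ → Set U) (hB : Monotone B)
    (h : ∀ n, Real L p (B n) x) : Real L p (⋃ n, B n) x := by
  intro D hD hdef
  rw [Set.definable_iff_finitely_definable] at hdef
  obtain ⟨A0, hA0, hA0'⟩ := hdef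
  have h1 : ∀ a : U, ∃ n, a ∈ A0 → a ∈ B n := by
    intro a
    by_cases ha : a ∈ A0
    · obtain ⟨n, hn⟩ := Set.mem_iUnion.1 (hA0 ha)
      exact ⟨n, fun _ => hn⟩
    · exact ⟨0, fun h => absurd h ha⟩
  choose n hn using h1
  refine h (A0.sup n) D hD (hA0'.mono ?_)
  intro a ha
  exact hB (Finset.le_sup (f := n) ha) (hn a ha)

theorem IN_comp {A : Set U} {β γ : Type} {b b' : β → U} (h : SameTp L A b b') (f : γ → β) :
    SameTp L A (b ∘ f) (b' ∘ f) :=
  fun _ hD => h _ (hD.preimage_comp f)

/-- same type over more parameters -/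
theorem IN_elim {A : Set U} {α β : Type} [Finite α] [Finite β] {x x' : α → U} {e : β → U}
    (h : SameTp L A (Sum.elim x e) (Sum.elim x' e)) : SameTp L (A ∪ Set.range e) x x' := by
  intro D hD
  obtain ⟨R, hR, rfl⟩ := DF_par' hD
  exact h R hR

end Pool.Agent.Lib_helper23.SD
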