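import Pool.Agent.Lib_helper23.SD.Base
import Pool.Agent.Lib_helper23.SD.SM
import Pool.Agent.Lib_helper23.SD.DF
import Pool.Agent.Lib_helper23.SD.IN

/-!
# MP_bc6371_lc.StronglyDependent, block HO
-/

set_option autoImplicit false

namespace Pool.Agent.Lib_helper23.SD

open Cardinal

variable {L : FirstOrder.Language.{0, 0}} {U : Type} [L.Structure U]

section HO
variable {κ : Cardinal.{0}} (hκ : ℵ₀ < κ) (hs : Saturated L κ U)

private theorem HO_small {κ : Cardinal.{0}} (hκ : ℵ₀ < κ) {A : Set U} (hA : #A < κ) {β : Type} [Finite β]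
    (y : β → U) : #(A ∪ Set.range y : Set U) < κ :=
  SM_union hκ hA (SM_countable hκ (Set.finite_range y).countable)

include hκ hs

/-- homogeneity -/
theorem HO_main {A : Set U} (hA : #A < κ) {α β : Type} [Finite α] [Finite β] {y y' : β → U}
    (h : SameTp L A y y') (x' : α → U) :
    ∃ x : α → U, SameTp L A (Sum.elim x y) (Sum.elim x' y') := by
  classical
  let 𝓕 : Set (Set (α → U)) := {D | ∃ R : Set (α ⊕ β → U), A.Definable L R ∧
    Sum.elim x' y' ∈ R ∧ D = {x | Sum.elim x y ∈ R}}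
  have hdef : ∀ D ∈ 𝓕, (A ∪ Set.range y).Definable L D := by
    rintro D ⟨R, hR, -, rfl⟩
    exact DF_fib hR y
  have hfin : ∀ 𝓖 : Set (Set (α → U)), 𝓖.Finite → 𝓖 ⊆ 𝓕 →
      ∃ R : Set (α ⊕ β → U), A.Definable L R ∧ Sum.elim x' y' ∈ R ∧
        ∀ x : α → U, Sum.elim x y ∈ R → ∀ D ∈ 𝓖, x ∈ D := by
    intro 𝓖 hG
    induction 𝓖, hG using Set.Finite.induction_on with
    | empty =>
      intro _
      exact ⟨Set.univ, Set.definable_univ, trivial, fun x _ D hD => absurd hD (by simp)⟩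
    | @insert D 𝓖 _ _ ih =>
      intro hsub
      obtain ⟨R, hR, hR', hR''⟩ := ih (fun D hD => hsub (Set.mem_insert_of_mem _ hD))
      obtain ⟨R₁, hR₁, hR₁', hD₁⟩ := hsub (Set.mem_insert _ _)
      refine ⟨R ∩ R₁, hR.inter hR₁, ⟨hR', hR₁'⟩, ?_⟩
      rintro x ⟨hx, hx₁⟩ D' hD'
      rcases Set.mem_insert_iff.1 hD' with rfl | hD'
      · rw [hD₁]; exact hx₁
      · exact hR'' x hx D' hD'
  obtain ⟨x, hx⟩ := hs (A ∪ Set.range y) (HO_small hκ hA y) α 𝓕 hdef (by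
    intro 𝓖 hsub hG
    obtain ⟨R, hR, hR', hR''⟩ := hfin 𝓖 hG hsub
    have hproj := hR.image_comp (Sum.inr : β → α ⊕ β)
    have hy' : y' ∈ (fun g : α ⊕ β → U => g ∘ Sum.inr) '' R :=
      ⟨Sum.elim x' y', hR', by ext; simp⟩
    obtain ⟨w, hw, hwy⟩ := (h _ hproj).2 hy'
    refine ⟨w ∘ Sum.inl, ?_⟩
    have hw2 : Sum.elim (w ∘ Sum.inl) y = w := by
      rw [← hwy]; ext (a | a) <;> rfl
    intro D hD
    exact hR'' _ (by rw [hw2]; exact hw) D hD)
  refine ⟨x, fun D hD => ?_⟩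
  constructor
  · intro hxD
    by_contra hcon
    have := hx {x | Sum.elim x y ∈ Dᶜ} ⟨Dᶜ, hD.compl, hcon, rfl⟩
    exact this hxD
  · intro hxD
    exact hx {x | Sum.elim x y ∈ D} ⟨D, hD, hxD, rfl⟩

theorem HO_real {α : Type} [Finite α] (p : Typ L (Set.univ : Set U) α) {A : Set U}
    (hA : #A < κ) : ∃ x : α → U, Real L p.sets A x := by
  obtain ⟨x, hx⟩ := hs A hA α {D | D ∈ p.sets ∧ A.Definable L D} (fun D hD => hD.2) (by
    intro 𝓖 hsub hG
    by_contra hcon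
    rw [Set.not_nonempty_iff_eq_empty] at hcon
    exact p.nempty (hcon ▸ IN_fin p (fun D hD => (hsub hD).1) hG))
  exact ⟨x, fun D hD hAD => hx D ⟨hD, hAD⟩⟩

end HO

end Pool.Agent.Lib_helper23.SD
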