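import Pool.Agent.Lib_helper23.SD.Base
import Pool.Agent.Lib_helper23.SD.SM
import Pool.Agent.Lib_helper23.SD.DF
import Pool.Agent.Lib_helper23.SD.IN
import Pool.Agent.Lib_helper23.SD.HO

/-! # MP_bc6371_lc.StronglyDependent, block SI -/

set_option autoImplicit false

namespace Pool.Agent.Lib_helper23.SD

open Cardinal

variable {L : FirstOrder.Language.{0, 0}} {U : Type} [L.Structure U]

/-- strongly dependent theories are NIP -/
theorem SI_main (h : StronglyDependent L U) : NIP L U := by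
  intro α β _ _ R hR hIP
  refine h β ⟨fun _ => α, fun _ => inferInstance,
    fun _ => {z | (z ∘ Sum.elim Sum.inr Sum.inl : α ⊕ β → U) ∈ R},
    fun _ => hR.preimage_comp (Sum.elim Sum.inr Sum.inl), ?_⟩
  intro N M
  obtain ⟨x, hx⟩ := hIP ((N + 1) * M)
  refine ⟨fun k t => x (finProdFinEquiv (⟨min k N, by omega⟩, t)), fun η => ?_⟩
  obtain ⟨u, hu⟩ := hx {j | (finProdFinEquiv.symm j).2 ≠ η ((finProdFinEquiv.symm j).1 : ℕ)}
  refine ⟨u, Set.mem_univ _, fun k hk t => ?_⟩
  have h1 := hu (finProdFinEquiv (⟨min k N, by omega⟩, t))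
  have h2 : (Sum.elim u (x (finProdFinEquiv (⟨min k N, by omega⟩, t))) ∘
      Sum.elim Sum.inr Sum.inl : α ⊕ β → U) =
      Sum.elim (x (finProdFinEquiv (⟨min k N, by omega⟩, t))) u := by
    funext i
    cases i <;> rfl
  rw [Set.mem_setOf_eq, h2, h1, Set.mem_setOf_eq, Equiv.symm_apply_apply]
  simp only [min_eq_left hk.le]

end Pool.Agent.Lib_helper23.SD
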