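import Pool.Agent.Lib_helper23.SD.Base
import Pool.Agent.Lib_helper23.SD.SM
import Pool.Agent.Lib_helper23.SD.DF
import Pool.Agent.Lib_helper23.SD.IN
import Pool.Agent.Lib_helper23.SD.HO
import Pool.Agent.Lib_helper23.SD.SI

/-!
# MP_bc6371_lc.StronglyDependent, blocks NI, LM
-/

set_option autoImplicit false

namespace Pool.Agent.Lib_helper23.SD

open Cardinal

variable {L : FirstOrder.Language.{0, 0}} {U : Type} [L.Structure U]

section NIPblocks
variable {κ : Cardinal.{0}} (hκ : ℵ₀ < κ) (hs : Saturated L κ U) (hN : NIP L U)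
include hκ hs hN

theorem NI_alt {α : Type} [Finite α] {D : Set (α → U)} (hD : (Set.univ : Set U).Definable L D) :
    ∃ k : ℕ, ∀ x : ℕ → α → U, (∀ i j : Fin k → ℕ, StrictMono i → StrictMono j →
      (∀ l, i l < 2 * k) → (∀ l, j l < 2 * k) → SameTp L ∅ (tup x i) (tup x j)) →
      ¬ ∀ i < 2 * k, (x i ∈ D ↔ Even i) := by
  classical
  obtain ⟨m, u, R, -, hR, rfl⟩ := DF_par hD
  have hno := hN α (Fin m) R hR
  unfold HasIP at hno
  push Not at hno
  obtain ⟨k, hk⟩ := hno
  refine ⟨k, fun x hx halt => ?_⟩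
  obtain ⟨S, hS⟩ := hk (fun l => x l)
  -- the two increasing tuples
  have hi0 : StrictMono (fun l : Fin k => (l : ℕ)) := fun a b h => h
  have hiS : StrictMono (fun l : Fin k => if l ∈ S then 2 * (l : ℕ) else 2 * (l : ℕ) + 1) := by
    intro a b h
    have h' : (a : ℕ) < b := h
    simp only
    split_ifs <;> omega
  have hsame := hx (fun l : Fin k => (l : ℕ)) (fun l : Fin k => if l ∈ S then 2 * (l : ℕ) else 2 * (l : ℕ) + 1)
    hi0 hiS (fun l => by have := l.2; omega) (fun l => by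
      have := l.2
      split_ifs <;> omega)
  have h0 : #(∅ : Set U) < κ := by
    rw [Cardinal.mk_eq_zero]
    exact (Cardinal.aleph0_pos).trans hκ
  obtain ⟨u', hu'⟩ := HO_main hκ hs h0 hsame u
  obtain ⟨l, hl⟩ := hS u'
  apply absurd hl
  push Not
  -- the formula for the pair number `l`
  have hdef : (∅ : Set U).Definable L {z : Fin m ⊕ (Fin k × α) → U |
      z ∘ (Sum.elim (fun a => Sum.inr (l, a)) (fun b => Sum.inl b) : α ⊕ Fin m → Fin m ⊕ (Fin k × α)) ∈ R} :=
    hR.preimage_comp _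
  have h := hu' _ hdef
  have e1 : (Sum.elim u' (tup x (fun l : Fin k => (l : ℕ))) : Fin m ⊕ (Fin k × α) → U) ∘
      (Sum.elim (fun a => Sum.inr (l, a)) (fun b => Sum.inl b) : α ⊕ Fin m → Fin m ⊕ (Fin k × α)) =
      Sum.elim (x l) u' := by
    funext z
    rcases z with z | z <;> rfl
  have e2 : (Sum.elim u (tup x (fun l : Fin k => if l ∈ S then 2 * (l : ℕ) else 2 * (l : ℕ) + 1)) :
      Fin m ⊕ (Fin k × α) → U) ∘
      (Sum.elim (fun a => Sum.inr (l, a)) (fun b => Sum.inl b) : α ⊕ Fin m → Fin m ⊕ (Fin k × α)) =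
      Sum.elim (x (if l ∈ S then 2 * (l : ℕ) else 2 * (l : ℕ) + 1)) u := by
    funext z
    rcases z with z | z <;> rfl
  rw [Set.mem_ofPred_eq, Set.mem_ofPred_eq, e1, e2] at h
  have ha := halt (if l ∈ S then 2 * (l : ℕ) else 2 * (l : ℕ) + 1) (by
    have := l.2
    split_ifs <;> omega)
  have hE : Even (if l ∈ S then 2 * (l : ℕ) else 2 * (l : ℕ) + 1) ↔ l ∈ S := by
    split_ifs with hlS
    · exact ⟨fun _ => hlS, fun _ => even_two_mul _⟩
    · refine ⟨fun h => ?_, fun h => absurd h hlS⟩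
      exact absurd h (by rw [Nat.not_even_iff_odd]; exact odd_two_mul_add_one _)
  have hfin : Sum.elim (x l) u' ∈ R ↔ l ∈ S := h.trans (ha.trans hE)
  tauto

/-- along an infinite indiscernible sequence every definable set is eventually constant -/
theorem NI_ev {α : Type} [Finite α] {D : Set (α → U)} (hD : (Set.univ : Set U).Definable L D)
    (x : ℕ → α → U) (hx : Indisc L ∅ x) :
    (∀ᶠ n in Filter.atTop, x n ∈ D) ∨ ∀ᶠ n in Filter.atTop, x n ∉ D := by
  classical
  by_contra hcon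
  rw [not_or, Filter.not_eventually, Filter.not_eventually] at hcon
  obtain ⟨hc1, hc2⟩ := hcon
  have h : ∀ N k : ℕ, ∃ n > N, (x n ∈ D ↔ Even k) := by
    intro N k
    by_cases hk : Even k
    · obtain ⟨n, hn, hxn⟩ := Filter.frequently_atTop'.1 hc2 N
      exact ⟨n, hn, by simpa [hk] using hxn⟩
    · obtain ⟨n, hn, hxn⟩ := Filter.frequently_atTop'.1 hc1 N
      exact ⟨n, hn, by simpa [hk] using hxn⟩
  choose f hf1 hf2 using h
  let g : ℕ → ℕ := fun n => Nat.rec (f 0 0) (fun n r => f r (n + 1)) n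
  have hg0 : g 0 = f 0 0 := rfl
  have hgs : ∀ n, g (n + 1) = f (g n) (n + 1) := fun n => rfl
  have hgm : StrictMono g := strictMono_nat_of_lt_succ fun n => by rw [hgs]; exact hf1 _ _
  have hgD : ∀ n, x (g n) ∈ D ↔ Even n := by
    intro n
    cases n with
    | zero => rw [hg0]; exact hf2 _ _
    | succ n => rw [hgs]; exact hf2 _ _
  obtain ⟨k, hk⟩ := NI_alt hκ hs hN hD
  refine hk (fun n => x (g n)) (fun i j hi hj _ _ => ?_) (fun i _ => hgD i)
  exact hx k (fun l => g (i l)) (fun l => g (j l)) (hgm.comp hi) (hgm.comp hj)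

theorem LM_typ {α : Type} [Finite α] (x : ℕ → α → U) (hx : Indisc L ∅ x) :
    ∃ p : Typ L (Set.univ : Set U) α, p.sets = lim L x :=
  ⟨{ sets := lim L x
     dfn := fun D hD => hD.1
     inter := fun D hD D' hD' => ⟨hD.1.inter hD'.1, hD.2.and hD'.2⟩
     mono := fun D hD D' hD' h => ⟨hD', hD.2.mono fun _ hn => h hn⟩
     nempty := fun h => by
       obtain ⟨n, hn⟩ := h.2.exists
       exact hn
     ultra := fun D hD => (NI_ev hκ hs hN hD x hx).imp (fun h => ⟨hD, h⟩) (fun h => ⟨hD.compl, h⟩) }, rfl⟩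

end NIPblocks

/-- limit types are invariant over every set containing the sequence (block LM; uses DF) -/
theorem LM_inv {α : Type} [Finite α] {x : ℕ → α → U} {A : Set U} (hA : ∀ n i, x n i ∈ A) :
    InvOver L A (lim L x) := by
  intro β _ R hR b b' hb
  have h : ∀ n, Sum.elim (x n) b ∈ R ↔ Sum.elim (x n) b' ∈ R := by
    intro n
    have hd : A.Definable L {y : β → U | Sum.elim (x n) y ∈ R} := by
      refine (DF_fib' hR (x n)).mono ?_
      rw [Set.empty_union]
      rintro _ ⟨i, rfl⟩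
      exact hA n i
    exact hb _ hd
  have hb1 : ∀ b : β → U, (Set.univ : Set U).Definable L {x : α → U | Sum.elim x b ∈ R} := fun b =>
    (DF_fib hR b).mono (Set.subset_univ _)
  constructor
  · rintro ⟨_, he⟩
    exact ⟨hb1 b', he.mono fun n hn => (h n).1 hn⟩
  · rintro ⟨_, he⟩
    exact ⟨hb1 b, he.mono fun n hn => (h n).2 hn⟩

end Pool.Agent.Lib_helper23.SD
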