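import Pool.Agent.Lib_helper23.SD.Base
import Pool.Agent.Lib_helper23.SD.SM
import Pool.Agent.Lib_helper23.SD.DF
import Pool.Agent.Lib_helper23.SD.IN
import Pool.Agent.Lib_helper23.SD.HO
import Pool.Agent.Lib_helper23.SD.SI
import Pool.Agent.Lib_helper23.SD.NI

/-!
# MP_bc6371_lc.StronglyDependent, block CM: limit types of mutually indiscernible sequences commute
-/

set_option autoImplicit false

namespace Pool.Agent.Lib_helper23.SD

open Cardinal

variable {L : FirstOrder.Language.{0, 0}} {U : Type} [L.Structure U]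

section CM
variable {κ : Cardinal.{0}} (hκ : ℵ₀ < κ) (hs : Saturated L κ U) (hN : NIP L U)
include hκ hs hN

private theorem CM_aux {α : Type} [Finite α] {x : ℕ → α → U} (hx : Indisc L ∅ x) {B : Set U}
    {y : α → U} (hy : Real L (lim L x) B y) {S : Set (α → U)} (hS : B.Definable L S)
    (hyS : y ∈ S) : ∀ᶠ n in Filter.atTop, x n ∈ S := by
  have hS' : (Set.univ : Set U).Definable L S := hS.mono (Set.subset_univ _)
  rcases NI_ev hκ hs hN hS' x hx with h | h
  · exact h
  · exact absurd hyS (hy Sᶜ ⟨hS'.compl, h⟩ hS.compl)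

theorem CM_main {α : Type} [Finite α] {x z : ℕ → α → U}
    (hxz : ∀ (k : ℕ) (i i' j j' : Fin k → ℕ), StrictMono i → StrictMono i' → StrictMono j →
      StrictMono j' → SameTp L ∅ (Sum.elim (tup x i) (tup z j)) (Sum.elim (tup x i') (tup z j')))
    {B : Set U} (hBx : ∀ n i, x n i ∈ B) (hBz : ∀ n i, z n i ∈ B) {y d : α → U}
    (hy : Real L (lim L x) B y) (hd : Real L (lim L z) (B ∪ Set.range y) d) :
    Real L (lim L x) (B ∪ Set.range d) y := by
  have hcomp : ∀ {β γ : Type} {b b' : β → U} (_ : SameTp L ∅ b b') (f : γ → β),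
      SameTp L ∅ (b ∘ f) (b' ∘ f) := fun h f D hD => h _ (hD.preimage_comp f)
  have hval : ∀ k : ℕ, StrictMono (fun a : Fin k => (a : ℕ)) := fun k => Fin.val_strictMono
  have hx : Indisc L ∅ x := fun k i j hi hj => by
    have h := hcomp (hxz k i j _ _ hi hj (hval k) (hval k)) Sum.inl
    simpa only [Sum.elim_comp_inl] using h
  have hz : Indisc L ∅ z := fun k i j hi hj => by
    have h := hcomp (hxz k _ _ i j (hval k) (hval k) hi hj) Sum.inr
    simpa only [Sum.elim_comp_inr] using h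
  intro D hD hDd
  by_contra hyD
  obtain ⟨R, hR, hDR⟩ := DF_par' (β := α) (b := d) hDd
  have hunion : ∀ (e : α → U), (∀ i, e i ∈ B) → B ∪ Set.range e = B := by
    intro e he
    refine Set.union_eq_left.2 ?_
    rintro _ ⟨i, rfl⟩
    exact he i
  -- first order: `x` then `z`
  have h1 : ∀ᶠ i in Filter.atTop, ∀ᶠ j in Filter.atTop, Sum.elim (x i) (z j) ∈ R := by
    filter_upwards [hD.2] with i hi
    have h2 : B.Definable L {w : α → U | Sum.elim (x i) w ∈ R} := by
      have h3 := DF_fib' hR (x i)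
      rwa [hunion _ (hBx i)] at h3
    have h4 : Sum.elim (x i) d ∈ R := by
      rw [hDR] at hi
      exact hi
    exact CM_aux hκ hs hN hz (fun E hE hEB => hd E hE (hEB.mono Set.subset_union_left)) h2 h4
  -- second order: `z` then `x`
  have h2 : ∀ᶠ j in Filter.atTop, ∀ᶠ i in Filter.atTop, Sum.elim (x i) (z j) ∉ R := by
    have h3 : (B ∪ Set.range y).Definable L {w : α → U | Sum.elim y w ∈ R}ᶜ :=
      (DF_fib' hR y).compl
    have h4 : d ∈ {w : α → U | Sum.elim y w ∈ R}ᶜ := by
      intro h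
      exact hyD (by rw [hDR]; exact h)
    filter_upwards [CM_aux hκ hs hN hz hd h3 h4] with j hj
    have h5 : B.Definable L {v : α → U | Sum.elim v (z j) ∈ R}ᶜ := by
      have h6 := DF_fib hR (z j)
      rw [hunion _ (hBz j)] at h6
      exact h6.compl
    exact CM_aux hκ hs hN hx hy h5 hj
  -- the alternating sequence
  have step : ∀ n a b : ℕ, ∃ p : ℕ × ℕ, a < p.1 ∧ b < p.2 ∧
      (Sum.elim (x p.1) (z p.2) ∈ R ↔ Even n) := by
    intro n a b
    by_cases hn : Even n
    · obtain ⟨i, hi, hai⟩ := (h1.and (Filter.eventually_gt_atTop a)).exists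
      obtain ⟨j, hj, hbj⟩ := (hi.and (Filter.eventually_gt_atTop b)).exists
      exact ⟨(i, j), hai, hbj, iff_of_true hj hn⟩
    · obtain ⟨j, hj, hbj⟩ := (h2.and (Filter.eventually_gt_atTop b)).exists
      obtain ⟨i, hi, hai⟩ := (hj.and (Filter.eventually_gt_atTop a)).exists
      exact ⟨(i, j), hai, hbj, iff_of_false hi hn⟩
  choose f hf1 hf2 hf3 using step
  let s : ℕ → ℕ × ℕ := fun n => Nat.rec (f 0 0 0) (fun n p => f (n + 1) p.1 p.2) n
  have hs1 : StrictMono fun n => (s n).1 := strictMono_nat_of_lt_succ fun n => hf1 (n + 1) _ _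
  have hs2 : StrictMono fun n => (s n).2 := strictMono_nat_of_lt_succ fun n => hf2 (n + 1) _ _
  have hs3 : ∀ n, Sum.elim (x (s n).1) (z (s n).2) ∈ R ↔ Even n := by
    intro n
    cases n with
    | zero => exact hf3 0 0 0
    | succ n => exact hf3 (n + 1) _ _
  obtain ⟨k, hk⟩ := NI_alt hκ hs hN (hR.mono (Set.subset_univ _))
  refine hk (fun n => Sum.elim (x (s n).1) (z (s n).2)) ?_ (fun n _ => hs3 n)
  intro i j hi hj _ _
  exact hcomp (hxz k _ _ _ _ (hs1.comp hi) (hs1.comp hj) (hs2.comp hi) (hs2.comp hj))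
    (fun p : Fin k × (α ⊕ α) => (Sum.elim (fun c => Sum.inl (p.1, c)) (fun c => Sum.inr (p.1, c)) p.2 :
      (Fin k × α) ⊕ (Fin k × α))) |> fun h => by
    have h6 : ∀ i : Fin k → ℕ, (Sum.elim (tup x ((fun n => (s n).1) ∘ i))
        (tup z ((fun n => (s n).2) ∘ i))) ∘
        (fun p : Fin k × (α ⊕ α) => (Sum.elim (fun c => Sum.inl (p.1, c))
          (fun c => Sum.inr (p.1, c)) p.2 : (Fin k × α) ⊕ (Fin k × α))) =
        tup (fun n => (Sum.elim (x (s n).1) (z (s n).2) : α ⊕ α → U)) i := by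
      intro i
      funext p
      obtain ⟨a, c | c⟩ := p <;> rfl
    rw [h6, h6] at h
    exact h

end CM

end Pool.Agent.Lib_helper23.SD
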