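import Pool.Agent.Lib_helper23.SD.Base
import Pool.Agent.Lib_helper23.SD.SM
import Pool.Agent.Lib_helper23.SD.DF
import Pool.Agent.Lib_helper23.SD.IN
import Pool.Agent.Lib_helper23.SD.HO
import Pool.Agent.Lib_helper23.SD.SI
import Pool.Agent.Lib_helper23.SD.NI
import Pool.Agent.Lib_helper23.SD.CM

set_option autoImplicit false

namespace Pool.Agent.Lib_helper23.SD

open Cardinal

variable {L : FirstOrder.Language.{0, 0}} {U : Type} [L.Structure U]

/-! ### Block NO -/

/-- the rationals which are not natural numbers `≥ k` -/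
def NO_idx (k : ℕ) : Set ℚ := {r | ∀ n : ℕ, k ≤ n → r ≠ n}

/-- `x` on `NO_idx k` and `z` on `NO_idx l` look like `s` and `t` over `E` -/
def NO_ext (L : FirstOrder.Language.{0, 0}) {U : Type} [L.Structure U] {α : Type} (E : Set U)
    (s t : ℚ → α → U) (k l : ℕ) (x z : ℚ → α → U) : Prop :=
  ∀ (m n : ℕ) (i i' : Fin m → ℚ) (j j' : Fin n → ℚ), StrictMono i → StrictMono i' →
    StrictMono j → StrictMono j' → (∀ a, i a ∈ NO_idx k) → (∀ b, j b ∈ NO_idx l) →
    ¬ ((∃ a, i' a = 0) ∧ ∃ b, j' b = 0) →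
    SameTp L E (Sum.elim (tup x i) (tup z j)) (Sum.elim (tup s i') (tup t j'))

theorem NO_idx_mono {k l : ℕ} (h : k ≤ l) : NO_idx k ⊆ NO_idx l :=
  fun _ hr n hn => hr n (h.trans hn)

/-- finite sets of indices -/
theorem NO_sub {α : Type} {E : Set U} {s t : ℚ → α → U} {k l : ℕ} {x z : ℚ → α → U}
    (h : NO_ext L E s t k l x z) (S T : Finset ℚ) (hS : ∀ r ∈ S, r ∈ NO_idx k)
    (hT : ∀ r ∈ T, r ∈ NO_idx l) (g g' : ℚ → ℚ) (hg : StrictMono g) (hg' : StrictMono g')
    (h0 : ¬ ((∃ r ∈ S, g r = 0) ∧ ∃ r ∈ T, g' r = 0)) :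
    SameTp L E (Sum.elim (fun v : S × α => x v.1 v.2) (fun v : T × α => z v.1 v.2))
      (Sum.elim (fun v : S × α => s (g v.1) v.2) (fun v : T × α => t (g' v.1) v.2)) := by
  have h1 := h S.card T.card (S.orderEmbOfFin rfl) (fun a => g (S.orderEmbOfFin rfl a))
    (T.orderEmbOfFin rfl) (fun a => g' (T.orderEmbOfFin rfl a)) (S.orderEmbOfFin rfl).strictMono
    (fun a b hab => hg ((S.orderEmbOfFin rfl).strictMono hab)) (T.orderEmbOfFin rfl).strictMono
    (fun a b hab => hg' ((T.orderEmbOfFin rfl).strictMono hab))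
    (fun a => hS _ (Finset.orderEmbOfFin_mem S rfl a))
    (fun a => hT _ (Finset.orderEmbOfFin_mem T rfl a)) (fun ⟨⟨a, ha⟩, b, hb⟩ =>
      h0 ⟨⟨_, Finset.orderEmbOfFin_mem S rfl a, ha⟩, _, Finset.orderEmbOfFin_mem T rfl b, hb⟩)
  have h2 := IN_comp h1 (Sum.map (fun v : S × α => ((S.orderIsoOfFin rfl).symm v.1, v.2))
    (fun v : T × α => ((T.orderIsoOfFin rfl).symm v.1, v.2)))
  have e1 : ∀ r : S, S.orderEmbOfFin rfl ((S.orderIsoOfFin rfl).symm r) = r := fun r => by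
    rw [← Finset.coe_orderIsoOfFin_apply, OrderIso.apply_symm_apply]
  have e2 : ∀ r : T, T.orderEmbOfFin rfl ((T.orderIsoOfFin rfl).symm r) = r := fun r => by
    rw [← Finset.coe_orderIsoOfFin_apply, OrderIso.apply_symm_apply]
  have f1 : (Sum.elim (tup x (S.orderEmbOfFin rfl)) (tup z (T.orderEmbOfFin rfl))) ∘
      (Sum.map (fun v : S × α => ((S.orderIsoOfFin rfl).symm v.1, v.2))
        (fun v : T × α => ((T.orderIsoOfFin rfl).symm v.1, v.2))) =
      Sum.elim (fun v : S × α => x v.1 v.2) (fun v : T × α => z v.1 v.2) := by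
    funext v
    rcases v with v | v
    · show x (S.orderEmbOfFin rfl ((S.orderIsoOfFin rfl).symm v.1)) v.2 = x v.1 v.2
      rw [e1]
    · show z (T.orderEmbOfFin rfl ((T.orderIsoOfFin rfl).symm v.1)) v.2 = z v.1 v.2
      rw [e2]
  have f2 : (Sum.elim (tup s (fun a => g (S.orderEmbOfFin rfl a)))
      (tup t (fun a => g' (T.orderEmbOfFin rfl a)))) ∘
      (Sum.map (fun v : S × α => ((S.orderIsoOfFin rfl).symm v.1, v.2))
        (fun v : T × α => ((T.orderIsoOfFin rfl).symm v.1, v.2))) =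
      Sum.elim (fun v : S × α => s (g v.1) v.2) (fun v : T × α => t (g' v.1) v.2) := by
    funext v
    rcases v with v | v
    · show s (g (S.orderEmbOfFin rfl ((S.orderIsoOfFin rfl).symm v.1))) v.2 = s (g v.1) v.2
      rw [e1]
    · show t (g' (T.orderEmbOfFin rfl ((T.orderIsoOfFin rfl).symm v.1))) v.2 = t (g' v.1) v.2
      rw [e2]
  rw [f1, f2] at h2
  exact h2

/-- `v` is placed at the cuts `k`, `l` of `x`, `z` like `s 0`, `t 0`, as far as the indices in
`S`, `T` are concerned -/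
def NO_good (L : FirstOrder.Language.{0, 0}) {U : Type} [L.Structure U] {α : Type} (E : Set U)
    (s t : ℚ → α → U) (k l : ℕ) (x z : ℚ → α → U) (S T : Finset ℚ) (v : α ⊕ α → U) : Prop :=
  SameTp L E
    (Sum.elim v (Sum.elim (fun w : S × α => x w.1 w.2) (fun w : T × α => z w.1 w.2)))
    (Sum.elim (Sum.elim (s 0) (t 0)) (Sum.elim (fun w : S × α => s (w.1 - k) w.2)
      (fun w : T × α => t (w.1 - l) w.2)))

theorem NO_good_mono {α : Type} {E : Set U} {s t : ℚ → α → U} {k l : ℕ} {x z : ℚ → α → U}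
    {S T S' T' : Finset ℚ} (hS : S' ⊆ S) (hT : T' ⊆ T) {v : α ⊕ α → U}
    (h : NO_good L E s t k l x z S T v) : NO_good L E s t k l x z S' T' v := by
  have h1 := IN_comp h (Sum.map id (Sum.map
    (fun w : S' × α => ((⟨w.1.1, hS w.1.2⟩ : S), w.2))
    (fun w : T' × α => ((⟨w.1.1, hT w.1.2⟩ : T), w.2))))
  have f1 : ∀ (v : α ⊕ α → U) (a : S × α → U) (b : T × α → U),
      (Sum.elim v (Sum.elim a b)) ∘ (Sum.map id (Sum.map
        (fun w : S' × α => ((⟨w.1.1, hS w.1.2⟩ : S), w.2))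
        (fun w : T' × α => ((⟨w.1.1, hT w.1.2⟩ : T), w.2)))) =
      Sum.elim v (Sum.elim (fun w : S' × α => a (⟨w.1.1, hS w.1.2⟩, w.2))
        (fun w : T' × α => b (⟨w.1.1, hT w.1.2⟩, w.2))) := by
    intro v a b
    funext w
    rcases w with w | w | w <;> rfl
  rw [f1, f1] at h1
  exact h1

theorem NO_good_ex {κ : Cardinal.{0}} (hκ : ℵ₀ < κ) (hs : Saturated L κ U) {α : Type} [Finite α]
    {E : Set U} (hE : #E < κ) {s t : ℚ → α → U} {k l : ℕ} {x z : ℚ → α → U}
    (h : NO_ext L E s t k l x z) (S T : Finset ℚ) (hS : ∀ r ∈ S, r ∈ NO_idx k)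
    (hT : ∀ r ∈ T, r ∈ NO_idx l) : ∃ v, NO_good L E s t k l x z S T v := by
  have h1 := NO_sub h S T hS hT (fun r => r - k) (fun r => r - l)
    (fun a b hab => sub_lt_sub_right hab _) (fun a b hab => sub_lt_sub_right hab _)
    (fun ⟨⟨r, hr, hr0⟩, _⟩ => hS r hr k le_rfl (sub_eq_zero.1 hr0))
  exact HO_main hκ hs hE h1 (Sum.elim (s 0) (t 0))

theorem NO_step {κ : Cardinal.{0}} (hκ : ℵ₀ < κ) (hs : Saturated L κ U) {α : Type} [Finite α]
    {E : Set U} (hE : #E < κ) {s t : ℚ → α → U} {φ : Set (α ⊕ α → U)} (hMI : MI L E s t φ)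
    {k l : ℕ} {x z : ℚ → α → U} (h : NO_ext L E s t k l x z) :
    ∃ a b : α → U, Sum.elim a b ∉ φ ∧ NO_ext L E s t (k + 1) l (Function.update x k a) z ∧
      NO_ext L E s t k (l + 1) x (Function.update z l b) := by
  classical
  set A : Set U := E ∪ ((⋃ q, Set.range (x q)) ∪ ⋃ q, Set.range (z q)) with hA
  have hAs : #A < κ := SM_union hκ hE (SM_countable hκ
    ((Set.countable_iUnion fun n => (Set.finite_range _).countable).union
      (Set.countable_iUnion fun n => (Set.finite_range _).countable)))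
  -- a common point
  obtain ⟨v, hv⟩ : ∃ v : α ⊕ α → U, ∀ S T : Finset ℚ, (∀ r ∈ S, r ∈ NO_idx k) →
      (∀ r ∈ T, r ∈ NO_idx l) → NO_good L E s t k l x z S T v := by
    let 𝓕 : Set (Set (α ⊕ α → U)) := {W | ∃ S T : Finset ℚ, (∀ r ∈ S, r ∈ NO_idx k) ∧
      (∀ r ∈ T, r ∈ NO_idx l) ∧ ∃ D : Set ((α ⊕ α) ⊕ ((S × α) ⊕ (T × α)) → U),
        E.Definable L D ∧ Sum.elim (Sum.elim (s 0) (t 0))
          (Sum.elim (fun w : S × α => s (w.1 - k) w.2) (fun w : T × α => t (w.1 - l) w.2)) ∈ D ∧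
        W = {v | Sum.elim v (Sum.elim (fun w : S × α => x w.1 w.2)
          (fun w : T × α => z w.1 w.2)) ∈ D}}
    obtain ⟨v, hv⟩ := hs A hAs (α ⊕ α) 𝓕 (by
      rintro W ⟨S, T, _, _, D, hD, _, rfl⟩
      refine (DF_fib hD _).mono ?_
      refine Set.union_subset_union_right _ ?_
      rintro u ⟨w, rfl⟩
      rcases w with w | w
      · exact Or.inl (Set.mem_iUnion.2 ⟨w.1.1, w.2, rfl⟩)
      · exact Or.inr (Set.mem_iUnion.2 ⟨w.1.1, w.2, rfl⟩)) (by
      intro 𝓖 h𝓖 hfin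
      have key : ∃ S T : Finset ℚ, (∀ r ∈ S, r ∈ NO_idx k) ∧ (∀ r ∈ T, r ∈ NO_idx l) ∧
          ∀ v, NO_good L E s t k l x z S T v → v ∈ ⋂₀ 𝓖 := by
        induction 𝓖, hfin using Set.Finite.induction_on with
        | empty => exact ⟨∅, ∅, by simp, by simp, fun v _ => by simp⟩
        | @insert W 𝓖 _ _ ih =>
          obtain ⟨S, T, hS, hT, hST⟩ := ih fun W' hW' => h𝓖 (Set.mem_insert_of_mem _ hW')
          obtain ⟨S', T', hS', hT', D, hD, hDr, hW⟩ := h𝓖 (Set.mem_insert W 𝓖)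
          refine ⟨S ∪ S', T ∪ T', ?_, ?_, ?_⟩
          · intro r hr
            rcases Finset.mem_union.1 hr with hr | hr
            · exact hS r hr
            · exact hS' r hr
          · intro r hr
            rcases Finset.mem_union.1 hr with hr | hr
            · exact hT r hr
            · exact hT' r hr
          · intro v hv
            rw [Set.sInter_insert]
            refine ⟨?_, hST v (NO_good_mono Finset.subset_union_left Finset.subset_union_left hv)⟩
            rw [hW]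
            exact (NO_good_mono Finset.subset_union_right Finset.subset_union_right hv D hD).2 hDr
      obtain ⟨S, T, hS, hT, hST⟩ := key
      obtain ⟨v, hv⟩ := NO_good_ex hκ hs hE h S T hS hT
      exact ⟨v, hST v hv⟩)
    refine ⟨v, fun S T hS hT D hD => ?_⟩
    by_cases hr : Sum.elim (Sum.elim (s 0) (t 0))
          (Sum.elim (fun w : S × α => s (w.1 - k) w.2) (fun w : T × α => t (w.1 - l) w.2)) ∈ D
    · refine ⟨fun _ => hr, fun _ => ?_⟩
      exact hv _ ⟨S, T, hS, hT, D, hD, hr, rfl⟩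
    · refine ⟨fun hvD => ?_, fun hr' => absurd hr' hr⟩
      exact absurd hvD (hv _ ⟨S, T, hS, hT, Dᶜ, hD.compl, hr, rfl⟩)
  refine ⟨v ∘ Sum.inl, v ∘ Sum.inr, ?_, ?_, ?_⟩
  · have h1 := IN_comp (hv ∅ ∅ (by simp) (by simp)) (Sum.inl : α ⊕ α → _)
    have h2 := h1 φ hMI.dfn
    have e : Sum.elim (v ∘ Sum.inl) (v ∘ Sum.inr) = v := Sum.elim_comp_inl_inr v
    rw [e]
    intro hvφ
    exact hMI.bad (h2.1 hvφ)
  · intro m n i i' j j' hi hi' hj hj' hik hjl h0
    obtain ⟨S, hSm, hSi⟩ : ∃ S : Finset ℚ, (∀ a, i a ≠ k → i a ∈ S) ∧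
        ∀ r ∈ S, r ∈ NO_idx k := by
      refine ⟨(Finset.univ.image i).erase (k : ℚ), fun a ha => Finset.mem_erase.2
        ⟨ha, Finset.mem_image_of_mem i (Finset.mem_univ _)⟩, ?_⟩
      intro r hr
      rw [Finset.mem_erase, Finset.mem_image] at hr
      obtain ⟨hrk, a, _, rfl⟩ := hr
      intro n hn
      rcases Nat.eq_or_lt_of_le hn with rfl | hn
      · exact hrk
      · exact hik a n hn
    obtain ⟨T, hTm, hTi⟩ : ∃ T : Finset ℚ, (∀ b, j b ∈ T) ∧ ∀ r ∈ T, r ∈ NO_idx l := by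
      refine ⟨Finset.univ.image j, fun b => Finset.mem_image_of_mem j (Finset.mem_univ _), ?_⟩
      intro r hr
      rw [Finset.mem_image] at hr
      obtain ⟨b, _, rfl⟩ := hr
      exact hjl b
    have h1 := hv S T hSi hTi
    let f : (Fin m × α) ⊕ (Fin n × α) → (α ⊕ α) ⊕ ((S × α) ⊕ (T × α)) := Sum.elim
      (fun w => if hk : i w.1 = (k : ℚ) then Sum.inl (Sum.inl w.2) else
        Sum.inr (Sum.inl (⟨i w.1, hSm _ hk⟩, w.2)))
      (fun w => Sum.inr (Sum.inr (⟨j w.1, hTm _⟩, w.2)))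
    have h2 := IN_comp h1 f
    have f1 : (Sum.elim v (Sum.elim (fun w : S × α => x w.1 w.2)
          (fun w : T × α => z w.1 w.2))) ∘ f =
        (Sum.elim (tup (Function.update x k (v ∘ Sum.inl)) i) (tup z j)) := by
      funext w
      rcases w with w | w
      · show Sum.elim v _ (dite _ _ _) = Function.update x k (v ∘ Sum.inl) (i w.1) w.2
        split_ifs with hk
        · rw [hk, Function.update_self]; rfl
        · rw [Function.update_of_ne hk]; rfl
      · rfl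
    have f2 : (Sum.elim (Sum.elim (s 0) (t 0)) (Sum.elim
          (fun w : S × α => s (w.1 - k) w.2) (fun w : T × α => t (w.1 - l) w.2))) ∘ f =
        (Sum.elim (tup s (fun a => i a - k)) (tup t (fun b => j b - l))) := by
      funext w
      rcases w with w | w
      · show Sum.elim _ _ (dite _ _ _) = s (i w.1 - k) w.2
        split_ifs with hk
        · rw [hk, sub_self]; rfl
        · rfl
      · rfl
    rw [f1, f2] at h2
    intro D hD
    refine (h2 D hD).trans (hMI.same m n _ i' _ j'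
      (fun a b hab => sub_lt_sub_right (hi hab) _) hi'
      (fun a b hab => sub_lt_sub_right (hj hab) _) hj' ?_ h0 D hD)
    rintro ⟨_, b, hb⟩
    exact hjl b l le_rfl (sub_eq_zero.1 hb)
  · intro m n i i' j j' hi hi' hj hj' hik hjl h0
    obtain ⟨T, hTm, hTi⟩ : ∃ T : Finset ℚ, (∀ a, j a ≠ l → j a ∈ T) ∧
        ∀ r ∈ T, r ∈ NO_idx l := by
      refine ⟨(Finset.univ.image j).erase (l : ℚ), fun a ha => Finset.mem_erase.2
        ⟨ha, Finset.mem_image_of_mem j (Finset.mem_univ _)⟩, ?_⟩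
      intro r hr
      rw [Finset.mem_erase, Finset.mem_image] at hr
      obtain ⟨hrk, a, _, rfl⟩ := hr
      intro n hn
      rcases Nat.eq_or_lt_of_le hn with rfl | hn
      · exact hrk
      · exact hjl a n hn
    obtain ⟨S, hSm, hSi⟩ : ∃ S : Finset ℚ, (∀ b, i b ∈ S) ∧ ∀ r ∈ S, r ∈ NO_idx k := by
      refine ⟨Finset.univ.image i, fun b => Finset.mem_image_of_mem i (Finset.mem_univ _), ?_⟩
      intro r hr
      rw [Finset.mem_image] at hr
      obtain ⟨b, _, rfl⟩ := hr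
      exact hik b
    have h1 := hv S T hSi hTi
    let f : (Fin m × α) ⊕ (Fin n × α) → (α ⊕ α) ⊕ ((S × α) ⊕ (T × α)) := Sum.elim
      (fun w => Sum.inr (Sum.inl (⟨i w.1, hSm _⟩, w.2)))
      (fun w => if hk : j w.1 = (l : ℚ) then Sum.inl (Sum.inr w.2) else
        Sum.inr (Sum.inr (⟨j w.1, hTm _ hk⟩, w.2)))
    have h2 := IN_comp h1 f
    have f1 : (Sum.elim v (Sum.elim (fun w : S × α => x w.1 w.2)
          (fun w : T × α => z w.1 w.2))) ∘ f =
        (Sum.elim (tup x i) (tup (Function.update z l (v ∘ Sum.inr)) j)) := by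
      funext w
      rcases w with w | w
      · rfl
      · show Sum.elim v _ (dite _ _ _) = Function.update z l (v ∘ Sum.inr) (j w.1) w.2
        split_ifs with hk
        · rw [hk, Function.update_self]; rfl
        · rw [Function.update_of_ne hk]; rfl
    have f2 : (Sum.elim (Sum.elim (s 0) (t 0)) (Sum.elim
          (fun w : S × α => s (w.1 - k) w.2) (fun w : T × α => t (w.1 - l) w.2))) ∘ f =
        (Sum.elim (tup s (fun a => i a - k)) (tup t (fun b => j b - l))) := by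
      funext w
      rcases w with w | w
      · rfl
      · show Sum.elim _ _ (dite _ _ _) = t (j w.1 - l) w.2
        split_ifs with hk
        · rw [hk, sub_self]; rfl
        · rfl
    rw [f1, f2] at h2
    intro D hD
    refine (h2 D hD).trans (hMI.same m n _ i' _ j'
      (fun a b hab => sub_lt_sub_right (hi hab) _) hi'
      (fun a b hab => sub_lt_sub_right (hj hab) _) hj' ?_ h0 D hD)
    rintro ⟨⟨a, ha⟩, _⟩
    exact hik a k le_rfl (sub_eq_zero.1 ha)

/-- the entry of index `r` is in `D` iff `r` is not one of the natural numbers below `k` -/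
def NO_pat {α : Type} (D : Set (α → U)) (k : ℕ) (x : ℚ → α → U) : Prop :=
  ∀ r ∈ NO_idx k, (x r ∈ D ↔ ∀ n : ℕ, n < k → r ≠ n)

theorem NO_pat_succ {α : Type} {D : Set (α → U)} {k : ℕ} {x : ℚ → α → U} (h : NO_pat D k x)
    {a : α → U} (ha : a ∉ D) : NO_pat D (k + 1) (Function.update x k a) := by
  intro r hr
  by_cases hrk : r = k
  · subst hrk
    rw [Function.update_self]
    exact ⟨fun h => absurd h ha, fun h => absurd rfl (h k (Nat.lt_succ_self k))⟩
  · rw [Function.update_of_ne hrk, h r (fun n hn => by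
      rcases Nat.eq_or_lt_of_le hn with rfl | hn
      · exact hrk
      · exact hr n hn)]
    constructor
    · intro h n hn
      rcases Nat.lt_succ_iff_lt_or_eq.1 hn with hn | rfl
      · exact h n hn
      · exact hrk
    · intro h n hn
      exact h n (Nat.lt_succ_of_lt hn)

/-- a pattern with many exceptions alternates -/
theorem NO_alt {κ : Cardinal.{0}} (hκ : ℵ₀ < κ) (hs : Saturated L κ U) (hN : NIP L U)
    {α : Type} [Finite α] {D : Set (α → U)} (hD : (Set.univ : Set U).Definable L D)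
    {s : ℚ → α → U} : ∃ K : ℕ, ∀ k, K ≤ k → ∀ x : ℚ → α → U, NO_pat D k x →
      (∀ (m : ℕ) (i i' : Fin m → ℚ), StrictMono i → StrictMono i' → (∀ a, i a ∈ NO_idx k) →
        SameTp L ∅ (tup x i) (tup s i')) → False := by
  obtain ⟨K, hK⟩ := NI_alt hκ hs hN hD
  refine ⟨K, fun k hk x hx hxs => ?_⟩
  have hidx : ∀ n : ℕ, n < 2 * K → (((n : ℚ) - 1) / 2) ∈ NO_idx k := by
    intro n hn m hm h
    have h1 : ((n : ℚ)) = 2 * m + 1 := by linarith
    have h2 : n = 2 * m + 1 := by exact_mod_cast h1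
    omega
  refine hK (fun n => x (((n : ℚ) - 1) / 2)) ?_ ?_
  · intro i j hi hj hi2 hj2
    have hmono : ∀ i : Fin K → ℕ, StrictMono i → StrictMono fun a => (((i a : ℕ) : ℚ) - 1) / 2 := by
      intro i hi a b hab
      have : ((i a : ℕ) : ℚ) < i b := by exact_mod_cast hi hab
      show (((i a : ℕ) : ℚ) - 1) / 2 < (((i b : ℕ) : ℚ) - 1) / 2
      linarith
    intro E hE
    have hcast : StrictMono fun a : Fin K => ((a : ℕ) : ℚ) := fun a b hab => by
      show ((a : ℕ) : ℚ) < ((b : ℕ) : ℚ)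
      exact_mod_cast hab
    refine (hxs K (fun a => (((i a : ℕ) : ℚ) - 1) / 2) (fun a => ((a : ℕ) : ℚ)) (hmono i hi)
      hcast (fun a => hidx _ (hi2 a)) E hE).trans
      (hxs K (fun a => (((j a : ℕ) : ℚ) - 1) / 2) (fun a => ((a : ℕ) : ℚ)) (hmono j hj)
      hcast (fun a => hidx _ (hj2 a)) E hE).symm
  · intro n hn
    show x (((n : ℚ) - 1) / 2) ∈ D ↔ Even n
    rw [hx _ (hidx n hn)]
    constructor
    · intro h
      rcases Nat.even_or_odd n with he | ⟨m, hm⟩
      · exact he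
      · exfalso
        refine h m (by omega) ?_
        rw [hm]; push_cast; ring
    · rintro ⟨m, hm⟩ p _ h
      have h1 : ((n : ℚ)) = 2 * p + 1 := by linarith
      have h2 : n = 2 * p + 1 := by exact_mod_cast h1
      omega

/-- the definable set contains all members of index slightly below `0` -/
theorem NO_int {κ : Cardinal.{0}} (hκ : ℵ₀ < κ) (hs : Saturated L κ U) (hN : NIP L U)
    {α : Type} [Finite α] {D : Set (α → U)} {s : ℚ → α → U} (hD : D ∈ lim L (lsq s))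
    (hind : ∀ f : ℕ → ℚ, StrictMono f → (∀ n, f n < 0) → Indisc L ∅ (fun n => s (f n))) :
    ∃ δ : ℚ, 0 < δ ∧ ∀ q, -δ < q → q < 0 → s q ∈ D := by
  classical
  by_contra hcon
  push Not at hcon
  obtain ⟨N, hN1⟩ := Filter.eventually_atTop.1 hD.2
  have hin : ∀ b : ℚ, b < 0 → ∃ c, b < c ∧ c < 0 ∧ s c ∈ D := by
    intro b hb
    obtain ⟨m, hm⟩ := exists_nat_gt (-1 / b)
    refine ⟨-1 / (((max m N : ℕ) : ℚ) + 1), ?_, ?_, hN1 _ (le_max_right _ _)⟩
    · have h1 : (m : ℚ) ≤ ((max m N : ℕ) : ℚ) := by exact_mod_cast le_max_left _ _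
      have h2 : (0 : ℚ) < ((max m N : ℕ) : ℚ) + 1 := by positivity
      rw [lt_div_iff₀ h2]
      have h3 : -1 / b < ((max m N : ℕ) : ℚ) + 1 := by linarith
      have h4 := mul_lt_mul_of_neg_left h3 hb
      rw [mul_div_cancel₀ _ hb.ne] at h4
      exact h4
    · have h2 : (0 : ℚ) < ((max m N : ℕ) : ℚ) + 1 := by positivity
      exact div_neg_of_neg_of_pos (by norm_num) h2
  have hout : ∀ b : ℚ, b < 0 → ∃ c, b < c ∧ c < 0 ∧ s c ∉ D := by
    intro b hb
    obtain ⟨c, h1, h2, h3⟩ := hcon (-b) (by linarith)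
    exact ⟨c, by linarith, h2, h3⟩
  have hstep : ∀ (n : ℕ) (b : {b : ℚ // b < 0}), ∃ c : {b : ℚ // b < 0}, b.1 < c.1 ∧
      (s c.1 ∈ D ↔ Even n) := by
    intro n b
    by_cases hn : Even n
    · obtain ⟨c, h1, h2, h3⟩ := hin b.1 b.2
      exact ⟨⟨c, h2⟩, h1, fun _ => hn, fun _ => h3⟩
    · obtain ⟨c, h1, h2, h3⟩ := hout b.1 b.2
      exact ⟨⟨c, h2⟩, h1, fun h => absurd h h3, fun h => absurd h hn⟩
  choose g hg1 hg2 using hstep
  let f : ℕ → {b : ℚ // b < 0} := fun n => Nat.rec ⟨-1, by norm_num⟩ (fun n b => g n b) n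
  have hf : ∀ n, f (n + 1) = g n (f n) := fun n => rfl
  have hmono : StrictMono fun n => (f (n + 1)).1 := by
    refine strictMono_nat_of_lt_succ fun n => ?_
    rw [hf (n + 1)]
    exact hg1 _ _
  rcases NI_ev hκ hs hN hD.1 (fun n => s (f (n + 1)).1) (hind _ hmono fun n => (f (n + 1)).2)
    with h | h
  · obtain ⟨M, hM⟩ := Filter.eventually_atTop.1 h
    have h1 := hM (2 * M + 1) (by omega)
    rw [hf, hg2] at h1
    rcases h1 with ⟨m, hm⟩
    omega
  · obtain ⟨M, hM⟩ := Filter.eventually_atTop.1 h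
    have h1 := hM (2 * M) (by omega)
    rw [hf, hg2] at h1
    exact h1 (even_two_mul M)

theorem NO_emb (δ : ℚ) (hδ : 0 < δ) : ∃ h : ℚ → ℚ, StrictMono h ∧ ∀ r, -δ < h r ∧ h r < 0 := by
  have : Nontrivial (Set.Ioo (-δ) (0 : ℚ)) := by
    refine ⟨⟨⟨-δ / 2, by constructor <;> linarith⟩, ⟨-δ / 3, by constructor <;> linarith⟩, ?_⟩⟩
    intro h
    have := congrArg Subtype.val h
    simp only at this
    linarith
  obtain ⟨e⟩ := Order.embedding_from_countable_to_dense ℚ (Set.Ioo (-δ) (0 : ℚ))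
  exact ⟨fun r => (e r).1, fun a b hab => e.strictMono hab, fun r => (e r).2⟩

theorem NO_main {κ : Cardinal.{0}} (hκ : ℵ₀ < κ) (hs : Saturated L κ U) (hN : NIP L U)
    {α : Type} [Finite α] {E : Set U} (hE : #E < κ) {s t : ℚ → α → U}
    {φ : Set (α ⊕ α → U)} (h : MI L E s t φ) {D D' : Set (α → U)} (hD : D ∈ lim L (lsq s))
    (hD' : D' ∈ lim L (lsq t)) : ∃ x ∈ D, ∃ z ∈ D', Sum.elim x z ∉ φ := by
  by_contra hcon
  push Not at hcon
  obtain ⟨K, hK⟩ := NO_alt hκ hs hN hD.1 (s := s)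
  obtain ⟨K', hK'⟩ := NO_alt hκ hs hN hD'.1 (s := t)
  -- the game
  have key : ∀ n : ℕ, ∃ k l : ℕ, k + l = n ∧ ∃ x z : ℚ → α → U, NO_ext L E s t k l x z ∧
      NO_pat D k x ∧ NO_pat D' l z := by
    intro n
    induction n with
    | zero =>
      have h0 : StrictMono (Fin.elim0 : Fin 0 → ℚ) := fun a => a.elim0
      obtain ⟨δ, hδ, hδD⟩ := NO_int hκ hs hN hD (by
        intro f hf hf0 m i i' hi hi' D hD
        exact h.same m 0 (fun a => f (i a)) (fun a => f (i' a)) Fin.elim0 Fin.elim0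
          (fun a b hab => hf (hi hab)) (fun a b hab => hf (hi' hab)) h0 h0
          (fun ⟨_, ⟨a, _⟩⟩ => a.elim0) (fun ⟨_, ⟨a, _⟩⟩ => a.elim0) {v | v ∘ Sum.inl ∈ D}
          ((hD.mono (Set.empty_subset _)).preimage_comp Sum.inl))
      obtain ⟨δ', hδ', hδD'⟩ := NO_int hκ hs hN hD' (by
        intro f hf hf0 m i i' hi hi' D hD
        exact h.same 0 m Fin.elim0 Fin.elim0 (fun a => f (i a)) (fun a => f (i' a)) h0 h0
          (fun a b hab => hf (hi hab)) (fun a b hab => hf (hi' hab))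
          (fun ⟨⟨a, _⟩, _⟩ => a.elim0) (fun ⟨⟨a, _⟩, _⟩ => a.elim0) {v | v ∘ Sum.inr ∈ D}
          ((hD.mono (Set.empty_subset _)).preimage_comp Sum.inr))
      obtain ⟨e, he, he0⟩ := NO_emb δ hδ
      obtain ⟨e', he', he0'⟩ := NO_emb δ' hδ'
      refine ⟨0, 0, rfl, fun r => s (e r), fun r => t (e' r), ?_, ?_, ?_⟩
      · intro m n i i' j j' hi hi' hj hj' _ _ hnot
        exact h.same m n (fun a => e (i a)) i' (fun b => e' (j b)) j'
          (fun a b hab => he (hi hab)) hi' (fun a b hab => he' (hj hab)) hj'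
          (fun ⟨⟨a, ha⟩, _⟩ => absurd ha (he0 _).2.ne) hnot
      · intro r _
        exact ⟨fun _ n hn => absurd hn (Nat.not_lt_zero n), fun _ => hδD _ (he0 r).1 (he0 r).2⟩
      · intro r _
        exact ⟨fun _ n hn => absurd hn (Nat.not_lt_zero n),
          fun _ => hδD' _ (he0' r).1 (he0' r).2⟩
    | succ n ih =>
      obtain ⟨k, l, hkl, x, z, hxz, hx, hz⟩ := ih
      obtain ⟨a, b, hab, h1, h2⟩ := NO_step hκ hs hE h hxz
      by_cases ha : a ∈ D
      · have hb : b ∉ D' := fun hb => hab (hcon a ha b hb)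
        exact ⟨k, l + 1, by omega, x, _, h2, hx, NO_pat_succ hz hb⟩
      · exact ⟨k + 1, l, by omega, _, z, h1, NO_pat_succ hx ha, hz⟩
  obtain ⟨k, l, hkl, x, z, hxz, hx, hz⟩ := key (K + K')
  rcases Nat.lt_or_ge k K with hk | hk
  · refine hK' l (by omega) z hz ?_
    intro m i i' hi hi' hik D hD
    have h0 : StrictMono (Fin.elim0 : Fin 0 → ℚ) := fun a => a.elim0
    exact hxz 0 m Fin.elim0 Fin.elim0 i i' h0 h0 hi hi' (fun a => a.elim0) hik
      (fun ⟨⟨a, _⟩, _⟩ => a.elim0) {v | v ∘ Sum.inr ∈ D}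
      ((hD.mono (Set.empty_subset _)).preimage_comp Sum.inr)
  · refine hK k hk x hx ?_
    intro m i i' hi hi' hik D hD
    have h0 : StrictMono (Fin.elim0 : Fin 0 → ℚ) := fun a => a.elim0
    exact hxz m 0 i i' Fin.elim0 Fin.elim0 hi hi' h0 h0 hik (fun a => a.elim0)
      (fun ⟨_, ⟨a, _⟩⟩ => a.elim0) {v | v ∘ Sum.inl ∈ D}
      ((hD.mono (Set.empty_subset _)).preimage_comp Sum.inl)

end Pool.Agent.Lib_helper23.SD
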