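import Pool.Agent.Lib_helper23.SD.Base
import Pool.Agent.Lib_helper23.SD.SM
import Pool.Agent.Lib_helper23.SD.DF
import Pool.Agent.Lib_helper23.SD.IN
import Pool.Agent.Lib_helper23.SD.HO
import Pool.Agent.Lib_helper23.SD.SI
import Pool.Agent.Lib_helper23.SD.NI
import Pool.Agent.Lib_helper23.SD.CM
import Pool.Agent.Lib_helper23.SD.NO

/-!
# MP_bc6371_lc.StronglyDependent, block N2A: stretching
-/

set_option autoImplicit false

namespace Pool.Agent.Lib_helper23.SD

open Cardinal

variable {L : FirstOrder.Language.{0, 0}} {U : Type} [L.Structure U]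

theorem ND_trans {A : Set U} {β : Type} {b b' b'' : β → U} (h : SameTp L A b b')
    (h' : SameTp L A b' b'') : SameTp L A b b'' := fun D hD => (h D hD).trans (h' D hD)

theorem ND_symm {A : Set U} {β : Type} {b b' : β → U} (h : SameTp L A b b') :
    SameTp L A b' b := fun D hD => (h D hD).symm

theorem ND_mono {A B : Set U} (hAB : A ⊆ B) {β : Type} {b b' : β → U} (h : SameTp L B b b') :
    SameTp L A b b' := fun D hD => h D (hD.mono hAB)

/-- tuples indexed by a finite set -/
theorem ND_set {α I : Type} {G : Set U} {s : I → α → U} {J : ℚ → α → U} (S : Finset ℚ)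
    (θ : ℚ → I) (H : ∀ (k : ℕ) (i : Fin k → ℚ), StrictMono i → (∀ l, i l ∈ S) →
      SameTp L G (tup J i) (tup s (θ ∘ i))) :
    SameTp L G (fun z : {t // t ∈ S} × α => J z.1 z.2) (fun z : {t // t ∈ S} × α => s (θ z.1) z.2) := by
  let e : Fin S.card ≃o {t // t ∈ S} := S.orderIsoOfFin rfl
  have h := H S.card (fun l => (e l).1) (fun a b hab => e.strictMono hab) (fun l => (e l).2)
  have h1 := IN_comp h (fun z : {t // t ∈ S} × α => (e.symm z.1, z.2))
  have e1 : tup J (fun l => (e l).1) ∘ (fun z : {t // t ∈ S} × α => (e.symm z.1, z.2)) =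
      fun z : {t // t ∈ S} × α => J z.1 z.2 := by
    funext z
    simp [tup]
  have e2 : tup s (θ ∘ fun l => (e l).1) ∘ (fun z : {t // t ∈ S} × α => (e.symm z.1, z.2)) =
      fun z : {t // t ∈ S} × α => s (θ z.1) z.2 := by
    funext z
    simp [tup]
  rwa [e1, e2] at h1

/-- one more point -/
theorem ND_add {α I : Type} {G : Set U} {s : I → α → U} {J : ℚ → α → U} (S : Finset ℚ) (q : ℚ)
    (θ : ℚ → I) (a : α → U)
    (h : SameTp L G (Sum.elim a (fun z : {t // t ∈ S} × α => J z.1 z.2))
      (Sum.elim (s (θ q)) (fun z : {t // t ∈ S} × α => s (θ z.1) z.2)))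
    {k : ℕ} (i : Fin k → ℚ) (hi : ∀ l, i l = q ∨ i l ∈ S) :
    SameTp L G (tup (Function.update J q a) i) (tup s (θ ∘ i)) := by
  classical
  let f : Fin k × α → α ⊕ ({t // t ∈ S} × α) := fun z =>
    if h : i z.1 = q then Sum.inl z.2 else Sum.inr (⟨i z.1, (hi z.1).resolve_left h⟩, z.2)
  have h1 := IN_comp h f
  have e1 : Sum.elim a (fun z : {t // t ∈ S} × α => J z.1 z.2) ∘ f =
      tup (Function.update J q a) i := by
    funext z
    show Sum.elim a _ (f z) = Function.update J q a (i z.1) z.2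
    by_cases hz : i z.1 = q
    · have : f z = Sum.inl z.2 := dif_pos hz
      rw [this, hz, Function.update_self]
      rfl
    · have : f z = Sum.inr (⟨i z.1, (hi z.1).resolve_left hz⟩, z.2) := dif_neg hz
      rw [this, Function.update_of_ne hz]
      rfl
  have e2 : Sum.elim (s (θ q)) (fun z : {t // t ∈ S} × α => s (θ z.1) z.2) ∘ f =
      tup s (θ ∘ i) := by
    funext z
    show Sum.elim (s (θ q)) _ (f z) = s (θ (i z.1)) z.2
    by_cases hz : i z.1 = q
    · have : f z = Sum.inl z.2 := dif_pos hz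
      rw [this, hz]
      rfl
    · have : f z = Sum.inr (⟨i z.1, (hi z.1).resolve_left hz⟩, z.2) := dif_neg hz
      rw [this]
      rfl
  rwa [e1, e2] at h1

/-- strictly increasing maps of finite sets of rationals -/
theorem ND_theta {I : Type} [LinearOrder I] [Infinite I] (T : Finset ℚ) :
    ∃ θ : ℚ → I, ∀ a ∈ T, ∀ b ∈ T, a < b → θ a < θ b := by
  classical
  obtain ⟨T', hT'⟩ := Infinite.exists_subset_card_eq I T.card
  let e1 : Fin T.card ≃o {t // t ∈ T} := T.orderIsoOfFin rfl
  let e2 : Fin T.card ≃o {t // t ∈ T'} := T'.orderIsoOfFin hT'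
  refine ⟨fun t => if h : t ∈ T then (e2 (e1.symm ⟨t, h⟩)).1 else Classical.arbitrary I, ?_⟩
  intro a ha b hb hab
  show (if h : a ∈ T then (e2 (e1.symm ⟨a, h⟩)).1 else Classical.arbitrary I) <
    (if h : b ∈ T then (e2 (e1.symm ⟨b, h⟩)).1 else Classical.arbitrary I)
  rw [dif_pos ha, dif_pos hb]
  exact e2.strictMono (e1.symm.strictMono hab)

/-- the types of the increasing tuples from `S` are right -/
def ND_good (L : FirstOrder.Language.{0, 0}) {U : Type} [L.Structure U] {α I : Type}
    [LinearOrder I] (G : Set U) (s : I → α → U) (S : Finset ℚ) (J : ℚ → α → U) : Prop :=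
  ∀ (k : ℕ) (i : Fin k → ℚ) (j : Fin k → I), StrictMono i → StrictMono j → (∀ l, i l ∈ S) →
    SameTp L G (tup J i) (tup s j)

theorem ND_step {κ : Cardinal.{0}} (hκ : ℵ₀ < κ) (hs : Saturated L κ U) {α I : Type} [Finite α]
    [LinearOrder I] [Infinite I] {G : Set U} (hG : G.Finite) {s : I → α → U} (h : Indisc L G s)
    {S : Finset ℚ} {J : ℚ → α → U} (hJ : ND_good L G s S J) {q : ℚ} (hq : q ∉ S) :
    ∃ a : α → U, ND_good L G s (insert q S) (Function.update J q a) := by
  classical
  obtain ⟨θ, hθ⟩ := ND_theta (I := I) (insert q S)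
  have h1 := ND_set (L := L) (G := G) (s := s) (J := J) S θ fun k i hi hi' => hJ k i _ hi
    (fun a b hab => hθ _ (Finset.mem_insert_of_mem (hi' a)) _ (Finset.mem_insert_of_mem (hi' b))
      (hi hab)) hi'
  obtain ⟨a, ha⟩ := HO_main hκ hs (SM_countable hκ hG.countable) h1 (s (θ q))
  refine ⟨a, fun k i j hi hj hi' => ?_⟩
  refine ND_trans (ND_add S q θ a ha i fun l => Finset.mem_insert.1 (hi' l)) ?_
  exact h k _ _ (fun a b hab => hθ _ (hi' a) _ (hi' b) (hi hab)) hj

/-- ND2a: stretching (uses HO_main) -/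
theorem ND_stretch {κ : Cardinal.{0}} (hκ : ℵ₀ < κ) (hs : Saturated L κ U) {α I : Type} [Finite α]
    [LinearOrder I] [Infinite I] {G : Set U}
    (hG : G.Finite) {s : I → α → U} (h : Indisc L G s) :
    ∃ J : ℚ → α → U, ∀ (k : ℕ) (i : Fin k → ℚ) (j : Fin k → I), StrictMono i → StrictMono j →
      SameTp L G (tup J i) (tup s j) := by
  classical
  let e : ℚ ≃ ℕ := Denumerable.eqv ℚ
  let S : ℕ → Finset ℚ := fun n => (Finset.range n).image e.symm
  have hS : ∀ n, S (n + 1) = insert (e.symm n) (S n) := fun n => by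
    show (Finset.range (n + 1)).image e.symm = _
    rw [Finset.range_add_one, Finset.image_insert]
  have hn : ∀ n, e.symm n ∉ S n := by
    intro n hn
    obtain ⟨m, hm, hmn⟩ := Finset.mem_image.1 hn
    exact (Finset.mem_range.1 hm).ne (e.symm.injective hmn)
  have h0 : ND_good L G s (S 0) (fun _ => s (Classical.arbitrary I)) := by
    intro k i j _ _ hi
    rcases k with _ | k
    · have : tup (fun _ : ℚ => s (Classical.arbitrary I)) i = tup s j := by
        funext z
        exact z.1.elim0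
      rw [this]
      exact fun _ _ => Iff.rfl
    · have := hi 0
      simp [S] at this
  let seq : (n : ℕ) → {J : ℚ → α → U // ND_good L G s (S n) J} := fun n =>
    Nat.rec ⟨_, h0⟩ (fun n J => ⟨Function.update J.1 (e.symm n) (ND_step hκ hs hG h J.2 (hn n)).choose,
      by rw [hS]; exact (ND_step hκ hs hG h J.2 (hn n)).choose_spec⟩) n
  have hseq : ∀ n, (seq (n + 1)).1 = Function.update (seq n).1 (e.symm n)
      (ND_step hκ hs hG h (seq n).2 (hn n)).choose := fun n => rfl
  have hst : ∀ t m, e t + 1 ≤ m → (seq m).1 t = (seq (e t + 1)).1 t := by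
    intro t m hm
    induction m, hm using Nat.le_induction with
    | base => rfl
    | succ m hm ih =>
      rw [hseq, Function.update_of_ne, ih]
      rintro rfl
      rw [Equiv.apply_symm_apply] at hm
      omega
  refine ⟨fun t => (seq (e t + 1)).1 t, fun k i j hi hj => ?_⟩
  let m : ℕ := Finset.univ.sup fun l : Fin k => e (i l) + 1
  have hm : ∀ l, e (i l) + 1 ≤ m := fun l =>
    Finset.le_sup (f := fun l : Fin k => e (i l) + 1) (Finset.mem_univ l)
  have h1 : tup (fun t => (seq (e t + 1)).1 t) i = tup (seq m).1 i := by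
    funext z
    show (seq (e (i z.1) + 1)).1 (i z.1) z.2 = (seq m).1 (i z.1) z.2
    rw [hst _ m (hm z.1)]
  rw [h1]
  refine (seq m).2 k i j hi hj fun l => ?_
  refine Finset.mem_image.2 ⟨e (i l), Finset.mem_range.2 (hm l), e.symm_apply_apply _⟩

end Pool.Agent.Lib_helper23.SD
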