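import Pool.Agent.Lib_helper23.SD.Base
import Pool.Agent.Lib_helper23.SD.SM
import Pool.Agent.Lib_helper23.SD.DF
import Pool.Agent.Lib_helper23.SD.IN
import Pool.Agent.Lib_helper23.SD.HO
import Pool.Agent.Lib_helper23.SD.SI
import Pool.Agent.Lib_helper23.SD.NI
import Pool.Agent.Lib_helper23.SD.CM
import Pool.Agent.Lib_helper23.SD.NO
import Pool.Agent.Lib_helper23.SD.N2A

set_option autoImplicit false

/-! Block N2B: the exceptional points. -/

namespace Pool.Agent.Lib_helper23.SD

open Cardinal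

variable {L : FirstOrder.Language.{0, 0}} {U : Type} [L.Structure U]

/-- a map from the rationals to the order which is strictly increasing on a given finite set and
sends `q` to the cut `c` -/
private theorem N2B_emb {I : Type} [LinearOrder I] {c : I} (hc : Cut c) (R : Finset ℚ) (q : ℚ) :
    ∃ e : ℚ → I, e q = c ∧ (∀ r, e r = c → r = q) ∧
      ∀ x ∈ R, ∀ y ∈ R, x < y → e x < e y := by
  classical
  obtain ⟨⟨i₀, hi₀⟩, ⟨i₁, hi₁⟩, hlo, hhi⟩ := hc
  have : Nonempty {i : I // i < c} := ⟨⟨i₀, hi₀⟩⟩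
  have : NoMaxOrder {i : I // i < c} := ⟨fun i => by
    obtain ⟨j, hj, hj'⟩ := hlo i.1 i.2
    exact ⟨⟨j, hj'⟩, hj⟩⟩
  have : Nonempty {i : I // c < i} := ⟨⟨i₁, hi₁⟩⟩
  have : NoMinOrder {i : I // c < i} := ⟨fun i => by
    obtain ⟨j, hj, hj'⟩ := hhi i.1 i.2
    exact ⟨⟨j, hj⟩, hj'⟩⟩
  obtain ⟨f, hf⟩ := Nat.exists_strictMono {i : I // i < c}
  obtain ⟨g, hg⟩ := Nat.exists_strictAnti {i : I // c < i}
  refine ⟨fun r => if r < q then (f (R.filter (· < r)).card).1
    else if r = q then c else (g (R.filter (r < ·)).card).1, ?_, ?_, ?_⟩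
  · simp
  · intro r hr
    by_contra hne
    by_cases h1 : r < q
    · simp only [if_pos h1] at hr
      exact absurd hr (f _).2.ne
    · simp only [if_neg h1, if_neg hne] at hr
      exact absurd hr (g _).2.ne'
  · intro x hx y hy hxy
    by_cases h1 : y < q
    · have h2 : x < q := hxy.trans h1
      simp only [if_pos h1, if_pos h2]
      apply hf
      apply Finset.card_lt_card
      rw [Finset.ssubset_iff_of_subset]
      · exact ⟨x, Finset.mem_filter.2 ⟨hx, hxy⟩, fun h => lt_irrefl x (Finset.mem_filter.1 h).2⟩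
      · intro z hz
        obtain ⟨hz1, hz2⟩ := Finset.mem_filter.1 hz
        exact Finset.mem_filter.2 ⟨hz1, hz2.trans hxy⟩
    · by_cases h2 : x < q
      · simp only [if_neg h1, if_pos h2]
        by_cases h3 : y = q
        · rw [if_pos h3]
          exact (f _).2
        · rw [if_neg h3]
          exact (f _).2.trans (g _).2
      · have h3 : y ≠ q := fun h => h2 (h ▸ hxy)
        simp only [if_neg h1, if_neg h2, if_neg h3]
        by_cases h4 : x = q
        · rw [if_pos h4]
          exact (g _).2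
        · rw [if_neg h4]
          apply hg
          apply Finset.card_lt_card
          rw [Finset.ssubset_iff_of_subset]
          · exact ⟨y, Finset.mem_filter.2 ⟨hy, hxy⟩,
              fun h => lt_irrefl y (Finset.mem_filter.1 h).2⟩
          · intro z hz
            obtain ⟨hz1, hz2⟩ := Finset.mem_filter.1 hz
            exact Finset.mem_filter.2 ⟨hz1, hxy.trans hz2⟩

section Sat
variable {κ : Cardinal.{0}} (hκ : ℵ₀ < κ) (hs : Saturated L κ U)
include hκ hs

/-- ND2b: the exceptional points (uses HO_main, saturation over `G` and `J`) -/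
theorem ND_point {α I : Type} [Finite α] [LinearOrder I] {F G : Set U} (hFG : F ⊆ G)
    (hG : G.Finite) {φ : Set (α → U)} (hφ : G.Definable L φ) {c : I} (hc : Cut c)
    {s : I → α → U} (hF : Indisc L F s) (h : Indisc L G (fun i : {i : I // i ≠ c} => s i.1))
    (hsc : s c ∉ φ) {J : ℚ → α → U}
    (hJ : ∀ (k : ℕ) (i : Fin k → ℚ) (j : Fin k → {i : I // i ≠ c}), StrictMono i →
      StrictMono j → SameTp L G (tup J i) (tup (fun i : {i : I // i ≠ c} => s i.1) j))
    (q : ℚ) : ∃ a : α → U, Indisc L F (Function.update J q a) ∧ a ∉ φ := by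
  classical
  let A : Set U := G ∪ ⋃ r : ℚ, Set.range (J r)
  have hGA : G ⊆ A := Set.subset_union_left
  have hAc : A.Countable :=
    hG.countable.union (Set.countable_iUnion fun r => (Set.finite_range (J r)).countable)
  have hAκ : #A < κ := SM_countable hκ hAc
  have hGκ : #G < κ := SM_countable hκ hG.countable
  let 𝓕 : Set (Set (α → U)) := {E | E = φᶜ ∨ ∃ (k : ℕ) (i : Fin k → ℚ) (D : Set (Fin k × α → U)),
    StrictMono i ∧ F.Definable L D ∧ (∀ j : Fin k → I, StrictMono j → tup s j ∈ D) ∧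
    E = {a | tup (Function.update J q a) i ∈ D}}
  have h𝓕 : ∀ E ∈ 𝓕, A.Definable L E := by
    rintro E (rfl | ⟨k, i, D, hi, hD, -, rfl⟩)
    · exact (hφ.compl).mono hGA
    · have hD' : A.Definable L D := hD.mono (hFG.trans hGA)
      have hmem : ∀ (l : Fin k) (u : α), J (i l) u ∈ A := fun l u =>
        Or.inr (Set.mem_iUnion.2 ⟨i l, ⟨u, rfl⟩⟩)
      have h0 := DF_pre (L := L) (α := α) hD'
        (fun z : Fin k × α => if i z.1 = q then (Sum.inl z.2 : α ⊕ A)
          else Sum.inr ⟨J (i z.1) z.2, hmem z.1 z.2⟩)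
      refine (congrArg (A.Definable L) ?_).mpr h0
      ext a
      rw [Set.mem_ofPred_eq, Set.mem_ofPred_eq]
      have : tup (Function.update J q a) i = fun z : Fin k × α =>
          Sum.elim a (fun a : A => (a : U)) (if i z.1 = q then (Sum.inl z.2 : α ⊕ A)
            else Sum.inr ⟨J (i z.1) z.2, hmem z.1 z.2⟩) := by
        funext z
        unfold tup
        by_cases hz : i z.1 = q
        · rw [if_pos hz, hz, Function.update_self]
          rfl
        · rw [if_neg hz, Function.update_of_ne hz]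
          rfl
      rw [this]
  obtain ⟨a, ha⟩ := hs A hAκ α 𝓕 h𝓕 (by
    intro 𝓖 h𝓖 hfin
    -- the rationals which occur
    have hR : ∀ E : Set (α → U), ∃ R : Finset ℚ, E ∈ 𝓖 → E = φᶜ ∨
        ∃ (k : ℕ) (i : Fin k → ℚ) (D : Set (Fin k × α → U)),
          StrictMono i ∧ F.Definable L D ∧ (∀ j : Fin k → I, StrictMono j → tup s j ∈ D) ∧
          (∀ l, i l ∈ R) ∧ E = {a | tup (Function.update J q a) i ∈ D} := by
      intro E
      by_cases hE : E ∈ 𝓖
      · rcases h𝓖 hE with h1 | ⟨k, i, D, hi, hD, hj, rfl⟩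
        · exact ⟨∅, fun _ => Or.inl h1⟩
        · exact ⟨Finset.univ.image i, fun _ => Or.inr ⟨k, i, D, hi, hD, hj,
            fun l => Finset.mem_image_of_mem _ (Finset.mem_univ _), rfl⟩⟩
      · exact ⟨∅, fun h => absurd h hE⟩
    choose R hR using hR
    let R₁ : Finset ℚ := insert q (hfin.toFinset.biUnion R)
    obtain ⟨e, heq, hec, he⟩ := N2B_emb hc R₁ q
    let R₂ : Finset ℚ := R₁.erase q
    let i₀ : Fin R₂.card → ℚ := fun l => R₂.orderEmbOfFin rfl l
    have hi₀ : StrictMono i₀ := (R₂.orderEmbOfFin rfl).strictMono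
    have hi₀m : ∀ l, i₀ l ∈ R₂ := fun l => R₂.orderEmbOfFin_mem rfl l
    let j₀ : Fin R₂.card → {i : I // i ≠ c} := fun l =>
      ⟨e (i₀ l), fun h => (Finset.ne_of_mem_erase (hi₀m l)) (hec _ h)⟩
    have hj₀ : StrictMono j₀ := by
      intro l l' hl
      exact he _ (Finset.mem_of_mem_erase (hi₀m l)) _ (Finset.mem_of_mem_erase (hi₀m l')) (hi₀ hl)
    obtain ⟨a, ha⟩ := HO_main hκ hs hGκ (hJ _ i₀ j₀ hi₀ hj₀) (s c)
    refine ⟨a, ?_⟩
    intro E hE
    rcases hR E hE with h1 | ⟨k, i, D, hi, hD, hj, hiR, h1⟩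
    · rw [h1]
      intro haφ
      have h2 := IN_comp ha (Sum.inl : α → α ⊕ (Fin R₂.card × α)) φ hφ
      exact hsc (h2.1 haφ)
    · rw [h1]
      have hiR₁ : ∀ l, i l ∈ R₁ := fun l => Finset.mem_insert_of_mem
        (Finset.mem_biUnion.2 ⟨E, hfin.mem_toFinset.2 hE, hiR l⟩)
      have hidx : ∀ l, ∃ t : Fin R₂.card ⊕ Unit,
          (i l = q ∧ t = Sum.inr ()) ∨ (i l ≠ q ∧ ∃ t', t = Sum.inl t' ∧ i₀ t' = i l) := by
        intro l
        by_cases hl : i l = q
        · exact ⟨Sum.inr (), Or.inl ⟨hl, rfl⟩⟩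
        · have h2 : i l ∈ R₂ := Finset.mem_erase.2 ⟨hl, hiR₁ l⟩
          have h3 : i l ∈ Set.range i₀ := by
            have : Set.range i₀ = (R₂ : Set ℚ) := R₂.range_orderEmbOfFin rfl
            rw [this]
            exact h2
          obtain ⟨t', ht'⟩ := h3
          exact ⟨Sum.inl t', Or.inr ⟨hl, t', rfl, ht'⟩⟩
      choose t ht using hidx
      let f : Fin k × α → α ⊕ (Fin R₂.card × α) := fun z =>
        Sum.elim (fun t' => Sum.inr (t', z.2)) (fun _ => Sum.inl z.2) (t z.1)
      have h2 := IN_comp ha f D (hD.mono hFG)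
      have h3 : Sum.elim a (tup J i₀) ∘ f = tup (Function.update J q a) i := by
        funext z
        change Sum.elim a (tup J i₀) (f z) = Function.update J q a (i z.1) z.2
        rcases ht z.1 with ⟨h4, h5⟩ | ⟨h4, t', h5, h6⟩
        · rw [h4, Function.update_self]
          simp only [f, h5]
          rfl
        · rw [Function.update_of_ne h4]
          simp only [f, h5]
          change J (i₀ t') z.2 = _
          rw [h6]
      have h4 : Sum.elim (s c) (tup (fun i : {i : I // i ≠ c} => s i.1) j₀) ∘ f =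
          tup s (fun l => e (i l)) := by
        funext z
        change Sum.elim (s c) (tup (fun i : {i : I // i ≠ c} => s i.1) j₀) (f z) =
          s (e (i z.1)) z.2
        rcases ht z.1 with ⟨h4, h5⟩ | ⟨h4, t', h5, h6⟩
        · rw [h4, heq]
          simp only [f, h5]
          rfl
        · simp only [f, h5]
          change s (e (i₀ t')) z.2 = _
          rw [h6]
      rw [h3, h4] at h2
      exact h2.2 (hj _ (fun l l' hl => he _ (hiR₁ l) _ (hiR₁ l') (hi hl))))
  refine ⟨a, ?_, ha _ (Or.inl rfl)⟩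
  intro k i i' hi hi' D hD
  -- an increasing tuple of `I`
  obtain ⟨e, -, -, he⟩ := N2B_emb hc (Finset.univ.image i) q
  have hj : StrictMono fun l => e (i l) := fun l l' hl =>
    he _ (Finset.mem_image_of_mem _ (Finset.mem_univ _)) _
      (Finset.mem_image_of_mem _ (Finset.mem_univ _)) (hi hl)
  have key : ∀ D : Set (Fin k × α → U), F.Definable L D → tup s (fun l => e (i l)) ∈ D →
      ∀ i'' : Fin k → ℚ, StrictMono i'' → tup (Function.update J q a) i'' ∈ D := by
    intro D hD hm i'' hi''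
    exact ha _ (Or.inr ⟨k, i'', D, hi'', hD, fun j hj' => (hF k _ j hj hj' D hD).1 hm, rfl⟩)
  by_cases hm : tup s (fun l => e (i l)) ∈ D
  · exact ⟨fun _ => key D hD hm i' hi', fun _ => key D hD hm i hi⟩
  · have h1 := key Dᶜ hD.compl hm
    exact ⟨fun h2 => absurd h2 (h1 i hi), fun h2 => absurd h2 (h1 i' hi')⟩

end Sat

end Pool.Agent.Lib_helper23.SD
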