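import Pool.Agent.Lib_helper23.SD.Base
import Pool.Agent.Lib_helper23.SD.SM
import Pool.Agent.Lib_helper23.SD.DF
import Pool.Agent.Lib_helper23.SD.IN
import Pool.Agent.Lib_helper23.SD.HO
import Pool.Agent.Lib_helper23.SD.SI
import Pool.Agent.Lib_helper23.SD.NI
import Pool.Agent.Lib_helper23.SD.CM
import Pool.Agent.Lib_helper23.SD.NO
import Pool.Agent.Lib_helper23.SD.N2A
import Pool.Agent.Lib_helper23.SD.N2B

/-!
# MP_bc6371_lc.StronglyDependent, blocks BC and GE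
-/

set_option autoImplicit false

namespace Pool.Agent.Lib_helper23.SD

open Cardinal

variable {L : FirstOrder.Language.{0, 0}} {U : Type} [L.Structure U]

section Sat
variable {κ : Cardinal.{0}} (hκ : ℵ₀ < κ) (hs : Saturated L κ U)

private theorem BC_preimage {B : Set U} {α β : Type} (f : α → β) {D : Set (α → U)}
    (hD : B.Definable L D) : B.Definable L {z : β → U | z ∘ f ∈ D} :=
  hD.preimage_comp f

include hκ hs

/-! ### Block BC (exceptional pairs over small sets; saturation, IN_fin) -/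

theorem BC_pair {α : Type} [Finite α] (p q : Typ L (Set.univ : Set U) α) {E : Set U}
    {φ : Set (α ⊕ α → U)} (hφ : E.Definable L φ)
    (h : ∀ D ∈ p.sets, ∀ D' ∈ q.sets, ∃ x ∈ D, ∃ z ∈ D', Sum.elim x z ∉ φ) {B : Set U}
    (hB : #B < κ) (hEB : E ⊆ B) :
    ∃ y d : α → U, Real L p.sets B y ∧ Real L q.sets B d ∧ Sum.elim y d ∉ φ := by
  classical
  let 𝓕 : Set (Set (α ⊕ α → U)) :=
    {C | (∃ D ∈ p.sets, B.Definable L D ∧ C = {z | z ∘ Sum.inl ∈ D}) ∨
      (∃ D ∈ q.sets, B.Definable L D ∧ C = {z | z ∘ Sum.inr ∈ D}) ∨ C = φᶜ}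
  have hdef : ∀ D ∈ 𝓕, B.Definable L D := by
    rintro C (⟨D, -, hD, rfl⟩ | ⟨D, -, hD, rfl⟩ | rfl)
    · exact BC_preimage _ hD
    · exact BC_preimage _ hD
    · exact (hφ.mono hEB).compl
  have hfin : ∀ 𝓖 : Set (Set (α ⊕ α → U)), 𝓖.Finite → 𝓖 ⊆ 𝓕 →
      ∃ D ∈ p.sets, ∃ D' ∈ q.sets, ∀ x ∈ D, ∀ z ∈ D', Sum.elim x z ∉ φ →
        ∀ C ∈ 𝓖, Sum.elim x z ∈ C := by
    intro 𝓖 hG
    induction 𝓖, hG using Set.Finite.induction_on with
    | empty =>
      intro _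
      exact ⟨Set.univ, IN_univ p, Set.univ, IN_univ q, fun x _ z _ _ C hC => absurd hC (by simp)⟩
    | @insert C 𝓖 _ _ ih =>
      intro hsub
      obtain ⟨D, hD, D', hD', hDD⟩ := ih (fun D hD => hsub (Set.mem_insert_of_mem _ hD))
      rcases hsub (Set.mem_insert _ _) with ⟨D₁, hD₁, -, hC⟩ | ⟨D₁, hD₁, -, hC⟩ | hC
      · refine ⟨D ∩ D₁, p.inter _ hD _ hD₁, D', hD', ?_⟩
        rintro x ⟨hx, hx₁⟩ z hz hxz C' hC'
        rcases Set.mem_insert_iff.1 hC' with rfl | hC'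
        · rw [hC]; exact hx₁
        · exact hDD x hx z hz hxz C' hC'
      · refine ⟨D, hD, D' ∩ D₁, q.inter _ hD' _ hD₁, ?_⟩
        rintro x hx z ⟨hz, hz₁⟩ hxz C' hC'
        rcases Set.mem_insert_iff.1 hC' with rfl | hC'
        · rw [hC]; exact hz₁
        · exact hDD x hx z hz hxz C' hC'
      · refine ⟨D, hD, D', hD', ?_⟩
        intro x hx z hz hxz C' hC'
        rcases Set.mem_insert_iff.1 hC' with rfl | hC'
        · rw [hC]; exact hxz
        · exact hDD x hx z hz hxz C' hC'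
  obtain ⟨w, hw⟩ := hs B hB (α ⊕ α) 𝓕 hdef (by
    intro 𝓖 hsub hG
    obtain ⟨D, hD, D', hD', hDD⟩ := hfin 𝓖 hG hsub
    obtain ⟨x, hx, z, hz, hxz⟩ := h D hD D' hD'
    exact ⟨Sum.elim x z, fun C hC => hDD x hx z hz hxz C hC⟩)
  refine ⟨w ∘ Sum.inl, w ∘ Sum.inr, fun D hD hBD => ?_, fun D hD hBD => ?_, ?_⟩
  · exact hw {z | z ∘ Sum.inl ∈ D} (Or.inl ⟨D, hD, hBD, rfl⟩)
  · exact hw {z | z ∘ Sum.inr ∈ D} (Or.inr (Or.inl ⟨D, hD, hBD, rfl⟩))
  · have h1 : w ∈ φᶜ := hw φᶜ (Or.inr (Or.inr rfl))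
    have h2 : Sum.elim (w ∘ Sum.inl) (w ∘ Sum.inr) = w := Sum.elim_comp_inl_inr w
    rw [h2]
    exact h1

/-! ### Block GE (sequence of exceptional pairs; from the conclusion of BC by recursion; SM) -/

theorem GE_main {α : Type} [Finite α] {p q : Set (Set (α → U))} {φ : Set (α ⊕ α → U)} {E : Set U}
    (hE : #E < κ)
    (h : ∀ B : Set U, #B < κ → E ⊆ B →
      ∃ y d : α → U, Real L p B y ∧ Real L q B d ∧ Sum.elim y d ∉ φ) :
    ∃ y d : ℕ → α → U, ∀ l, Real L p (E ∪ old y d l) (y l) ∧ Real L q (E ∪ old y d l) (d l) ∧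
      Sum.elim (y l) (d l) ∉ φ := by
  classical
  choose Y D hY hD hYD using h
  have hstep : ∀ B : {B : Set U // #B < κ ∧ E ⊆ B},
      #((B.1 ∪ Set.range (Y B.1 B.2.1 B.2.2)) ∪ Set.range (D B.1 B.2.1 B.2.2) : Set U) < κ := by
    intro B
    exact SM_union hκ (SM_union hκ B.2.1 (SM_countable hκ (Set.finite_range _).countable))
      (SM_countable hκ (Set.finite_range _).countable)
  let S : ℕ → {B : Set U // #B < κ ∧ E ⊆ B} := fun n => Nat.rec ⟨E, hE, subset_rfl⟩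
    (fun _ B => ⟨(B.1 ∪ Set.range (Y B.1 B.2.1 B.2.2)) ∪ Set.range (D B.1 B.2.1 B.2.2),
      hstep B, (B.2.2.trans Set.subset_union_left).trans Set.subset_union_left⟩) n
  let y : ℕ → α → U := fun n => Y (S n).1 (S n).2.1 (S n).2.2
  let d : ℕ → α → U := fun n => D (S n).1 (S n).2.1 (S n).2.2
  have hS : ∀ n, (S (n + 1)).1 = ((S n).1 ∪ Set.range (y n)) ∪ Set.range (d n) := fun n => rfl
  have hold : ∀ n, (S n).1 = E ∪ old y d n := by
    intro n
    induction n with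
    | zero =>
      ext u
      constructor
      · exact fun hu => Or.inl hu
      · rintro (hu | ⟨l, hl, -⟩)
        · exact hu
        · exact absurd hl (Nat.not_lt_zero _)
    | succ n ih =>
      rw [hS, ih]
      ext u
      constructor
      · rintro (((hu | ⟨l, hl, hu⟩) | hu) | hu)
        · exact Or.inl hu
        · exact Or.inr ⟨l, hl.trans (Nat.lt_succ_self _), hu⟩
        · exact Or.inr ⟨n, Nat.lt_succ_self _, Or.inl hu⟩
        · exact Or.inr ⟨n, Nat.lt_succ_self _, Or.inr hu⟩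
      · rintro (hu | ⟨l, hl, hu⟩)
        · exact Or.inl (Or.inl (Or.inl hu))
        · rcases Nat.lt_succ_iff_lt_or_eq.1 hl with hl | rfl
          · exact Or.inl (Or.inl (Or.inr ⟨l, hl, hu⟩))
          · rcases hu with hu | hu
            · exact Or.inl (Or.inr hu)
            · exact Or.inr hu
  refine ⟨y, d, fun l => ?_⟩
  rw [← hold l]
  exact ⟨hY _ _ _, hD _ _ _, hYD _ _ _⟩

end Sat

end Pool.Agent.Lib_helper23.SD
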