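import Pool.Agent.Lib_helper23.SD.Defs

/-!
# MP_bc6371_lc.StronglyDependent: auxiliary definitions used by the proofs
-/

set_option autoImplicit false

namespace Pool.Agent.Lib_helper23.SD

open Cardinal

variable {L : FirstOrder.Language.{0, 0}} {U : Type} [L.Structure U]

/-- limit of a sequence of tuples: the definable sets containing almost all of its members -/
def lim (L : FirstOrder.Language.{0, 0}) {U : Type} [L.Structure U] {α : Type}
    (x : ℕ → α → U) : Set (Set (α → U)) :=
  {D | (Set.univ : Set U).Definable L D ∧ ∀ᶠ n in Filter.atTop, x n ∈ D}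

/-- the members of a sequence indexed by the rationals on the way to `0` from the left -/
def lsq {α : Type} (s : ℚ → α → U) (n : ℕ) : α → U := s (-1 / ((n : ℚ) + 1))

/-- all entries of the first `n` members of two sequences of tuples -/
def old {α : Type} (y d : ℕ → α → U) (n : ℕ) : Set U :=
  {u | ∃ l < n, u ∈ Set.range (y l) ∨ u ∈ Set.range (d l)}

/-- two sequences `s`, `t` mutually indiscernible over `E` as long as one does not use `s 0` and
`t 0` together; the formula `φ` over `E` fails for `s 0`, `t 0` and holds for the other pairs -/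
structure MI (L : FirstOrder.Language.{0, 0}) {U : Type} [L.Structure U] {α : Type} (E : Set U)
    (s t : ℚ → α → U) (φ : Set (α ⊕ α → U)) : Prop where
  same : ∀ (k l : ℕ) (i i' : Fin k → ℚ) (j j' : Fin l → ℚ), StrictMono i → StrictMono i' →
    StrictMono j → StrictMono j' → ¬ ((∃ a, i a = 0) ∧ ∃ b, j b = 0) →
    ¬ ((∃ a, i' a = 0) ∧ ∃ b, j' b = 0) →
    SameTp L E (Sum.elim (tup s i) (tup t j)) (Sum.elim (tup s i') (tup t j'))
  dfn : E.Definable L φ
  good : ∀ i j : ℚ, ¬ (i = 0 ∧ j = 0) → Sum.elim (s i) (t j) ∈ φ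
  bad : Sum.elim (s 0) (t 0) ∉ φ

end Pool.Agent.Lib_helper23.SD
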