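import Pool.Agent.Lib_helper23.SD.Base
import Pool.Agent.Lib_helper23.SD.SM
import Pool.Agent.Lib_helper23.SD.DF
import Pool.Agent.Lib_helper23.SD.IN
import Pool.Agent.Lib_helper23.SD.HO
import Pool.Agent.Lib_helper23.SD.SI
import Pool.Agent.Lib_helper23.SD.NI
import Pool.Agent.Lib_helper23.SD.CM
import Pool.Agent.Lib_helper23.SD.NO
import Pool.Agent.Lib_helper23.SD.N2A
import Pool.Agent.Lib_helper23.SD.N2B
import Pool.Agent.Lib_helper23.SD.BC
import Pool.Agent.Lib_helper23.SD.DO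

/-!
# MP_bc6371_lc.StronglyDependent: block CH (the chain)
-/

set_option autoImplicit false

namespace Pool.Agent.Lib_helper23.SD

open Cardinal

variable {L : FirstOrder.Language.{0, 0}} {U : Type} [L.Structure U]

section Sat
variable {κ : Cardinal.{0}} (hκ : ℵ₀ < κ) (hs : Saturated L κ U)
include hκ hs

theorem CH_main {α γ : Type} [Finite α] [Finite γ] {p q : Set (Set (α → U))}
    {P : Set (Set (γ → U))} {φ : Set (α ⊕ α → U)} {B : Set U}
    (hB : #B < κ) {y d : ℕ → α → U}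
    (hyd : ∀ l, Real L p (B ∪ old y d l) (y l) ∧ Real L q (B ∪ old y d l) (d l) ∧
      Sum.elim (y l) (d l) ∉ φ)
    (hcm : ∀ (B' : Set U) (y d : α → U), B ⊆ B' → Real L p B' y →
      Real L q (B' ∪ Set.range y) d → Real L p (B' ∪ Set.range d) y)
    (r : (γ → U) → (γ → U) → (α → U) → Prop)
    (hdo : ∀ (B' : Set U) (y₀ : γ → U) (y₁ : α → U), #B' < κ → B ⊆ B' → Real L p B' y₁ →
      Real L P (B' ∪ Set.range y₁) y₀ → ∃ x, Real L P B' x ∧ r x y₀ y₁)
    (hre : ∀ B' : Set U, #B' < κ → ∃ x, Real L P B' x)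
    (χ : ℕ → Set (γ ⊕ α → U))
    (hχ₀ : ∀ x y₀ y₁ d, r x y₀ y₁ → Sum.elim x d ∈ χ 0 → Sum.elim y₁ d ∈ φ)
    (hχ : ∀ k x y₀ y₁ d, r x y₀ y₁ → Sum.elim x d ∈ χ (k + 1) → Sum.elim y₀ d ∈ χ k)
    (pos : ℕ → ℕ) (hpos : StrictMono pos) (N : ℕ) :
    ∃ x : γ → U, Real L P (B ∪ {u | ∃ l, (∀ k, l ≠ pos k) ∧ u ∈ Set.range (d l)}) x ∧
      ∀ k < N, Sum.elim x (d (pos k)) ∉ χ k := by
  classical
  -- the set of the other `d`
  set C : Set U := {u | ∃ l, (∀ k, l ≠ pos k) ∧ u ∈ Set.range (d l)} with hC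
  have hCc : C.Countable := by
    have : C ⊆ ⋃ l, Set.range (d l) := by
      rintro u ⟨l, _, hl⟩
      exact Set.mem_iUnion.2 ⟨l, hl⟩
    exact (Set.countable_iUnion fun l => (Set.finite_range _).countable).mono this
  let Y : ℕ → Set U := fun k => {u | ∃ j < k, u ∈ Set.range (y (pos j))}
  have hYc : ∀ k, (Y k).Countable := by
    intro k
    have : Y k ⊆ ⋃ l, Set.range (y (pos l)) := by
      rintro u ⟨l, _, hl⟩
      exact Set.mem_iUnion.2 ⟨l, hl⟩
    exact (Set.countable_iUnion fun l => (Set.finite_range _).countable).mono this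
  let D : ℕ → Set U := fun k => (B ∪ C) ∪ Y k
  have hDs : ∀ k, #(D k) < κ := fun k =>
    SM_union hκ (SM_union hκ hB (SM_countable hκ hCc)) (SM_countable hκ (hYc k))
  have hBD : ∀ k, B ⊆ D k := fun k => Set.subset_union_left.trans Set.subset_union_left
  have hDk : ∀ k, D (k + 1) = D k ∪ Set.range (y (pos k)) := by
    intro k
    ext u
    constructor
    · rintro (h | ⟨j, hj, h⟩)
      · exact Or.inl (Or.inl h)
      · rcases Nat.lt_succ_iff_lt_or_eq.1 hj with hj | rfl
        · exact Or.inl (Or.inr ⟨j, hj, h⟩)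
        · exact Or.inr h
    · rintro ((h | ⟨j, hj, h⟩) | h)
      · exact Or.inl h
      · exact Or.inr ⟨j, hj.trans (Nat.lt_succ_self k), h⟩
      · exact Or.inr ⟨k, Nat.lt_succ_self k, h⟩
  -- (i)
  have hy : ∀ k, Real L p (D k) (y (pos k)) := by
    intro k
    let K : ℕ → Set U := fun l =>
      (B ∪ old y d (pos k)) ∪ {u | ∃ m < l, pos k < m ∧ (∀ j, m ≠ pos j) ∧ u ∈ Set.range (d m)}
    have hK0 : ∀ l, Real L p (K l) (y (pos k)) := by
      intro l
      induction l with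
      | zero =>
        refine IN_real (hyd (pos k)).1 ?_
        rintro u (h | ⟨m, hm, _⟩)
        · exact h
        · exact absurd hm (Nat.not_lt_zero m)
      | succ l ih =>
        by_cases hl : pos k < l ∧ ∀ j, l ≠ pos j
        · have h1 : Real L q (K l ∪ Set.range (y (pos k))) (d l) := by
            refine IN_real (hyd l).2.1 ?_
            rintro u (((h | ⟨m, hm, h⟩) | ⟨m, hm, h1, h2, h⟩) | h)
            · exact Or.inl h
            · exact Or.inr ⟨m, hm.trans hl.1, h⟩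
            · exact Or.inr ⟨m, hm, Or.inr h⟩
            · exact Or.inr ⟨pos k, hl.1, Or.inl h⟩
          have h2 := hcm (K l) (y (pos k)) (d l)
            (Set.subset_union_left.trans Set.subset_union_left) ih h1
          refine IN_real h2 ?_
          rintro u (h | ⟨m, hm, h1, h2, h⟩)
          · exact Or.inl (Or.inl h)
          · rcases Nat.lt_succ_iff_lt_or_eq.1 hm with hm | rfl
            · exact Or.inl (Or.inr ⟨m, hm, h1, h2, h⟩)
            · exact Or.inr h
        · refine IN_real ih ?_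
          rintro u (h | ⟨m, hm, h1, h2, h⟩)
          · exact Or.inl h
          · rcases Nat.lt_succ_iff_lt_or_eq.1 hm with hm | rfl
            · exact Or.inr ⟨m, hm, h1, h2, h⟩
            · exact absurd ⟨h1, h2⟩ hl
    have hKm : Monotone K := by
      intro l l' hl
      rintro u (h | ⟨m, hm, h⟩)
      · exact Or.inl h
      · exact Or.inr ⟨m, hm.trans_le hl, h⟩
    refine IN_real (IN_union K hKm hK0) ?_
    rintro u ((h | ⟨l, hl, h⟩) | ⟨j, hj, h⟩)
    · exact Set.mem_iUnion.2 ⟨0, Or.inl (Or.inl h)⟩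
    · rcases lt_trichotomy l (pos k) with h1 | h1 | h1
      · exact Set.mem_iUnion.2 ⟨0, Or.inl (Or.inr ⟨l, h1, Or.inr h⟩)⟩
      · exact absurd h1 (hl k)
      · exact Set.mem_iUnion.2 ⟨l + 1, Or.inr ⟨l, Nat.lt_succ_self l, h1, hl, h⟩⟩
    · exact Set.mem_iUnion.2 ⟨0, Or.inl (Or.inr ⟨pos j, hpos hj, Or.inl h⟩)⟩
  -- (ii)
  have hmain : ∀ m k, k + m = N → ∃ x : γ → U, Real L P (D k) x ∧
      ∀ j, k + j < N → Sum.elim x (d (pos (k + j))) ∉ χ j := by
    intro m
    induction m with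
    | zero =>
      intro k hk
      obtain ⟨x, hx⟩ := hre (D k) (hDs k)
      exact ⟨x, hx, fun j hj => absurd hj (by omega)⟩
    | succ m ih =>
      intro k hk
      obtain ⟨x', hx', hj'⟩ := ih (k + 1) (by omega)
      rw [hDk k] at hx'
      obtain ⟨x, hx, hr⟩ := hdo (D k) x' (y (pos k)) (hDs k) (hBD k) (hy k) hx'
      refine ⟨x, hx, fun j hj => ?_⟩
      rcases j with _ | j
      · intro h
        exact (hyd (pos k)).2.2 (hχ₀ _ _ _ _ hr h)
      · intro h
        have h2 := hj' j (by omega)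
        have h3 : k + 1 + j = k + (j + 1) := by omega
        rw [h3] at h2
        exact h2 (hχ j _ _ _ _ hr h)
  obtain ⟨x, hx, hj⟩ := hmain N 0 (Nat.zero_add N)
  refine ⟨x, IN_real hx Set.subset_union_left, fun k hk => ?_⟩
  have := hj k (by omega)
  rwa [Nat.zero_add] at this

end Sat

end Pool.Agent.Lib_helper23.SD
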