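import Pool.Agent.Lib_helper23.SD.Base
import Pool.Agent.Lib_helper23.SD.SM
import Pool.Agent.Lib_helper23.SD.DF
import Pool.Agent.Lib_helper23.SD.IN
import Pool.Agent.Lib_helper23.SD.HO
import Pool.Agent.Lib_helper23.SD.SI
import Pool.Agent.Lib_helper23.SD.NI
import Pool.Agent.Lib_helper23.SD.CM
import Pool.Agent.Lib_helper23.SD.NO
import Pool.Agent.Lib_helper23.SD.N2A
import Pool.Agent.Lib_helper23.SD.N2B
import Pool.Agent.Lib_helper23.SD.BC

/-!
# MP_bc6371_lc.StronglyDependent: block DO (domination of `P ⊗ p` by `P`)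
-/

set_option autoImplicit false

namespace Pool.Agent.Lib_helper23.SD

open Cardinal

variable {L : FirstOrder.Language.{0, 0}} {U : Type} [L.Structure U]

section Sat
variable {κ : Cardinal.{0}} (hκ : ℵ₀ < κ) (hs : Saturated L κ U)
include hκ

omit [L.Structure U] in
private theorem DO_small {β : Type} [Finite β] {B : Set U} (hB : #B < κ) (b : β → U) :
    #(B ∪ Set.range b : Set U) < κ :=
  SM_union hκ hB (SM_countable hκ (Set.finite_range b).countable)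

include hs

section DO
variable {α γ : Type} [Finite α] [Finite γ] (P : Typ L (Set.univ : Set U) γ)
  (p : Typ L (Set.univ : Set U) α) {A : Set U} (hA : #A < κ)
  (hP : InvOver L A P.sets) (r : Typ L A (γ ⊕ (γ ⊕ α)))
  (h1 : ∀ D ∈ P.sets, A.Definable L D → {z | z ∘ Sum.inl ∈ D} ∈ r.sets)
  (h3 : ∀ D ∈ tensor L κ P.sets p.sets, ∃ E ∈ P.sets, ∃ R ∈ r.sets, ∀ x y, x ∈ E →
    Sum.elim x y ∈ R → y ∈ D)
include hA hP h1 h3

/-- every pair of independent realisations over a small `B` is dominated -/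
theorem DO_main {B : Set U} (hB : #B < κ) (hAB : A ⊆ B) {y₀ : γ → U} {y₁ : α → U}
    (hy₁ : Real L p.sets B y₁) (hy₀ : Real L P.sets (B ∪ Set.range y₁) y₀) :
    ∃ x : γ → U, Real L P.sets B x ∧ ∀ R ∈ r.sets, Sum.elim x (Sum.elim y₀ y₁) ∈ R := by
  obtain ⟨x', hx'⟩ := HO_real hκ hs P hB
  -- a tuple `y'` with `(x', y')` realising `r`
  obtain ⟨y', hy'⟩ : ∃ y' : γ ⊕ α → U, ∀ R ∈ r.sets, Sum.elim x' y' ∈ R := by
    have key : (⋂₀ {S : Set (γ ⊕ α → U) | ∃ R ∈ r.sets, S = {y | Sum.elim x' y ∈ R}}).Nonempty := by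
      refine hs (A ∪ Set.range x') (DO_small hκ hA x') (γ ⊕ α) _ ?_ ?_
      · rintro D ⟨R, hR, rfl⟩
        exact DF_fib' (r.dfn R hR) x'
      · intro 𝓖 h𝓖 hfin
        choose! F hF using fun S (hS : S ∈ 𝓖) => h𝓖 hS
        have hI : ⋂₀ (F '' 𝓖) ∈ r.sets := IN_fin r (by
          rintro R ⟨S, hS, rfl⟩
          exact (hF S hS).1) (hfin.image F)
        set R := ⋂₀ (F '' 𝓖) with hRdef
        have hD : A.Definable L {x : γ → U | ∃ y : γ ⊕ α → U, Sum.elim x y ∈ R} :=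
          Set.Definable.exists_of_finite (r.dfn R hI)
        have hmem : x' ∈ {x : γ → U | ∃ y : γ ⊕ α → U, Sum.elim x y ∈ R} := by
          rw [IN_iff P (IN_real hx' hAB) hD]
          rcases P.ultra _ (hD.mono (Set.subset_univ A)) with h | h
          · exact h
          · exfalso
            have h2 := r.inter _ (h1 _ h hD.compl) _ hI
            have h4 : {z : γ ⊕ (γ ⊕ α) → U | z ∘ Sum.inl ∈
                {x : γ → U | ∃ y : γ ⊕ α → U, Sum.elim x y ∈ R}ᶜ} ∩ R = ∅ := by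
              rw [Set.eq_empty_iff_forall_notMem]
              rintro z ⟨hz1, hz2⟩
              apply hz1
              refine ⟨z ∘ Sum.inr, ?_⟩
              rw [Sum.elim_comp_inl_inr]
              exact hz2
            apply r.nempty
            rw [← h4]
            exact h2
        obtain ⟨y, hy⟩ := hmem
        refine ⟨y, ?_⟩
        intro S hS
        rw [(hF S hS).2]
        exact Set.mem_sInter.1 hy (F S) ⟨S, hS, rfl⟩
    obtain ⟨y', hy'⟩ := key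
    exact ⟨y', fun R hR => Set.mem_sInter.1 hy' _ ⟨R, hR, rfl⟩⟩
  -- it has the same type over `B` as `(y₀, y₁)`
  have hhalf : ∀ D : Set (γ ⊕ α → U), B.Definable L D → Sum.elim y₀ y₁ ∈ D → y' ∈ D := by
    intro D hD hmem
    have hfib := DF_fib hD y₁
    have hDt : D ∈ tensor L κ P.sets p.sets :=
      ⟨B, hB, IN_mono hP hAB, hD, y₁, hy₁, (IN_iff P hy₀ hfib).1 hmem⟩
    obtain ⟨E, hE, R, hR, hER⟩ := h3 D hDt
    have hRB : B.Definable L R := (r.dfn R hR).mono hAB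
    have hE' : B.Definable L {x : γ → U | ∀ y : γ ⊕ α → U, Sum.elim x y ∈
        (R ∩ {z | z ∘ Sum.inr ∈ D}ᶜ)ᶜ} := by
      apply Set.Definable.forall_of_finite
      exact (hRB.inter (hD.preimage_comp Sum.inr).compl).compl
    have hsub : E ⊆ {x : γ → U | ∀ y : γ ⊕ α → U, Sum.elim x y ∈
        (R ∩ {z | z ∘ Sum.inr ∈ D}ᶜ)ᶜ} := by
      rintro x hx y ⟨hy1, hy2⟩
      exact hy2 (hER x y hx hy1)
    have hx'E := hx' _ (P.mono E hE _ (hE'.mono (Set.subset_univ B)) hsub) hE'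
    by_contra hn
    exact hx'E y' ⟨hy' R hR, fun hh => hn hh⟩
  have hsame : SameTp L B (Sum.elim y₀ y₁) y' := by
    intro D hD
    refine ⟨hhalf D hD, fun h => ?_⟩
    by_contra hn
    exact hhalf Dᶜ hD.compl hn h
  obtain ⟨x, hx⟩ := HO_main hκ hs hB hsame x'
  refine ⟨x, ?_, ?_⟩
  · intro D hD hDB
    have := (hx {z | z ∘ Sum.inl ∈ D} (hDB.preimage_comp Sum.inl)).2 (hx' D hD hDB)
    exact this
  · intro R hR
    exact (hx R ((r.dfn R hR).mono hAB)).2 (hy' R hR)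

omit hA h1 in
/-- the common part of the two steps -/
private theorem DO_step {β : Type} [Finite β] {B : Set U} (hB : #B < κ) (hAB : A ⊆ B)
    (q : Typ L (Set.univ : Set U) α)
    {Θ : Set (β ⊕ α → U)} (hΘ : B.Definable L Θ)
    (g : β → γ ⊕ α)
    (hg : ∀ d y₁ : α → U, Real L q.sets B d → Real L p.sets (B ∪ Set.range d) y₁ →
      {x : γ → U | Sum.elim (Sum.elim x y₁ ∘ g) d ∈ Θ} ∈ P.sets) :
    ∃ Θ' : Set (γ ⊕ α → U), B.Definable L Θ' ∧
      (∀ d, Real L q.sets B d → {x | Sum.elim x d ∈ Θ'} ∈ P.sets) ∧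
      ∀ (x y₀ : γ → U) (y₁ d : α → U), (∀ R ∈ r.sets, Sum.elim x (Sum.elim y₀ y₁) ∈ R) →
        Sum.elim x d ∈ Θ' → Sum.elim (Sum.elim y₀ y₁ ∘ g) d ∈ Θ := by
  obtain ⟨d₀, hd₀⟩ := HO_real hκ hs q hB
  have hBd : #(B ∪ Set.range d₀ : Set U) < κ := DO_small hκ hB d₀
  obtain ⟨y₁, hy₁⟩ := HO_real hκ hs p hBd
  have hD : (B ∪ Set.range d₀).Definable L {z : γ ⊕ α → U | Sum.elim (z ∘ g) d₀ ∈ Θ} :=
    (DF_fib hΘ d₀).preimage_comp g
  obtain ⟨E, hE, R, hR, hER⟩ := h3 {z : γ ⊕ α → U | Sum.elim (z ∘ g) d₀ ∈ Θ}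
    ⟨B ∪ Set.range d₀, hBd, IN_mono hP (hAB.trans Set.subset_union_left), hD, y₁, hy₁,
      hg d₀ y₁ hd₀ hy₁⟩
  have hRB : B.Definable L R := (r.dfn R hR).mono hAB
  -- the relation in the variables `(x, d)` and `y`
  have hT : B.Definable L {w : γ ⊕ α → U | ∀ y : γ ⊕ α → U, Sum.elim w y ∈
      ({v : (γ ⊕ α) ⊕ (γ ⊕ α) → U | v ∘ Sum.elim (fun i => Sum.inl (Sum.inl i)) Sum.inr ∈ R} ∩
        {v : (γ ⊕ α) ⊕ (γ ⊕ α) → U |
          v ∘ Sum.elim (fun i => Sum.inr (g i)) (fun i => Sum.inl (Sum.inr i)) ∈ Θ}ᶜ)ᶜ} := by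
    apply Set.Definable.forall_of_finite
    exact ((hRB.preimage_comp _).inter (hΘ.preimage_comp _).compl).compl
  have e1 : ∀ (w y : γ ⊕ α → U), (Sum.elim w y : (γ ⊕ α) ⊕ (γ ⊕ α) → U) ∘
      Sum.elim (fun i => Sum.inl (Sum.inl i)) Sum.inr = Sum.elim (w ∘ Sum.inl) y := by
    intro w y
    funext i
    rcases i with a | b <;> rfl
  have e2 : ∀ (w y : γ ⊕ α → U), (Sum.elim w y : (γ ⊕ α) ⊕ (γ ⊕ α) → U) ∘
      Sum.elim (fun i => Sum.inr (g i)) (fun i => Sum.inl (Sum.inr i)) =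
        Sum.elim (y ∘ g) (w ∘ Sum.inr) := by
    intro w y
    funext i
    rcases i with a | b <;> rfl
  refine ⟨_, hT, ?_, ?_⟩
  · have h0 : {x : γ → U | Sum.elim x d₀ ∈ {w : γ ⊕ α → U | ∀ y : γ ⊕ α → U, Sum.elim w y ∈
      ({v : (γ ⊕ α) ⊕ (γ ⊕ α) → U | v ∘ Sum.elim (fun i => Sum.inl (Sum.inl i)) Sum.inr ∈ R} ∩
        {v : (γ ⊕ α) ⊕ (γ ⊕ α) → U |
          v ∘ Sum.elim (fun i => Sum.inr (g i)) (fun i => Sum.inl (Sum.inr i)) ∈ Θ}ᶜ)ᶜ}} ∈
            P.sets := by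
      refine P.mono E hE _ ((DF_fib hT d₀).mono (Set.subset_univ _)) ?_
      rintro x hx y ⟨hy1, hy2⟩
      apply hy2
      have hy1' : Sum.elim x y ∈ R := by
        have := hy1
        change _ ∈ R at this
        rw [e1] at this
        simpa using this
      have := hER x y hx hy1'
      show _ ∈ Θ
      rw [e2]
      simpa using this
    intro d hd
    exact (IN_rel hP hAB hT (IN_same q hd hd₀)).2 h0
  · intro x y₀ y₁ d hr hx
    have hx' := hx (Sum.elim y₀ y₁)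
    by_contra hn
    apply hx'
    refine ⟨?_, ?_⟩
    · show _ ∈ R
      rw [e1]
      simpa using hr R hR
    · intro hh
      apply hn
      have : (Sum.elim (Sum.elim x d) (Sum.elim y₀ y₁) : (γ ⊕ α) ⊕ (γ ⊕ α) → U) ∘
          Sum.elim (fun i => Sum.inr (g i)) (fun i => Sum.inl (Sum.inr i)) ∈ Θ := hh
      rw [e2] at this
      simpa using this

/-- transport of a formula to the dominating element, first coordinate -/
theorem DO_step₀ {B : Set U} (hB : #B < κ) (hAB : A ⊆ B) (q : Typ L (Set.univ : Set U) α)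
    {Θ : Set (γ ⊕ α → U)} (hΘ : B.Definable L Θ)
    (h : ∀ d, Real L q.sets B d → {x | Sum.elim x d ∈ Θ} ∈ P.sets) :
    ∃ Θ' : Set (γ ⊕ α → U), B.Definable L Θ' ∧
      (∀ d, Real L q.sets B d → {x | Sum.elim x d ∈ Θ'} ∈ P.sets) ∧
      ∀ (x y₀ : γ → U) (y₁ d : α → U), (∀ R ∈ r.sets, Sum.elim x (Sum.elim y₀ y₁) ∈ R) →
        Sum.elim x d ∈ Θ' → Sum.elim y₀ d ∈ Θ := by
  have := DO_step hκ hs P p hP r h3 hB hAB q hΘ Sum.inl (by
    intro d y₁ hd hy₁
    have := h d hd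
    simpa using this)
  simpa using this

/-- the same for the second coordinate -/
theorem DO_step₁ {B : Set U} (hB : #B < κ) (hAB : A ⊆ B) (q : Typ L (Set.univ : Set U) α)
    {Θ : Set (α ⊕ α → U)} (hΘ : B.Definable L Θ)
    (h : ∀ d, Real L q.sets B d → {x | Sum.elim x d ∈ Θ} ∈ p.sets) :
    ∃ Θ' : Set (γ ⊕ α → U), B.Definable L Θ' ∧
      (∀ d, Real L q.sets B d → {x | Sum.elim x d ∈ Θ'} ∈ P.sets) ∧
      ∀ (x y₀ : γ → U) (y₁ d : α → U), (∀ R ∈ r.sets, Sum.elim x (Sum.elim y₀ y₁) ∈ R) →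
        Sum.elim x d ∈ Θ' → Sum.elim y₁ d ∈ Θ := by
  have := DO_step hκ hs P p hP r h3 hB hAB q hΘ Sum.inr (by
    intro d y₁ hd hy₁
    have hm : y₁ ∈ {x | Sum.elim x d ∈ Θ} := hy₁ _ (h d hd) (DF_fib hΘ d)
    have hm' : Sum.elim y₁ d ∈ Θ := hm
    have he : {x : γ → U | Sum.elim (Sum.elim x y₁ ∘ Sum.inr) d ∈ Θ} = Set.univ := by
      ext x
      simpa using hm'
    rw [he]
    exact IN_univ P)
  simpa using this
end DO

end Sat

end Pool.Agent.Lib_helper23.SD
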