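import Mathlib

/-!
# MP_bc6371_lc.StronglyDependent: definitions

`L` is an arbitrary first order language, `U` an `L`-structure. Sets of tuples are subsets of
`α → U` with `α` a finite type; `A.Definable L D` (Mathlib) says that `D` is definable with
parameters from `A`. Types are ultrafilters of definable sets.
-/

set_option autoImplicit false

namespace Pool.Agent.Lib_helper23.SD

open Cardinal

variable (L : FirstOrder.Language.{0, 0}) {U : Type} [L.Structure U]

/-- `U` is `κ`-saturated: every family of `A`-definable sets of finite tuples, `A` of size less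
than `κ`, with the finite intersection property has a common point -/
def Saturated (κ : Cardinal.{0}) (U : Type) [L.Structure U] : Prop :=
  ∀ A : Set U, #A < κ → ∀ (α : Type) [Finite α] (𝓕 : Set (Set (α → U))),
    (∀ D ∈ 𝓕, A.Definable L D) →
    (∀ 𝓖 : Set (Set (α → U)), 𝓖 ⊆ 𝓕 → 𝓖.Finite → (⋂₀ 𝓖).Nonempty) → (⋂₀ 𝓕).Nonempty

/-- complete types over `A` in the variables `α`, as ultrafilters of `A`-definable sets -/
structure Typ (A : Set U) (α : Type) where
  sets : Set (Set (α → U))
  dfn : ∀ D ∈ sets, A.Definable L D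
  inter : ∀ D ∈ sets, ∀ D' ∈ sets, D ∩ D' ∈ sets
  mono : ∀ D ∈ sets, ∀ D', A.Definable L D' → D ⊆ D' → D' ∈ sets
  nempty : ∅ ∉ sets
  ultra : ∀ D, A.Definable L D → D ∈ sets ∨ Dᶜ ∈ sets

/-- `b` realises the restriction of `p` to `A` -/
def Real {α : Type} (p : Set (Set (α → U))) (A : Set U) (b : α → U) : Prop :=
  ∀ D ∈ p, A.Definable L D → b ∈ D

/-- the two tuples have the same type over `A` -/
def SameTp (A : Set U) {β : Type} (b b' : β → U) : Prop :=
  ∀ D : Set (β → U), A.Definable L D → (b ∈ D ↔ b' ∈ D)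

/-- `A`-invariance of a set of definable sets: for every formula `R(x, y)` without parameters and
all `b`, `b'` with the same type over `A`, the set `R(x, b)` is in `p` iff `R(x, b')` is -/
def InvOver (A : Set U) {α : Type} (p : Set (Set (α → U))) : Prop :=
  ∀ (β : Type) [Finite β] (R : Set (α ⊕ β → U)), (∅ : Set U).Definable L R →
    ∀ b b' : β → U, SameTp L A b b' →
      ({x | Sum.elim x b ∈ R} ∈ p ↔ {x | Sum.elim x b' ∈ R} ∈ p)

/-- the product `p ⊗ q`, computed in the monster model: `D ∈ p ⊗ q` iff `D` is definable over some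
small `A` over which `p` is invariant, and for some realisation `b` of the restriction of `q` to
`A` the fibre `D(x, b)` is in `p` -/
def tensor (κ : Cardinal.{0}) {α β : Type} (p : Set (Set (α → U))) (q : Set (Set (β → U))) :
    Set (Set (α ⊕ β → U)) :=
  {D | ∃ A : Set U, #A < κ ∧ InvOver L A p ∧ A.Definable L D ∧
    ∃ b : β → U, Real L q A b ∧ {x | Sum.elim x b ∈ D} ∈ p}

/-- the variables of the power of a type in the variables `α` with `n + 1` factors -/
def PowVar (α : Type) : ℕ → Type
  | 0 => α
  | n + 1 => PowVar α n ⊕ α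

/-- `pow p n` is the power `p ⊗ ... ⊗ p` with `n + 1` factors -/
def pow (κ : Cardinal.{0}) {α : Type} (p : Set (Set (α → U))) :
    (n : ℕ) → Set (Set (PowVar α n → U))
  | 0 => p
  | n + 1 => tensor L κ (pow κ p n) p

/-- domination `p ≥ q`: a small `A` over which both are invariant and a type `r` over `A` in the
variables `x, y` extending the restrictions of `p(x)` and `q(y)` to `A`, with `p(x) ∪ r(x, y)`
implying `q(y)` -/
def Dominates (κ : Cardinal.{0}) {α β : Type} (p : Set (Set (α → U)))
    (q : Set (Set (β → U))) : Prop :=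
  ∃ A : Set U, #A < κ ∧ InvOver L A p ∧ InvOver L A q ∧ ∃ r : Typ L A (α ⊕ β),
    (∀ D ∈ p, A.Definable L D → {z | z ∘ Sum.inl ∈ D} ∈ r.sets) ∧
    (∀ D ∈ q, A.Definable L D → {z | z ∘ Sum.inr ∈ D} ∈ r.sets) ∧
    ∀ D ∈ q, ∃ E ∈ p, ∃ R ∈ r.sets, ∀ x y, x ∈ E → Sum.elim x y ∈ R → y ∈ D

/-- the formula `R(x, y)` has the independence property -/
def HasIP {α β : Type} (R : Set (α ⊕ β → U)) : Prop :=
  ∀ k : ℕ, ∃ x : Fin k → α → U, ∀ S : Set (Fin k), ∃ u : β → U, ∀ j,
    Sum.elim (x j) u ∈ R ↔ j ∈ S

/-- the theory of `U` is NIP: no formula has the independence property -/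
def NIP (U : Type) [L.Structure U] : Prop :=
  ∀ (α β : Type) [Finite α] [Finite β] (R : Set (α ⊕ β → U)), (∅ : Set U).Definable L R →
    ¬ HasIP R

/-- the tuple of the values of a sequence of tuples at finitely many indices -/
def tup {I α : Type} {k : ℕ} (s : I → α → U) (i : Fin k → I) : Fin k × α → U :=
  fun z => s (i z.1) z.2

/-- the sequence is indiscernible over `B` -/
def Indisc (B : Set U) {I α : Type} [LinearOrder I] (s : I → α → U) : Prop :=
  ∀ (k : ℕ) (i j : Fin k → I), StrictMono i → StrictMono j → SameTp L B (tup s i) (tup s j)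

/-- `c` is a point of the linear order `I` with elements below and above it, without greatest
element below it and without least element above it -/
def Cut {I : Type} [LinearOrder I] (c : I) : Prop :=
  (∃ i, i < c) ∧ (∃ i, c < i) ∧ (∀ i, i < c → ∃ j, i < j ∧ j < c) ∧ ∀ i, c < i → ∃ j, c < j ∧ j < i

/-- the sequences of elements of `P` are distal: whenever `I₁ + a + I₂` (indexed by `I`, with
`a` at the cut `c`) is indiscernible and `I₁ + I₂` is indiscernible over `B`, then `I₁ + a + I₂`
is indiscernible over `B` -/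
def DistalIn {α : Type} (P : Set (α → U)) : Prop :=
  ∀ (I : Type) [LinearOrder I] (c : I), Cut c → ∀ (s : I → α → U) (B : Set U), (∀ i, s i ∈ P) →
    Indisc L ∅ s → Indisc L B (fun i : {i : I // i ≠ c} => s i.1) → Indisc L B s

/-- the theory of `U` is distal -/
def Distal (U : Type) [L.Structure U] : Prop :=
  NIP L U ∧ ∀ (α : Type) [Finite α], DistalIn L (Set.univ : Set (α → U))

/-- there is an ict-pattern of infinite depth in `P`: formulas `R_k(x, w_k)`, `k = 0, 1, 2, ...`,
such that for all finite `N`, `M` there is an array `w_k^t` (`t < M`) such that for every function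
`η` some `x` in `P` satisfies: for all `k < N` and all `t`, `R_k(x, w_k^t)` holds iff
`t ≠ η(k)` -/
def IctIn {α : Type} (P : Set (α → U)) : Prop :=
  ∃ (β : ℕ → Type) (_ : ∀ k, Finite (β k)) (R : ∀ k, Set (α ⊕ β k → U)),
    (∀ k, (∅ : Set U).Definable L (R k)) ∧
    ∀ N M : ℕ, ∃ w : ∀ k : ℕ, Fin M → β k → U, ∀ η : ℕ → Fin M, ∃ x ∈ P, ∀ k < N, ∀ t,
      Sum.elim x (w k t) ∈ R k ↔ t ≠ η k

/-- the theory of `U` is strongly dependent: no ict-pattern of infinite depth -/
def StronglyDependent (U : Type) [L.Structure U] : Prop :=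
  ∀ (α : Type) [Finite α], ¬ IctIn L (Set.univ : Set (α → U))

end Pool.Agent.Lib_helper23.SD
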