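import Pool.Agent.Lib_helper23.SD.Base
import Pool.Agent.Lib_helper23.SD.SM
import Pool.Agent.Lib_helper23.SD.DF
import Pool.Agent.Lib_helper23.SD.IN
import Pool.Agent.Lib_helper23.SD.HO
import Pool.Agent.Lib_helper23.SD.SI
import Pool.Agent.Lib_helper23.SD.NI

/-!
# MP_bc6371_lc.StronglyDependent, block N1
-/

set_option autoImplicit false

namespace Pool.Agent.Lib_helper23.SD

open Cardinal

variable {L : FirstOrder.Language.{0, 0}} {U : Type} [L.Structure U]

/-- indiscernibility for tuples indexed by a finite linear order -/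
private theorem N1_lin {B : Set U} {I α : Type} [LinearOrder I] {s : I → α → U}
    (h : Indisc L B s) {T : Type} [LinearOrder T] [Finite T] {u v : T → I} (hu : StrictMono u)
    (hv : StrictMono v) :
    SameTp L B (fun z : T × α => s (u z.1) z.2) (fun z : T × α => s (v z.1) z.2) := by
  classical
  have := Fintype.ofFinite T
  let e : Fin (Fintype.card T) ≃o T := Fintype.orderIsoFinOfCardEq T rfl
  have h1 := h (Fintype.card T) (u ∘ e) (v ∘ e) (hu.comp e.strictMono) (hv.comp e.strictMono)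
  have h2 := IN_comp h1 (fun z : T × α => (e.symm z.1, z.2))
  have h3 : ∀ w : T → I, tup s (w ∘ e) ∘ (fun z : T × α => (e.symm z.1, z.2))
      = fun z : T × α => s (w z.1) z.2 := by
    intro w
    funext z
    simp [tup]
  rw [h3, h3] at h2
  exact h2

/-- indiscernibility for tuples of indices of the same order type -/
theorem N1_ord {B : Set U} {I α : Type} [LinearOrder I] {s : I → α → U}
    (h : Indisc L B s) {T : Type} [Finite T] {u v : T → I} (huv : ∀ a b, u a < u b ↔ v a < v b) :
    SameTp L B (fun z : T × α => s (u z.1) z.2) (fun z : T × α => s (v z.1) z.2) := by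
  classical
  have heq : ∀ a b, u a = u b → v a = v b := by
    intro a b hab
    rcases lt_trichotomy (v a) (v b) with h1 | h1 | h1
    · exact absurd ((huv a b).2 h1) (by rw [hab]; exact lt_irrefl _)
    · exact h1
    · exact absurd ((huv b a).2 h1) (by rw [hab]; exact lt_irrefl _)
  let g : Set.range u → T := fun x => x.2.choose
  have hg : ∀ x : Set.range u, u (g x) = x.1 := fun x => x.2.choose_spec
  have h1 := N1_lin h (T := Set.range u) (u := fun x => u (g x)) (v := fun x => v (g x))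
    (by intro x y hxy; simp only [hg]; exact hxy)
    (by intro x y hxy; refine (huv _ _).1 ?_; simp only [hg]; exact hxy)
  have h2 := IN_comp h1 (fun z : T × α => ((⟨u z.1, z.1, rfl⟩ : Set.range u), z.2))
  have h3 : (fun z : Set.range u × α => s (u (g z.1)) z.2) ∘
      (fun z : T × α => ((⟨u z.1, z.1, rfl⟩ : Set.range u), z.2))
      = fun z : T × α => s (u z.1) z.2 := by
    funext z
    simp [hg]
  have h4 : (fun z : Set.range u × α => s (v (g z.1)) z.2) ∘
      (fun z : T × α => ((⟨u z.1, z.1, rfl⟩ : Set.range u), z.2))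
      = fun z : T × α => s (v z.1) z.2 := by
    funext z
    simp only [Function.comp]
    rw [heq (g ⟨u z.1, z.1, rfl⟩) z.1 (hg _)]
  rw [h3, h4] at h2
  exact h2

/-- a strictly increasing tuple of every length below `c` -/
private theorem N1_chain {I : Type} [LinearOrder I] {c : I} (hc : Cut c) (k : ℕ) :
    ∃ i : Fin k → I, StrictMono i ∧ ∀ l, i l < c := by
  obtain ⟨⟨i₀, h₀⟩, -, hb, -⟩ := hc
  choose! nx hn1 hn2 using hb
  let f : ℕ → I := fun n => nx^[n] i₀
  have hf : ∀ n, f n < c := by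
    intro n
    induction n with
    | zero => exact h₀
    | succ n ih =>
      have : f (n + 1) = nx (f n) := Function.iterate_succ_apply' nx n i₀
      rw [this]
      exact hn2 _ ih
  have hmono : StrictMono f := by
    refine strictMono_nat_of_lt_succ fun n => ?_
    have : f (n + 1) = nx (f n) := Function.iterate_succ_apply' nx n i₀
    rw [this]
    exact hn1 _ (hf n)
  exact ⟨fun l => f l, fun a b hab => hmono hab, fun l => hf _⟩

/-- room below `c` above finitely many elements -/
private theorem N1_below {I : Type} [LinearOrder I] {c : I} (hc : Cut c) {k : ℕ} (i : Fin k → I) :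
    ∃ t, t < c ∧ ∀ l, i l < c → i l < t := by
  classical
  obtain ⟨⟨i₀, h₀⟩, -, hb, -⟩ := hc
  let S : Finset I := insert i₀ ((Finset.univ.image i).filter (· < c))
  have hne : S.Nonempty := ⟨i₀, Finset.mem_insert_self _ _⟩
  have hm : S.max' hne < c := by
    have := S.max'_mem hne
    rcases Finset.mem_insert.1 this with h | h
    · rw [h]; exact h₀
    · exact (Finset.mem_filter.1 h).2
  obtain ⟨t, ht, htc⟩ := hb _ hm
  refine ⟨t, htc, fun l hl => lt_of_le_of_lt (S.le_max' _ ?_) ht⟩
  exact Finset.mem_insert_of_mem (Finset.mem_filter.2 ⟨Finset.mem_image_of_mem _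
    (Finset.mem_univ _), hl⟩)

private theorem N1_above {I : Type} [LinearOrder I] {c : I} (hc : Cut c) {k : ℕ} (i : Fin k → I) :
    ∃ t, c < t ∧ ∀ l, c < i l → t < i l := by
  classical
  obtain ⟨-, ⟨i₀, h₀⟩, -, hb⟩ := hc
  let S : Finset I := insert i₀ ((Finset.univ.image i).filter (c < ·))
  have hne : S.Nonempty := ⟨i₀, Finset.mem_insert_self _ _⟩
  have hm : c < S.min' hne := by
    have := S.min'_mem hne
    rcases Finset.mem_insert.1 this with h | h
    · rw [h]; exact h₀
    · exact (Finset.mem_filter.1 h).2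
  obtain ⟨t, htc, ht⟩ := hb _ hm
  refine ⟨t, htc, fun l hl => lt_of_lt_of_le ht (S.min'_le _ ?_)⟩
  exact Finset.mem_insert_of_mem (Finset.mem_filter.2 ⟨Finset.mem_image_of_mem _
    (Finset.mem_univ _), hl⟩)

/-- the core: a definable set and an increasing tuple through `c` -/
private theorem N1_core {α : Type} [Finite α] {P : Set (α → U)} {I : Type} [LinearOrder I]
    {c : I} (hc : Cut c) {s : I → α → U} {B : Set U} (hP : ∀ i, s i ∈ P) (h0 : Indisc L ∅ s)
    (hB : Indisc L B (fun i : {i : I // i ≠ c} => s i.1)) {k : ℕ} {D : Set (Fin k × α → U)}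
    (hD : B.Definable L D) {i : Fin k → I} (hi : StrictMono i) {m : Fin k} (him : i m = c)
    (hiD : tup s i ∉ D)
    (hav : ∀ j : Fin k → I, StrictMono j → (∀ l, j l ≠ c) → tup s j ∈ D) :
    ∃ (F G : Set U) (φ : Set (α → U)) (I : Type) (_ : LinearOrder I) (c : I) (s : I → α → U),
      F.Finite ∧ G.Finite ∧ F ⊆ G ∧ G.Definable L φ ∧ Cut c ∧ (∀ i, s i ∈ P) ∧
      Indisc L F s ∧ Indisc L G (fun i : {i : I // i ≠ c} => s i.1) ∧
      (∀ i, i ≠ c → s i ∈ φ) ∧ s c ∉ φ := by
  classical
  obtain ⟨n, b, R, hb, hR, hDR⟩ := DF_par hD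
  -- the entries of the other members of the tuple
  let e : {l : Fin k // l ≠ m} × α → U := fun z => s (i z.1.1) z.2
  have hic : ∀ l, l ≠ m → i l ≠ c := fun l hl h => hl (hi.injective (h.trans him.symm))
  -- the interval
  let J : Set I := {t | (∀ l, l < m → i l < t) ∧ ∀ l, m < l → t < i l}
  have hcJ : c ∈ J := ⟨fun l hl => him ▸ hi hl, fun l hl => him ▸ hi hl⟩
  obtain ⟨t₁, ht₁, ht₁'⟩ := N1_below hc i
  obtain ⟨t₂, ht₂, ht₂'⟩ := N1_above hc i
  have hJ₁ : ∀ t, t₁ ≤ t → t < t₂ → t ∈ J := fun t h1 h2 =>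
    ⟨fun l hl => lt_of_lt_of_le (ht₁' l (him ▸ hi hl)) h1,
      fun l hl => h2.trans (ht₂' l (him ▸ hi hl))⟩
  have hJ₂ : ∀ t, t₁ < t → t ≤ t₂ → t ∈ J := fun t h1 h2 =>
    ⟨fun l hl => (ht₁' l (him ▸ hi hl)).trans h1,
      fun l hl => lt_of_le_of_lt h2 (ht₂' l (him ▸ hi hl))⟩
  have hconv : ∀ t t' t'' : I, t ∈ J → t'' ∈ J → t < t' → t' < t'' → t' ∈ J :=
    fun t t' t'' h1 h2 h3 h4 => ⟨fun l hl => (h1.1 l hl).trans h3, fun l hl => h4.trans (h2.2 l hl)⟩
  -- same type of the combined tuples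
  have hord : ∀ {k' : ℕ} (a b : Fin k' → J), StrictMono a → StrictMono b →
      ∀ x y : Fin k' ⊕ {l : Fin k // l ≠ m},
        Sum.elim (fun l => (a l).1) (fun l => i l.1) x < Sum.elim (fun l => (a l).1) (fun l => i l.1) y
        ↔ Sum.elim (fun l => (b l).1) (fun l => i l.1) x
            < Sum.elim (fun l => (b l).1) (fun l => i l.1) y := by
    intro k' a b ha hb x y
    rcases x with x | x <;> rcases y with y | y
    · exact (ha.lt_iff_lt (a := x) (b := y)).trans (hb.lt_iff_lt (a := x) (b := y)).symm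
    · rcases lt_or_gt_of_ne y.2 with hy | hy
      · exact ⟨fun h => absurd h (not_lt.2 ((a x).2.1 _ hy).le),
          fun h => absurd h (not_lt.2 ((b x).2.1 _ hy).le)⟩
      · exact ⟨fun _ => (b x).2.2 _ hy, fun _ => (a x).2.2 _ hy⟩
    · rcases lt_or_gt_of_ne x.2 with hx | hx
      · exact ⟨fun _ => (b y).2.1 _ hx, fun _ => (a y).2.1 _ hx⟩
      · exact ⟨fun h => absurd h (not_lt.2 ((a y).2.2 _ hx).le),
          fun h => absurd h (not_lt.2 ((b y).2.2 _ hx).le)⟩
    · exact Iff.rfl
  let F : Set U := Set.range e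
  let G : Set U := Set.range b ∪ F
  let φ : Set (α → U) :=
    {a | (fun z : Fin k × α => if z.1 = m then a z.2 else s (i z.1) z.2) ∈ D}
  have hFG : F ⊆ G := Set.subset_union_right
  have hDG : G.Definable L D := by
    have h1 := DF_fib hR b
    rw [← hDR] at h1
    exact h1.mono (by rw [Set.empty_union]; exact Set.subset_union_left)
  have hφ : G.Definable L φ := by
    have h1 := DF_pre (α := α) hDG (fun z : Fin k × α => if h : z.1 = m then Sum.inl z.2
      else Sum.inr (⟨s (i z.1) z.2, hFG ⟨(⟨z.1, h⟩, z.2), rfl⟩⟩ : G))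
    have h2 : φ = {x : α → U | (fun z : Fin k × α => Sum.elim x (fun a : G => (a : U))
        ((fun z : Fin k × α => if h : z.1 = m then Sum.inl z.2
      else Sum.inr (⟨s (i z.1) z.2, hFG ⟨(⟨z.1, h⟩, z.2), rfl⟩⟩ : G)) z)) ∈ D} := by
      ext x
      have h3 : (fun z : Fin k × α => if z.1 = m then x z.2 else s (i z.1) z.2)
          = (fun z : Fin k × α => Sum.elim x (fun a : G => (a : U))
        ((fun z : Fin k × α => if h : z.1 = m then Sum.inl z.2
      else Sum.inr (⟨s (i z.1) z.2, hFG ⟨(⟨z.1, h⟩, z.2), rfl⟩⟩ : G)) z)) := by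
        funext z
        by_cases hz : z.1 = m
        · simp [hz]
        · simp [hz]
      show (fun z : Fin k × α => if z.1 = m then x z.2 else s (i z.1) z.2) ∈ D ↔ _
      rw [h3]
      rfl
    rw [h2]
    exact h1
  refine ⟨F, G, φ, J, inferInstance, ⟨c, hcJ⟩, fun t => s t.1, Set.finite_range _,
    (Set.finite_range _).union (Set.finite_range _), hFG, hφ, ?_, fun t => hP _, ?_, ?_, ?_, ?_⟩
  · -- the cut
    refine ⟨⟨⟨t₁, hJ₁ t₁ le_rfl (ht₁.trans ht₂)⟩, ht₁⟩, ⟨⟨t₂, hJ₂ t₂ (ht₁.trans ht₂) le_rfl⟩, ht₂⟩,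
      fun t ht => ?_, fun t ht => ?_⟩
    · obtain ⟨u, hu, hu'⟩ := hc.2.2.1 t.1 ht
      exact ⟨⟨u, hconv _ _ _ t.2 hcJ hu hu'⟩, hu, hu'⟩
    · obtain ⟨u, hu, hu'⟩ := hc.2.2.2 t.1 ht
      exact ⟨⟨u, hconv _ _ _ hcJ t.2 hu hu'⟩, hu, hu'⟩
  · -- indiscernible over `F`
    intro k' a b ha hb
    have h1 := N1_ord h0 (hord a b ha hb)
    let g : (Fin k' × α) ⊕ ({l : Fin k // l ≠ m} × α) → (Fin k' ⊕ {l : Fin k // l ≠ m}) × α :=
      Sum.elim (fun z => (Sum.inl z.1, z.2)) (fun z => (Sum.inr z.1, z.2))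
    have h2 := IN_comp h1 g
    have h3 : ∀ a : Fin k' → J, (fun z : (Fin k' ⊕ {l : Fin k // l ≠ m}) × α =>
        s (Sum.elim (fun l => (a l).1) (fun l => i l.1) z.1) z.2) ∘ g
        = Sum.elim (tup (fun t : J => s t.1) a) e := by
      intro a
      funext z
      rcases z with z | z <;> rfl
    rw [h3, h3] at h2
    have h4 := IN_elim h2
    rwa [Set.empty_union] at h4
  · -- indiscernible over `G`
    intro k' a b' ha hb'
    have h1 := N1_ord (T := Fin k' ⊕ {l : Fin k // l ≠ m}) hB
      (u := Sum.elim (fun l => ⟨(a l).1.1, fun h => (a l).2 (Subtype.ext h)⟩)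
        (fun l => ⟨i l.1, hic _ l.2⟩))
      (v := Sum.elim (fun l => ⟨(b' l).1.1, fun h => (b' l).2 (Subtype.ext h)⟩)
        (fun l => ⟨i l.1, hic _ l.2⟩)) (by
        intro x y
        have := hord (fun l => (a l).1) (fun l => (b' l).1) ha hb' x y
        rcases x with x | x <;> rcases y with y | y <;> exact this)
    let g : (Fin k' × α) ⊕ ({l : Fin k // l ≠ m} × α) → (Fin k' ⊕ {l : Fin k // l ≠ m}) × α :=
      Sum.elim (fun z => (Sum.inl z.1, z.2)) (fun z => (Sum.inr z.1, z.2))
    have h2 := IN_comp h1 g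
    have h3 : ∀ a : Fin k' → {t : J // t ≠ ⟨c, hcJ⟩},
        (fun z : (Fin k' ⊕ {l : Fin k // l ≠ m}) × α =>
        s ((Sum.elim (fun l => (⟨(a l).1.1, fun h => (a l).2 (Subtype.ext h)⟩ : {i : I // i ≠ c}))
        (fun l => ⟨i l.1, hic _ l.2⟩) z.1 : {i : I // i ≠ c})).1 z.2) ∘ g
        = Sum.elim (tup (fun t : {t : J // t ≠ ⟨c, hcJ⟩} => s t.1.1) a) e := by
      intro a
      funext z
      rcases z with z | z <;> rfl
    rw [h3, h3] at h2
    have h4 := IN_elim h2
    intro D' hD'
    refine h4 D' (hD'.mono ?_)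
    rintro x (⟨l, rfl⟩ | hx)
    · exact Or.inl (hb l)
    · exact Or.inr hx
  · -- members of `φ`
    intro t ht
    have h1 : StrictMono (Function.update i m t.1) := by
      intro x y hxy
      by_cases hx : x = m
      · subst hx
        have hy : y ≠ x := hxy.ne'
        rw [Function.update_self, Function.update_of_ne hy]
        exact t.2.2 _ hxy
      · by_cases hy : y = m
        · subst hy
          rw [Function.update_self, Function.update_of_ne hx]
          exact t.2.1 _ hxy
        · rw [Function.update_of_ne hx, Function.update_of_ne hy]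
          exact hi hxy
    have h2 := hav _ h1 (by
      intro l
      by_cases hl : l = m
      · subst hl
        rw [Function.update_self]
        exact fun h => ht (Subtype.ext h)
      · rw [Function.update_of_ne hl]
        exact hic l hl)
    have h3 : tup s (Function.update i m t.1)
        = (fun z : Fin k × α => if z.1 = m then s t.1 z.2 else s (i z.1) z.2) := by
      funext z
      by_cases hz : z.1 = m
      · simp [tup, hz]
      · simp [tup, hz]
    rw [h3] at h2
    exact h2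
  · intro h
    apply hiD
    have h3 : tup s i
        = (fun z : Fin k × α => if z.1 = m then s c z.2 else s (i z.1) z.2) := by
      funext z
      by_cases hz : z.1 = m
      · simp [tup, hz, him]
      · simp [tup, hz]
    rw [h3]
    exact h

/-- ND1: reduction to one formula and finitely many parameters -/
theorem ND_one {α : Type} [Finite α] {P : Set (α → U)} (h : ¬ DistalIn L P) :
    ∃ (F G : Set U) (φ : Set (α → U)) (I : Type) (_ : LinearOrder I) (c : I) (s : I → α → U),
      F.Finite ∧ G.Finite ∧ F ⊆ G ∧ G.Definable L φ ∧ Cut c ∧ (∀ i, s i ∈ P) ∧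
      Indisc L F s ∧ Indisc L G (fun i : {i : I // i ≠ c} => s i.1) ∧
      (∀ i, i ≠ c → s i ∈ φ) ∧ s c ∉ φ := by
  classical
  unfold DistalIn at h
  push Not at h
  obtain ⟨I, hI, c, hc, s, B, hP, h0, hB, hn⟩ := h
  unfold Indisc at hn
  push Not at hn
  obtain ⟨k, i, j, hi, hj, hn⟩ := hn
  unfold SameTp at hn
  push Not at hn
  obtain ⟨D, hD, hn⟩ := hn
  obtain ⟨i₀, hi₀, hi₀c⟩ := N1_chain hc k
  -- the tuples avoiding `c` agree
  have hagree : ∀ D : Set (Fin k × α → U), B.Definable L D → ∀ j : Fin k → I, StrictMono j →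
      (∀ l, j l ≠ c) → (tup s j ∈ D ↔ tup s i₀ ∈ D) := by
    intro D hD j hj hjc
    exact hB k (fun l => ⟨j l, hjc l⟩) (fun l => ⟨i₀ l, (hi₀c l).ne⟩) hj hi₀ D hD
  -- one of the tuples through `c` disagrees
  have hex : ∃ i : Fin k → I, StrictMono i ∧ ¬ (tup s i ∈ D ↔ tup s i₀ ∈ D) := by
    by_contra hcon
    push Not at hcon
    have h1 := hcon i hi
    have h2 := hcon j hj
    tauto
  obtain ⟨i, hi, hiD⟩ := hex
  have him : ∃ m, i m = c := by
    by_contra hcon
    push Not at hcon
    exact hiD (hagree D hD i hi hcon)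
  obtain ⟨m, him⟩ := him
  by_cases h₀ : tup s i₀ ∈ D
  · exact N1_core hc hP h0 hB hD hi him (fun h => hiD ⟨fun _ => h₀, fun _ => h⟩)
      (fun j hj hjc => (hagree D hD j hj hjc).2 h₀)
  · refine N1_core hc hP h0 hB hD.compl hi him ?_ (fun j hj hjc => ?_)
    · intro h
      exact hiD ⟨fun h' => absurd h' h, fun h' => absurd h' h₀⟩
    · exact fun h' => h₀ ((hagree D hD j hj hjc).1 h')

end Pool.Agent.Lib_helper23.SD
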