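import Pool.Agent.Lib_helper23.SD.Base
import Pool.Agent.Lib_helper23.SD.SM
import Pool.Agent.Lib_helper23.SD.DF
import Pool.Agent.Lib_helper23.SD.IN
import Pool.Agent.Lib_helper23.SD.HO
import Pool.Agent.Lib_helper23.SD.SI
import Pool.Agent.Lib_helper23.SD.NI

/-!
# MP_bc6371_lc.StronglyDependent, block N3 (minimal bad set of cuts)
-/

set_option autoImplicit false

namespace Pool.Agent.Lib_helper23.SD

open Cardinal

variable {L : FirstOrder.Language.{0, 0}} {U : Type} [L.Structure U]

/-- indiscernibility for arbitrary families of positions of the same order pattern -/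
private theorem N3_pat {B : Set U} {I α ι : Type} [Finite ι] [LinearOrder I] {s : I → α → U}
    (h : Indisc L B s) (π π' : ι → I) (hp : ∀ a b, π a < π b ↔ π' a < π' b) :
    SameTp L B (fun z : ι × α => s (π z.1) z.2) (fun z : ι × α => s (π' z.1) z.2) := by
  classical
  have : Fintype ι := Fintype.ofFinite ι
  have hmem : ∀ a, π a ∈ Finset.univ.image π := fun a => Finset.mem_image_of_mem _ (Finset.mem_univ a)
  let e := (Finset.univ.image π).orderIsoOfFin rfl
  have hex : ∀ n, ∃ a, π a = (e n : I) := by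
    intro n
    obtain ⟨a, -, ha⟩ := Finset.mem_image.1 (e n).2
    exact ⟨a, ha⟩
  choose c hc using hex
  let g : ι → Fin (Finset.univ.image π).card := fun a => e.symm ⟨π a, hmem a⟩
  have hg : ∀ a, (e (g a) : I) = π a := by
    intro a
    simp [g]
  have hg' : ∀ a, π' (c (g a)) = π' a := by
    intro a
    have h1 : π (c (g a)) = π a := by rw [hc, hg]
    have h2 := hp (c (g a)) a
    have h3 := hp a (c (g a))
    rw [h1] at h2 h3
    exact le_antisymm (not_lt.1 fun h => lt_irrefl _ (h3.2 h)) (not_lt.1 fun h => lt_irrefl _ (h2.2 h))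
  have hmono : StrictMono (fun n => (e n : I)) := fun a b hab => by
    have := e.lt_iff_lt.2 hab
    exact this
  have hmono' : StrictMono (fun n => π' (c n)) := by
    intro a b hab
    have := hmono hab
    simp only at this
    rw [← hc a, ← hc b] at this
    exact (hp _ _).1 this
  have h4 := IN_comp (h _ _ _ hmono hmono') (fun z : ι × α => ((g z.1, z.2) : _ × α))
  have h5 : (tup s (fun n => (e n : I)) ∘ fun z : ι × α => ((g z.1, z.2) : _ × α))
      = fun z : ι × α => s (π z.1) z.2 := by
    funext z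
    simp [tup, hg]
  have h6 : (tup s (fun n => π' (c n)) ∘ fun z : ι × α => ((g z.1, z.2) : _ × α))
      = fun z : ι × α => s (π' z.1) z.2 := by
    funext z
    simp [tup, hg']
  rwa [h5, h6] at h4

/-- two indiscernible sequences which agree far to the right have the same types -/
private theorem N3_two {B : Set U} {α ι : Type} [Finite ι] {s J : ℚ → α → U}
    (hs : Indisc L B s) (hJ : Indisc L B J) (hsJ : ∃ c : ℚ, ∀ q, c < q → s q = J q)
    (π π' : ι → ℚ) (hp : ∀ a b, π a < π b ↔ π' a < π' b) :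
    SameTp L B (fun z : ι × α => s (π z.1) z.2) (fun z : ι × α => J (π' z.1) z.2) := by
  classical
  have : Fintype ι := Fintype.ofFinite ι
  obtain ⟨c, hc⟩ := hsJ
  obtain ⟨m, hm⟩ : ∃ m : ℚ, ∀ a, m < π a := by
    obtain ⟨m, hm⟩ := (Set.finite_range π).bddBelow
    exact ⟨m - 1, fun a => by have := hm (Set.mem_range_self a); linarith⟩
  have h1 := N3_pat hs π (fun a => π a + (c - m)) (fun a b => by simp)
  have h2 := N3_pat hJ (fun a => π a + (c - m)) π' (fun a b => by rw [← hp]; simp)
  have h3 : (fun z : ι × α => s (π z.1 + (c - m)) z.2) = fun z : ι × α => J (π z.1 + (c - m)) z.2 := by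
    funext z
    rw [hc _ (by have := hm z.1; linarith)]
  intro D hD
  rw [h1 D hD, h3, h2 D hD]

/-- the positions near `v l` -/
private noncomputable def N3_pos {n : ℕ} (v : Fin n → ℚ) (δ : ℚ) (l : Fin n) (q : ℚ) : ℚ :=
  v l + δ * (q / (1 + |q|))

private theorem N3_f_mono {q q' : ℚ} (h : q < q') : q / (1 + |q|) < q' / (1 + |q'|) := by
  rw [div_lt_div_iff₀ (by positivity) (by positivity)]
  rcases abs_cases q with ⟨h1, h2⟩ | ⟨h1, h2⟩ <;> rcases abs_cases q' with ⟨h3, h4⟩ | ⟨h3, h4⟩ <;>
    rw [h1, h3] <;> nlinarith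

private theorem N3_f_abs (q : ℚ) : -1 < q / (1 + |q|) ∧ q / (1 + |q|) < 1 := by
  constructor
  · rw [lt_div_iff₀ (by positivity)]
    have := neg_abs_le q
    linarith
  · rw [div_lt_iff₀ (by positivity)]
    have := le_abs_self q
    linarith

private theorem N3_pos_lt {n : ℕ} {v : Fin n → ℚ} {δ : ℚ} (hδ : 0 < δ)
    (hδv : ∀ l l', l < l' → v l + 2 * δ ≤ v l') (l l' : Fin n) (q q' : ℚ) :
    N3_pos v δ l q < N3_pos v δ l' q' ↔ l < l' ∨ (l = l' ∧ q < q') := by
  have key : ∀ (l l' : Fin n) (q q' : ℚ), (l < l' ∨ (l = l' ∧ q < q')) →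
      N3_pos v δ l q < N3_pos v δ l' q' := by
    intro l l' q q' h
    unfold N3_pos
    rcases h with h | ⟨h, h'⟩
    · have h1 := hδv _ _ h
      have h2 := mul_lt_mul_of_pos_left (N3_f_abs q).2 hδ
      have h3 := mul_lt_mul_of_pos_left (N3_f_abs q').1 hδ
      linarith
    · subst h
      have := mul_lt_mul_of_pos_left (N3_f_mono h') hδ
      linarith
  constructor
  · intro h
    by_contra hcon
    push Not at hcon
    obtain ⟨h1, h2⟩ := hcon
    rcases lt_or_eq_of_le h1 with h3 | h3
    · exact absurd (key _ _ q' q (Or.inl h3)) (not_lt.2 h.le)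
    · have h4 := h2 h3.symm
      rcases lt_or_eq_of_le h4 with h5 | h5
      · exact absurd (key _ _ q' q (Or.inr ⟨h3, h5⟩)) (not_lt.2 h.le)
      · rw [h3, h5] at h
        exact lt_irrefl _ h
  · exact key _ _ _ _

private theorem N3_pos_zero {n : ℕ} (v : Fin n → ℚ) (δ : ℚ) (l : Fin n) : N3_pos v δ l 0 = v l := by
  simp [N3_pos]

private theorem N3_delta {n : ℕ} {v : Fin n → ℚ} (hv : StrictMono v) :
    ∃ δ : ℚ, 0 < δ ∧ ∀ l l', l < l' → v l + 2 * δ ≤ v l' := by
  classical
  by_cases hne : (Finset.univ.filter fun z : Fin n × Fin n => z.1 < z.2).Nonempty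
  · obtain ⟨z, hz, hmin⟩ := Finset.exists_min_image _ (fun z : Fin n × Fin n => v z.2 - v z.1) hne
    refine ⟨(v z.2 - v z.1) / 2, ?_, ?_⟩
    · have := hv (Finset.mem_filter.1 hz).2
      linarith
    · intro l l' hl
      have := hmin (l, l') (by simp [hl])
      simp only at this
      linarith
  · refine ⟨1, one_pos, fun l l' hl => absurd ?_ hne⟩
    exact ⟨(l, l'), by simp [hl]⟩

/-- the sequence `J` with `J q` replaced by `a q` for `q` in `R` -/
private noncomputable def N3_J {α : Type} (J a : ℚ → α → U) (R : Finset ℚ) (q : ℚ) : α → U :=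
  if q ∈ R then a q else J q

private theorem N3_J_far {α : Type} (J a : ℚ → α → U) (R : Finset ℚ) :
    ∃ c : ℚ, ∀ q, c < q → N3_J J a R q = J q := by
  obtain ⟨c, hc⟩ := R.bddAbove
  refine ⟨c, fun q hq => ?_⟩
  rw [N3_J, if_neg]
  intro h
  exact absurd (hc h) (not_le.2 hq)

/-- the core: a bad set all of whose proper subsets are good -/
private theorem N3_core {α : Type} [Finite α] {P : Set (α → U)} (hP : (∅ : Set U).Definable L P)
    {F : Set U} (hF : F.Finite) {J a : ℚ → α → U} (hJP : ∀ q, J q ∈ P) (hJ : Indisc L F J)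
    (R : Finset ℚ) (hbad : ¬ Indisc L F (N3_J J a R))
    (hgood : ∀ R' ⊂ R, Indisc L F (N3_J J a R')) (hR : ∀ r ∈ R, ∃ r' ∈ R, r' ≠ r) :
    ∃ (E : Set U) (s t : ℚ → α → U) (ψ : Set (α ⊕ α → U)), E.Finite ∧ MI L E s t ψ ∧
      (∀ q, s q ∈ P) ∧ ∀ q, t q ∈ P := by
  classical
  -- members of good sequences are in `P`
  have hmemP : ∀ R' ⊂ R, ∀ q, N3_J J a R' q ∈ P := by
    intro R' hR' q
    have h1 := N3_two (ι := Unit) (hgood R' hR') hJ (N3_J_far J a R') (fun _ => q) (fun _ => q)
      (fun _ _ => Iff.rfl)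
    have h2 := IN_comp h1 (fun x : α => (((), x) : Unit × α))
    have h3 := (h2 P (hP.mono (Set.empty_subset F))).2 (hJP q)
    exact h3
  -- the witness of badness
  obtain ⟨n, i, D, hi, hDF, hiD, hJD⟩ : ∃ (n : ℕ) (i : Fin n → ℚ) (D : Set (Fin n × α → U)),
      StrictMono i ∧ F.Definable L D ∧ tup (N3_J J a R) i ∉ D ∧ tup J i ∈ D := by
    by_contra hcon
    push Not at hcon
    apply hbad
    have key : ∀ (k : ℕ) (i : Fin k → ℚ), StrictMono i →
        SameTp L F (tup (N3_J J a R) i) (tup J i) := by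
      intro k i hi D hD
      constructor
      · intro h
        by_contra h'
        exact hcon k i Dᶜ hi hD.compl (fun h2 => h2 h) h'
      · intro h
        by_contra h'
        exact hcon k i D hi hD h' h
    intro k i j hi hj D hD
    rw [key k i hi D hD, key k j hj D hD]
    exact hJ k i j hi hj D hD
  -- all positions of `R` are used
  have hhit : ∀ r ∈ R, ∃ m, i m = r := by
    intro r hr
    by_contra hcon
    push Not at hcon
    have h1 : R.erase r ⊂ R := Finset.erase_ssubset hr
    have h2 := N3_two (ι := Fin n) (hgood _ h1) hJ (N3_J_far J a _) i i (fun _ _ => Iff.rfl)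
    apply hiD
    have h3 : tup (N3_J J a R) i = fun z : Fin n × α => N3_J J a (R.erase r) (i z.1) z.2 := by
      funext z
      simp only [tup, N3_J, Finset.mem_erase]
      have : i z.1 ≠ r := hcon z.1
      simp [this]
    rw [h3]
    exact (h2 D hDF).2 hJD
  have hRne : R.Nonempty := by
    by_contra hcon
    rw [Finset.not_nonempty_iff_eq_empty] at hcon
    apply hiD
    have : tup (N3_J J a R) i = tup J i := by
      funext z
      simp [tup, N3_J, hcon]
    rwa [this]
  obtain ⟨r, hr⟩ := hRne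
  obtain ⟨r', hr', hne⟩ := hR r hr
  obtain ⟨m, hm⟩ := hhit r hr
  obtain ⟨m', hm'⟩ := hhit r' hr'
  have hmm : m ≠ m' := by
    intro h
    apply hne
    rw [← hm, ← hm', h]
  obtain ⟨δ, hδ, hδv⟩ := N3_delta hi
  have hpos := fun l l' q q' => N3_pos_lt hδ hδv l l' q q'
  have hinj : ∀ l l' q q', N3_pos i δ l q = N3_pos i δ l' q' → l = l' ∧ q = q' := by
    intro l l' q q' h
    have h1 := hpos l l' q q'
    have h2 := hpos l' l q' q
    rw [h] at h1 h2
    simp only [lt_irrefl, false_iff, not_or, not_and, not_lt] at h1 h2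
    have h3 : l = l' := le_antisymm h2.1 h1.1
    exact ⟨h3, le_antisymm (h2.2 h3.symm) (h1.2 h3)⟩
  -- the sets
  let Rm : Finset ℚ := R.erase r'
  let Rm' : Finset ℚ := R.erase r
  have hRm : Rm ⊂ R := Finset.erase_ssubset hr'
  have hRm' : Rm' ⊂ R := Finset.erase_ssubset hr
  let s : ℚ → α → U := fun q => N3_J J a Rm (N3_pos i δ m q)
  let t : ℚ → α → U := fun q => N3_J J a Rm' (N3_pos i δ m' q)
  let Λ := {l : Fin n // l ≠ m ∧ l ≠ m'}
  let e : Λ × α → U := fun z => N3_J J a R (i z.1.1) z.2
  let E : Set U := F ∪ Set.range e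
  let f : Fin n × α → (α ⊕ α) ⊕ E := fun z =>
    if h : z.1 = m then Sum.inl (Sum.inl z.2) else
    if h' : z.1 = m' then Sum.inl (Sum.inr z.2) else
      Sum.inr ⟨e (⟨z.1, h, h'⟩, z.2), Or.inr (Set.mem_range_self _)⟩
  let ψ : Set (α ⊕ α → U) := {x | (fun z => Sum.elim x (fun u : E => (u : U)) (f z)) ∈ D}
  have hψ : E.Definable L ψ := DF_pre (hDF.mono Set.subset_union_left) f
  -- values away from the two points
  have hval : ∀ (p : ℚ), p ≠ r' → N3_J J a Rm p = N3_J J a R p := by
    intro p hp
    simp [N3_J, Rm, Finset.mem_erase, hp]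
  have hval' : ∀ (p : ℚ), p ≠ r → N3_J J a Rm' p = N3_J J a R p := by
    intro p hp
    simp [N3_J, Rm', Finset.mem_erase, hp]
  have hposm : ∀ l q, (N3_pos i δ l q = r ↔ l = m ∧ q = 0) := by
    intro l q
    constructor
    · intro h
      rw [← hm, ← N3_pos_zero i δ m] at h
      exact hinj _ _ _ _ h
    · rintro ⟨rfl, rfl⟩
      rw [N3_pos_zero, hm]
  have hposm' : ∀ l q, (N3_pos i δ l q = r' ↔ l = m' ∧ q = 0) := by
    intro l q
    constructor
    · intro h
      rw [← hm', ← N3_pos_zero i δ m'] at h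
      exact hinj _ _ _ _ h
    · rintro ⟨rfl, rfl⟩
      rw [N3_pos_zero, hm']
  -- joint tuples
  have hjoint : ∀ (k l : ℕ) (p : Fin k → ℚ) (p' : Fin l → ℚ),
      ¬ ((∃ x, p x = 0) ∧ ∃ y, p' y = 0) →
      ∃ R' ⊂ R, (Sum.elim (Sum.elim (tup s p) (tup t p')) e) =
        (fun z : (((Fin k ⊕ Fin l) ⊕ Λ) × α) => N3_J J a R'
          (N3_pos i δ (Sum.elim (Sum.elim (fun _ => m) fun _ => m') Subtype.val z.1)
            (Sum.elim (Sum.elim p p') (fun _ => 0) z.1)) z.2) ∘
        (Sum.elim (Sum.elim (fun z : Fin k × α => ((Sum.inl (Sum.inl z.1), z.2) :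
          ((Fin k ⊕ Fin l) ⊕ Λ) × α)) (fun z : Fin l × α => (Sum.inl (Sum.inr z.1), z.2)))
          (fun z : Λ × α => (Sum.inr z.1, z.2))) := by
    intro k l p p' hpp
    by_cases h0 : ∃ x, p x = 0
    · have h1 : ∀ y, p' y ≠ 0 := fun y hy => hpp ⟨h0, y, hy⟩
      refine ⟨Rm, hRm, ?_⟩
      funext z
      rcases z with (z | z) | z
      · rfl
      · simp only [tup, t, Sum.elim_inl, Sum.elim_inr, Function.comp_apply]
        rw [hval, hval']
        · intro h
          exact hmm ((hposm _ _).1 h).1.symm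
        · intro h
          exact h1 _ ((hposm' _ _).1 h).2
      · simp only [e, Sum.elim_inr, Function.comp_apply]
        rw [hval, N3_pos_zero]
        intro h
        exact z.1.2.2 ((hposm' _ _).1 h).1
    · have h1 : ∀ y, p y ≠ 0 := fun y hy => h0 ⟨y, hy⟩
      refine ⟨Rm', hRm', ?_⟩
      funext z
      rcases z with (z | z) | z
      · simp only [tup, s, Sum.elim_inl, Function.comp_apply]
        rw [hval, hval']
        · intro h
          exact h1 _ ((hposm _ _).1 h).2
        · intro h
          exact hmm ((hposm' _ _).1 h).1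
      · rfl
      · simp only [e, Sum.elim_inr, Function.comp_apply]
        rw [hval', N3_pos_zero]
        intro h
        exact z.1.2.1 ((hposm _ _).1 h).1
  have hpat : ∀ (k l : ℕ) (p q : Fin k → ℚ) (p' q' : Fin l → ℚ), StrictMono p → StrictMono q →
      StrictMono p' → StrictMono q' → ∀ x y : (Fin k ⊕ Fin l) ⊕ Λ,
      (N3_pos i δ (Sum.elim (Sum.elim (fun _ => m) fun _ => m') Subtype.val x)
            (Sum.elim (Sum.elim p p') (fun _ => 0) x) <
        N3_pos i δ (Sum.elim (Sum.elim (fun _ => m) fun _ => m') Subtype.val y)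
            (Sum.elim (Sum.elim p p') (fun _ => 0) y)) ↔
      (N3_pos i δ (Sum.elim (Sum.elim (fun _ => m) fun _ => m') Subtype.val x)
            (Sum.elim (Sum.elim q q') (fun _ => 0) x) <
        N3_pos i δ (Sum.elim (Sum.elim (fun _ => m) fun _ => m') Subtype.val y)
            (Sum.elim (Sum.elim q q') (fun _ => 0) y)) := by
    intro k l p q p' q' hp hq hp' hq' x y
    rw [hpos, hpos]
    have hL1 : ∀ x : Λ, (x.1 : Fin n) ≠ m := fun x => x.2.1
    have hL2 : ∀ x : Λ, (x.1 : Fin n) ≠ m' := fun x => x.2.2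
    have hL3 : ∀ x : Λ, m ≠ (x.1 : Fin n) := fun x => x.2.1.symm
    have hL4 : ∀ x : Λ, m' ≠ (x.1 : Fin n) := fun x => x.2.2.symm
    rcases x with (x | x) | x <;> rcases y with (y | y) | y <;>
      simp only [Sum.elim_inl, Sum.elim_inr, lt_irrefl, and_false, hp.lt_iff_lt, hq.lt_iff_lt,
        hp'.lt_iff_lt, hq'.lt_iff_lt, hmm, hmm.symm, false_and, true_and, hL1, hL2, hL3, hL4]
  have hfun : ∀ u v z, Sum.elim (Sum.elim (s u) (t v)) (fun w : E => (w : U)) (f z) =
      if z.1 = m then s u z.2 else if z.1 = m' then t v z.2 else N3_J J a R (i z.1) z.2 := by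
    intro u v z
    by_cases h1 : z.1 = m
    · simp [f, h1]
    · by_cases h2 : z.1 = m'
      · simp [f, h2, hmm.symm]
      · simp [f, h1, h2, e]
  refine ⟨E, s, t, ψ, hF.union (Set.finite_range _), ⟨?_, hψ, ?_, ?_⟩,
    fun q => hmemP _ hRm _, fun q => hmemP _ hRm' _⟩
  · intro k l p q p' q' hp hq hp' hq' h0 h0'
    obtain ⟨R1, hR1, h1⟩ := hjoint k l p p' h0
    obtain ⟨R2, hR2, h2⟩ := hjoint k l q q' h0'
    apply IN_elim
    rw [h1, h2]
    apply IN_comp
    intro D' hD'
    have h3 := N3_two (hgood R2 hR2) hJ (N3_J_far J a R2) _ _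
      (hpat k l q p q' p' hq hp hq' hp') D' hD'
    have h4 := N3_two (hgood R1 hR1) hJ (N3_J_far J a R1) _ _
      (hpat k l p p p' p' hp hp hp' hp') D' hD'
    exact h4.trans h3.symm
  · intro u v huv
    let w : Fin n → ℚ := fun l => if l = m then u else if l = m' then v else 0
    have hw : ∀ x y : Fin n, N3_pos i δ x (w x) < N3_pos i δ y (w y) ↔ i x < i y := by
      intro x y
      rw [hpos, hi.lt_iff_lt]
      constructor
      · rintro (h | ⟨h, h'⟩)
        · exact h
        · rw [h] at h'
          exact absurd h' (lt_irrefl _)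
      · exact Or.inl
    have key : ∃ R' ⊂ R, (fun z => Sum.elim (Sum.elim (s u) (t v)) (fun w : E => (w : U)) (f z)) =
        fun z : Fin n × α => N3_J J a R' (N3_pos i δ z.1 (w z.1)) z.2 := by
      by_cases hu : u = 0
      · have hv : v ≠ 0 := fun hv => huv ⟨hu, hv⟩
        refine ⟨Rm, hRm, ?_⟩
        funext z
        rw [hfun]
        by_cases h1 : z.1 = m
        · simp only [h1, if_true, w, s]
        · by_cases h2 : z.1 = m'
          · simp only [h2, hmm.symm, if_true, if_false, w, t]
            rw [hval, hval']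
            · intro h
              exact hmm ((hposm _ _).1 h).1.symm
            · intro h
              exact hv ((hposm' _ _).1 h).2
          · simp only [h1, h2, if_false, w]
            rw [hval, N3_pos_zero]
            intro h
            exact h2 ((hposm' _ _).1 h).1
      · refine ⟨Rm', hRm', ?_⟩
        funext z
        rw [hfun]
        by_cases h1 : z.1 = m
        · simp only [h1, if_true, w, s]
          rw [hval, hval']
          · intro h
            exact hu ((hposm _ _).1 h).2
          · intro h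
            exact hmm ((hposm' _ _).1 h).1
        · by_cases h2 : z.1 = m'
          · simp only [h2, hmm.symm, if_true, if_false, w, t]
          · simp only [h1, h2, if_false, w]
            rw [hval', N3_pos_zero]
            intro h
            exact h1 ((hposm _ _).1 h).1
    obtain ⟨R', hR', h1⟩ := key
    change (fun z => Sum.elim (Sum.elim (s u) (t v)) (fun w : E => (w : U)) (f z)) ∈ D
    rw [h1]
    exact (N3_two (hgood R' hR') hJ (N3_J_far J a R') _ _ hw D hDF).2 hJD
  · intro hmem
    change (fun z => Sum.elim (Sum.elim (s 0) (t 0)) (fun w : E => (w : U)) (f z)) ∈ D at hmem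
    apply hiD
    have h1 : (fun z => Sum.elim (Sum.elim (s 0) (t 0)) (fun w : E => (w : U)) (f z)) =
        tup (N3_J J a R) i := by
      funext z
      rw [hfun]
      by_cases h1 : z.1 = m
      · simp only [h1, if_true, tup, s]
        rw [hval, N3_pos_zero]
        intro h
        exact hmm ((hposm' _ _).1 h).1
      · by_cases h2 : z.1 = m'
        · simp only [h2, hmm.symm, if_true, if_false, tup, t]
          rw [hval', N3_pos_zero]
          intro h
          exact hmm ((hposm _ _).1 h).1.symm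
        · simp only [h1, h2, if_false, tup]
    rwa [h1] at hmem

section NIPblocks
variable {κ : Cardinal.{0}} (hκ : ℵ₀ < κ) (hs : Saturated L κ U) (hN : NIP L U)
include hκ hs hN

theorem ND_mi {α : Type} [Finite α] {P : Set (α → U)} (hP : (∅ : Set U).Definable L P)
    {F G : Set U} (hF : F.Finite) (hG : G.Finite) (hFG : F ⊆ G) {φ : Set (α → U)}
    (hφ : G.Definable L φ) {J : ℚ → α → U} (hJP : ∀ q, J q ∈ P) (hJ : Indisc L G J)
    (hJφ : ∀ q, J q ∈ φ)
    (ha : ∀ q : ℚ, ∃ a : α → U, Indisc L F (Function.update J q a) ∧ a ∉ φ) :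
    ∃ (E : Set U) (s t : ℚ → α → U) (ψ : Set (α ⊕ α → U)), E.Finite ∧ MI L E s t ψ ∧
      (∀ q, s q ∈ P) ∧ ∀ q, t q ∈ P := by
  classical
  choose a ha1 ha2 using ha
  have hJF : Indisc L F J := fun k i j hi hj D hD => hJ k i j hi hj D (hD.mono hFG)
  -- some finite set is bad
  have hbad : ∃ R : Finset ℚ, ¬ Indisc L F (N3_J J a R) := by
    by_contra hcon
    push Not at hcon
    obtain ⟨k, hk⟩ := NI_alt hκ hs hN (hφ.mono (Set.subset_univ G))
    let R : Finset ℚ := (Finset.range k).image (fun j : ℕ => (j : ℚ) + 1)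
    let x : ℕ → α → U := fun n => N3_J J a R (((n : ℚ) + 1) / 2)
    have hpm : StrictMono (fun n : ℕ => ((n : ℚ) + 1) / 2) := by
      intro b c hbc
      have : (b : ℚ) < c := by exact_mod_cast hbc
      simp only
      linarith
    apply hk x
    · intro i j hi hj _ _ D hD
      exact hcon R k (fun l => ((i l : ℚ) + 1) / 2) (fun l => ((j l : ℚ) + 1) / 2)
        (fun b c hbc => hpm (hi hbc)) (fun b c hbc => hpm (hj hbc)) D (hD.mono (Set.empty_subset F))
    · intro n hn
      rcases Nat.even_or_odd n with hev | hodd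
      · have hnR : ((n : ℚ) + 1) / 2 ∉ R := by
          intro h
          obtain ⟨j, -, hj⟩ := Finset.mem_image.1 h
          obtain ⟨b, hb⟩ := hev
          have h1 : ((2 * j + 2 : ℕ) : ℚ) = ((n + 1 : ℕ) : ℚ) := by
            push_cast
            linarith
          have h2 : 2 * j + 2 = n + 1 := by exact_mod_cast h1
          omega
        simp only [x, N3_J, hnR, if_false, hev, iff_true]
        exact hJφ _
      · have hnR : ((n : ℚ) + 1) / 2 ∈ R := by
          obtain ⟨b, hb⟩ := hodd
          refine Finset.mem_image.2 ⟨b, Finset.mem_range.2 (by omega), ?_⟩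
          rw [hb]
          push_cast
          ring
        simp only [x, N3_J, hnR, if_true]
        constructor
        · intro h
          exact absurd h (ha2 _)
        · intro h
          exact absurd h (Nat.not_even_iff_odd.2 hodd)
  -- a minimal one
  obtain ⟨R, hRbad, hRmin⟩ := WellFounded.has_min (wellFounded_lt (α := Finset ℚ))
    {R | ¬ Indisc L F (N3_J J a R)} hbad
  have hgood : ∀ R' ⊂ R, Indisc L F (N3_J J a R') := by
    intro R' hR'
    by_contra hcon
    exact hRmin R' hcon hR'
  refine N3_core hP hF hJP hJF R hRbad hgood ?_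
  intro r hr
  by_contra hcon
  push Not at hcon
  apply hRbad
  have h1 : N3_J J a R = Function.update J r (a r) := by
    funext q
    by_cases hq : q = r
    · subst hq
      simp [N3_J, hr]
    · have : q ∉ R := fun h => hq (hcon q h)
      simp [N3_J, this, hq]
  rw [h1]
  exact ha1 r

end NIPblocks

end Pool.Agent.Lib_helper23.SD
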