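import Pool.Agent.Lib_helper23.SD.Base
import Pool.Agent.Lib_helper23.SD.SM
import Pool.Agent.Lib_helper23.SD.DF
import Pool.Agent.Lib_helper23.SD.IN
import Pool.Agent.Lib_helper23.SD.HO
import Pool.Agent.Lib_helper23.SD.SI
import Pool.Agent.Lib_helper23.SD.NI
import Pool.Agent.Lib_helper23.SD.CM
import Pool.Agent.Lib_helper23.SD.NO
import Pool.Agent.Lib_helper23.SD.N3
import Pool.Agent.Lib_helper23.SD.N1
import Pool.Agent.Lib_helper23.SD.N2A
import Pool.Agent.Lib_helper23.SD.N2B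
import Pool.Agent.Lib_helper23.SD.BC
import Pool.Agent.Lib_helper23.SD.DO
import Pool.Agent.Lib_helper23.SD.CH

/-!
# MP_bc6371_lc.StronglyDependent: assembly of the blocks
-/

set_option autoImplicit false

namespace Pool.Agent.Lib_helper23.SD

open Cardinal

variable {L : FirstOrder.Language.{0, 0}} {U : Type} [L.Structure U]

theorem AS_fin {I : Type} [LinearOrder I] [Infinite I] (k : ℕ) :
    ∃ j : Fin k → I, StrictMono j := by
  obtain ⟨s, hs⟩ := Infinite.exists_subset_card_eq I k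
  exact ⟨s.orderEmbOfFin hs, (s.orderEmbOfFin hs).strictMono⟩

theorem AS_inf {I : Type} [LinearOrder I] {c : I} (hc : Cut c) : Infinite {i : I // i ≠ c} := by
  obtain ⟨⟨i0, hi0⟩, _, h, _⟩ := hc
  have : Infinite {i : I // i < c} := by
    have : Nonempty {i : I // i < c} := ⟨⟨i0, hi0⟩⟩
    have : NoMaxOrder {i : I // i < c} := ⟨fun a => by
      obtain ⟨j, hj, hjc⟩ := h a.1 a.2
      exact ⟨⟨j, hjc⟩, hj⟩⟩
    exact NoMaxOrder.infinite
  exact Infinite.of_injective (fun i : {i : I // i < c} => (⟨i.1, i.2.ne⟩ : {i : I // i ≠ c}))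
    fun a b hab => Subtype.ext (congrArg (fun z : {i : I // i ≠ c} => z.1) hab)

/-- a definable set of single members -/
theorem AS_one {I J α : Type} {G : Set U} {s : I → α → U} {t : J → α → U} (i : I) (j : J)
    (h : SameTp L G (tup s (fun _ : Fin 1 => i)) (tup t (fun _ : Fin 1 => j))) {D : Set (α → U)}
    (hD : G.Definable L D) : s i ∈ D ↔ t j ∈ D :=
  h _ (hD.preimage_comp (fun a : α => ((0 : Fin 1), a)))

theorem AS_lsq (m n : ℕ) (h : m < n) : (-1 / ((m : ℚ) + 1)) < -1 / ((n : ℚ) + 1) := by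
  rw [neg_div, neg_div, neg_lt_neg_iff]
  apply one_div_lt_one_div_of_lt
  · positivity
  · have : (m : ℚ) < n := by exact_mod_cast h
    linarith

theorem AS_ne (n : ℕ) : (-1 / ((n : ℚ) + 1)) ≠ 0 := by
  have : ((n : ℚ) + 1) ≠ 0 := by positivity
  exact div_ne_zero (by norm_num) this

/-- in an NIP theory a sequence in `P₀` which is not distal gives an invariant type `p` in `P₀` such
that `P ≥_D P ⊗ p` for no invariant type `P` concentrating on a set without ict-pattern of infinite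
depth -/
theorem SD_main {κ : Cardinal.{0}} (hκ : ℵ₀ < κ) (hs : Saturated L κ U) (hN : NIP L U)
    {α : Type} [Finite α] {P₀ : Set (α → U)} (hP : (∅ : Set U).Definable L P₀)
    (hD : ¬ DistalIn L P₀) :
    ∃ p : Typ L (Set.univ : Set U) α, P₀ ∈ p.sets ∧
      (∃ A : Set U, A.Countable ∧ InvOver L A p.sets) ∧
      ∀ (γ : Type) [Finite γ] (P : Typ L (Set.univ : Set U) γ),
        (∃ Q ∈ P.sets, (∅ : Set U).Definable L Q ∧ ¬ IctIn L Q) →
        ¬ Dominates L κ P.sets (tensor L κ P.sets p.sets) := by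
  classical
  obtain ⟨F, G, φ, I, _, c, s₀, hF, hG, hFG, hφ, hc, hsP, hIF, hIG, hgood, hbad⟩ := ND_one hD
  have := AS_inf hc
  obtain ⟨J, hJ⟩ := ND_stretch hκ hs hG hIG
  have hJG : Indisc L G J := by
    intro k i i' hi hi'
    obtain ⟨j, hj⟩ := AS_fin (I := {i : I // i ≠ c}) k
    intro D hD
    exact (hJ k i j hi hj D hD).trans (hJ k i' j hi' hj D hD).symm
  obtain ⟨⟨i0, hi0⟩⟩ : Nonempty {i : I // i ≠ c} := inferInstance
  have h1 : ∀ q : ℚ, ∀ D : Set (α → U), G.Definable L D → (J q ∈ D ↔ s₀ i0 ∈ D) := by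
    intro q D hD
    exact AS_one (s := J) (t := fun i : {i : I // i ≠ c} => s₀ i.1) q ⟨i0, hi0⟩
      (hJ 1 _ _ (Subsingleton.strictMono _) (Subsingleton.strictMono _)) hD
  have hJP : ∀ q, J q ∈ P₀ := fun q => (h1 q P₀ (hP.mono (Set.empty_subset _))).2 (hsP i0)
  have hJφ : ∀ q, J q ∈ φ := fun q => (h1 q φ hφ).2 (hgood i0 hi0)
  obtain ⟨E, s, t, ψ, hE, hMI, hsP, htP⟩ := ND_mi hκ hs hN hP hF hG hFG hφ hJP hJG hJφ
    fun q => ND_point hκ hs hFG hG hφ hc hIF hIG hbad hJ q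
  -- the limit types
  have hmut : ∀ (k : ℕ) (i i' j j' : Fin k → ℕ), StrictMono i → StrictMono i' → StrictMono j →
      StrictMono j' → SameTp L ∅ (Sum.elim (tup (lsq s) i) (tup (lsq t) j))
        (Sum.elim (tup (lsq s) i') (tup (lsq t) j')) := by
    intro k i i' j j' hi hi' hj hj' D hD
    refine hMI.same k k (fun a => -1 / ((i a : ℚ) + 1)) (fun a => -1 / ((i' a : ℚ) + 1))
      (fun a => -1 / ((j a : ℚ) + 1)) (fun a => -1 / ((j' a : ℚ) + 1))
      (fun a b hab => AS_lsq _ _ (hi hab)) (fun a b hab => AS_lsq _ _ (hi' hab))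
      (fun a b hab => AS_lsq _ _ (hj hab)) (fun a b hab => AS_lsq _ _ (hj' hab))
      (fun h => ?_) (fun h => ?_) D (hD.mono (Set.empty_subset _))
    · obtain ⟨⟨a, ha⟩, _⟩ := h; exact AS_ne _ ha
    · obtain ⟨⟨a, ha⟩, _⟩ := h; exact AS_ne _ ha
  have hxi : Indisc L ∅ (lsq s) := by
    intro k i i' hi hi' D hD
    have := hmut k i i' i i hi hi' hi hi {v | v ∘ Sum.inl ∈ D} (hD.preimage_comp Sum.inl)
    exact this
  have hzi : Indisc L ∅ (lsq t) := by
    intro k j j' hj hj' D hD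
    have := hmut k j j j j' hj hj hj hj' {v | v ∘ Sum.inr ∈ D} (hD.preimage_comp Sum.inr)
    exact this
  obtain ⟨p, hp⟩ := LM_typ hκ hs hN (lsq s) hxi
  obtain ⟨q, hq⟩ := LM_typ hκ hs hN (lsq t) hzi
  set B₀ : Set U := E ∪ ((⋃ n, Set.range (lsq s n)) ∪ ⋃ n, Set.range (lsq t n)) with hB₀
  have hB₀c : B₀.Countable := hE.countable.union
    ((Set.countable_iUnion fun n => (Set.finite_range _).countable).union
      (Set.countable_iUnion fun n => (Set.finite_range _).countable))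
  have hxB : ∀ n i, lsq s n i ∈ B₀ := fun n i => Or.inr (Or.inl (Set.mem_iUnion.2 ⟨n, i, rfl⟩))
  have hzB : ∀ n i, lsq t n i ∈ B₀ := fun n i => Or.inr (Or.inr (Set.mem_iUnion.2 ⟨n, i, rfl⟩))
  have hinv : InvOver L B₀ p.sets := by rw [hp]; exact LM_inv hxB
  have hPp : P₀ ∈ p.sets := by
    rw [hp]
    exact ⟨hP.mono (Set.empty_subset _), Filter.Eventually.of_forall fun n => hsP _⟩
  refine ⟨p, hPp, ⟨B₀, hB₀c, hinv⟩, ?_⟩
  rintro γ _ P ⟨Q, hQP, hQ, hPi⟩ ⟨A, hA, hPA, _, r, hr1, _, hr3⟩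
  apply hPi
  set B : Set U := B₀ ∪ A with hB
  have hBs : #B < κ := SM_union hκ (SM_countable hκ hB₀c) hA
  have hAB : A ⊆ B := Set.subset_union_right
  have hB₀B : B₀ ⊆ B := Set.subset_union_left
  have hEB : E ⊆ B := Set.subset_union_left.trans hB₀B
  obtain ⟨y, d, hyd⟩ := GE_main (L := L) hκ hs (p := p.sets) (q := q.sets) (φ := ψ) hBs
    (fun B' hB' hBB' => BC_pair hκ hs p q hMI.dfn (fun D hD D' hD' => by
      rw [hp] at hD; rw [hq] at hD'
      exact NO_main hκ hs hN (SM_countable hκ hE.countable) hMI hD hD') hB' (hEB.trans hBB'))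
  -- the formulas
  have hψ : ∀ d, Real L q.sets B d → {x | Sum.elim x d ∈ ψ} ∈ p.sets := by
    intro d hd
    rw [hp]
    refine ⟨(DF_fib hMI.dfn d).mono (Set.subset_univ _), Filter.Eventually.of_forall fun n => ?_⟩
    refine hd {z | Sum.elim (lsq s n) z ∈ ψ} ?_ ((DF_fib' hMI.dfn (lsq s n)).mono ?_)
    · rw [hq]
      refine ⟨(DF_fib' hMI.dfn (lsq s n)).mono (Set.subset_univ _),
        Filter.Eventually.of_forall fun m => ?_⟩
      exact hMI.good _ _ fun h => AS_ne _ h.1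
    · refine Set.union_subset hEB ?_
      rintro u ⟨i, rfl⟩
      exact hB₀B (hxB n i)
  obtain ⟨χ₀, hχ₀d, hχ₀g, hχ₀t⟩ := DO_step₁ hκ hs P p hA hPA r hr1 hr3 hBs hAB q
    (hMI.dfn.mono hEB) hψ
  choose! st hstd hstg hstt using fun (Θ : Set (γ ⊕ α → U))
    (h : B.Definable L Θ ∧ ∀ d, Real L q.sets B d → {x | Sum.elim x d ∈ Θ} ∈ P.sets) =>
      DO_step₀ hκ hs P p hA hPA r hr1 hr3 hBs hAB q h.1 h.2
  let χ : ℕ → Set (γ ⊕ α → U) := fun k => Nat.rec χ₀ (fun _ Θ => st Θ) k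
  have hχ : ∀ k, B.Definable L (χ k) ∧
      ∀ d, Real L q.sets B d → {x | Sum.elim x d ∈ χ k} ∈ P.sets := by
    intro k
    induction k with
    | zero => exact ⟨hχ₀d, hχ₀g⟩
    | succ k ih => exact ⟨hstd _ ih, hstg _ ih⟩
  choose m b R hbB hRd hRe using fun k => DF_par (hχ k).1
  refine ⟨fun k => α ⊕ Fin (m k), fun k => inferInstance,
    fun k => {v | v ∘ (Equiv.sumAssoc γ α (Fin (m k))) ∈ R k},
    fun k => (hRd k).preimage_comp _, fun N M => ?_⟩
  refine ⟨fun k t => Sum.elim (d (k * M + t)) (b k), fun η => ?_⟩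
  have hpos : StrictMono fun k => k * M + (η k : ℕ) := by
    refine strictMono_nat_of_lt_succ fun k => ?_
    have h1 := (η k).2
    have h2 : (k + 1) * M = k * M + M := by ring
    show k * M + (η k : ℕ) < (k + 1) * M + (η (k + 1) : ℕ)
    omega
  obtain ⟨x, hx, hxN⟩ := CH_main hκ hs hBs hyd
    (fun B' y d hBB' hy hd => by
      rw [hp] at hy ⊢; rw [hq] at hd
      exact CM_main hκ hs hN hmut (fun n i => hBB' (hB₀B (hxB n i)))
        (fun n i => hBB' (hB₀B (hzB n i))) hy hd)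
    (fun x y₀ y₁ => ∀ R ∈ r.sets, Sum.elim x (Sum.elim y₀ y₁) ∈ R)
    (fun B' y₀ y₁ hB' hBB' h1 h0 => DO_main hκ hs P p hA hPA r hr1 hr3 hB' (hAB.trans hBB') h1 h0)
    (fun B' hB' => HO_real hκ hs P hB') χ (fun x y₀ y₁ d h h' => hχ₀t x y₀ y₁ d h h')
    (fun k x y₀ y₁ d h h' => hstt _ (hχ k) x y₀ y₁ d h h') _ hpos N
  have hval : ∀ k t, (Sum.elim x (Sum.elim (d (k * M + t)) (b k)) ∈
      {v | v ∘ (Equiv.sumAssoc γ α (Fin (m k))) ∈ R k} ↔ Sum.elim x (d (k * M + t)) ∈ χ k) := by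
    intro k t
    rw [hRe k]
    have : (Sum.elim x (Sum.elim (d (k * M + t)) (b k))) ∘ (Equiv.sumAssoc γ α (Fin (m k))) =
        Sum.elim (Sum.elim x (d (k * M + t))) (b k) := by
      funext i
      rcases i with (i | i) | i <;> rfl
    show _ ∘ _ ∈ R k ↔ _
    rw [this]
    rfl
  refine ⟨x, hx Q hQP (hQ.mono (Set.empty_subset _)), fun k hk t => ?_⟩
  refine (hval k t).trans ?_
  constructor
  · rintro h rfl
    exact hxN k hk h
  · intro ht
    refine hx {x | Sum.elim x (d (k * M + t)) ∈ χ k} ?_ ?_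
    · refine (hχ k).2 _ (IN_real (hyd (k * M + t)).2.1 Set.subset_union_left)
    · refine (DF_fib (hχ k).1 (d (k * M + t))).mono (Set.union_subset_union_right _ ?_)
      intro u hu
      refine ⟨k * M + t, fun k' hk' => ?_, hu⟩
      have h1 := (η k').2
      have h2 := t.2
      rcases lt_trichotomy k k' with h | h | h
      · have : (k + 1) * M ≤ k' * M := Nat.mul_le_mul_right _ h
        have h3 : (k + 1) * M = k * M + M := by ring
        omega
      · subst h
        exact ht (Fin.ext (by omega))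
      · have : (k' + 1) * M ≤ k * M := Nat.mul_le_mul_right _ h
        have h3 : (k' + 1) * M = k' * M + M := by ring
        omega

/-- strongly dependent theories which are not distal have an invariant type which is absorbed by
no invariant type -/
theorem SD_absorb {κ : Cardinal.{0}} (hκ : ℵ₀ < κ) (hs : Saturated L κ U)
    (hS : StronglyDependent L U) (hD : ¬ Distal L U) :
    ∃ (α : Type) (_ : Finite α) (p : Typ L (Set.univ : Set U) α),
      (∃ A : Set U, A.Countable ∧ InvOver L A p.sets) ∧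
      ∀ (γ : Type) [Finite γ] (P : Typ L (Set.univ : Set U) γ),
        ¬ Dominates L κ P.sets (tensor L κ P.sets p.sets) := by
  have h : ∃ (α : Type) (_ : Finite α), ¬ DistalIn L (Set.univ : Set (α → U)) := by
    by_contra h
    push Not at h
    exact hD ⟨SI_main hS, fun α _ => h α inferInstance⟩
  obtain ⟨α, _, h⟩ := h
  obtain ⟨p, _, hA, hn⟩ := SD_main hκ hs (SI_main hS) Set.definable_univ h
  refine ⟨α, inferInstance, p, hA, fun γ _ P => hn γ P ⟨Set.univ, IN_univ P, Set.definable_univ, hS γ⟩⟩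

end Pool.Agent.Lib_helper23.SD
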