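import Pool.Agent.Lib_helper23.SD.Base
import Pool.Agent.Lib_helper23.SD.SM
import Pool.Agent.Lib_helper23.SD.DF
import Pool.Agent.Lib_helper23.SD.IN
import Pool.Agent.Lib_helper23.SD.HO
import Pool.Agent.Lib_helper23.SD.SI
import Pool.Agent.Lib_helper23.SD.NI

/-!
# MP_bc6371_lc.StronglyDependent, block TT (products of invariant types)
-/

set_option autoImplicit false

namespace Pool.Agent.Lib_helper23.SD

open Cardinal

variable {L : FirstOrder.Language.{0, 0}} {U : Type} [L.Structure U]

/-- a set definable with some parameters is definable with finitely many -/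
private theorem TT_fin {α : Type} [Finite α] {D : Set (α → U)}
    (hD : (Set.univ : Set U).Definable L D) : ∃ B : Set U, B.Finite ∧ B.Definable L D := by
  obtain ⟨m, b, R, -, hR, rfl⟩ := DF_par hD
  refine ⟨∅ ∪ Set.range b, Set.finite_empty.union (Set.finite_range b), DF_fib hR b⟩

section Sat
variable {κ : Cardinal.{0}} (hκ : ℵ₀ < κ) (hs : Saturated L κ U)
include hκ hs

/-- membership in the product can be tested over every small base -/
private theorem TT_iff {α β : Type} [Finite α] [Finite β] (p : Typ L (Set.univ : Set U) α)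
    (q : Typ L (Set.univ : Set U) β) {B : Set U} (hB : #B < κ) (hp : InvOver L B p.sets)
    {D : Set (α ⊕ β → U)} (hD : B.Definable L D) {b : β → U} (hb : Real L q.sets B b) :
    D ∈ tensor L κ p.sets q.sets ↔ {x | Sum.elim x b ∈ D} ∈ p.sets := by
  constructor
  · rintro ⟨A', hA', hp', hD', b', hb', hm⟩
    obtain ⟨c, hc⟩ := HO_real hκ hs q (SM_union hκ hA' hB)
    have h1 := IN_rel hp' subset_rfl hD' (IN_same q hb' (IN_real hc Set.subset_union_left))
    have h2 := IN_rel hp subset_rfl hD (IN_same q hb (IN_real hc Set.subset_union_right))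
    exact h2.2 (h1.1 hm)
  · intro hm
    exact ⟨B, hB, hp, hD, b, hb, hm⟩

theorem TT_main {α β : Type} [Finite α] [Finite β] (p : Typ L (Set.univ : Set U) α)
    (q : Typ L (Set.univ : Set U) β) {A : Set U} (hA : #A < κ) (hp : InvOver L A p.sets)
    (hq : InvOver L A q.sets) :
    ∃ t : Typ L (Set.univ : Set U) (α ⊕ β), t.sets = tensor L κ p.sets q.sets ∧
      InvOver L A t.sets := by
  have hfib : ∀ (D : Set (α ⊕ β → U)) (c : β → U), (Set.univ : Set U).Definable L D →
      (Set.univ : Set U).Definable L {x : α → U | Sum.elim x c ∈ D} := fun D c hD =>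
    (DF_fib hD c).mono (Set.subset_univ _)
  let t : Typ L (Set.univ : Set U) (α ⊕ β) :=
    { sets := tensor L κ p.sets q.sets
      dfn := by
        rintro D ⟨B, -, -, hD, -⟩
        exact hD.mono (Set.subset_univ _)
      inter := by
        intro D hD D' hD'
        obtain ⟨B, hB, hpB, hDB, -⟩ := id hD
        obtain ⟨B', hB', -, hDB', -⟩ := id hD'
        have hC := SM_union hκ hB hB'
        obtain ⟨c, hc⟩ := HO_real hκ hs q hC
        have hpC : InvOver L (B ∪ B') p.sets := IN_mono hpB Set.subset_union_left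
        have h1 := (TT_iff hκ hs p q hC hpC (hDB.mono Set.subset_union_left) hc).1 hD
        have h2 := (TT_iff hκ hs p q hC hpC (hDB'.mono Set.subset_union_right) hc).1 hD'
        exact (TT_iff hκ hs p q hC hpC ((hDB.mono Set.subset_union_left).inter
          (hDB'.mono Set.subset_union_right)) hc).2 (p.inter _ h1 _ h2)
      mono := by
        intro D hD D' hD' hsub
        obtain ⟨B, hB, hpB, hDB, -⟩ := id hD
        obtain ⟨B', hB', hDB'⟩ := TT_fin hD'
        have hC := SM_union hκ hB (SM_countable hκ hB'.countable)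
        obtain ⟨c, hc⟩ := HO_real hκ hs q hC
        have hpC : InvOver L (B ∪ B') p.sets := IN_mono hpB Set.subset_union_left
        have h1 := (TT_iff hκ hs p q hC hpC (hDB.mono Set.subset_union_left) hc).1 hD
        exact (TT_iff hκ hs p q hC hpC (hDB'.mono Set.subset_union_right) hc).2
          (p.mono _ h1 _ (hfib D' c hD') fun x hx => hsub hx)
      nempty := by
        rintro ⟨B, -, -, -, b, -, hm⟩
        apply p.nempty
        have h1 : {x : α → U | Sum.elim x b ∈ (∅ : Set (α ⊕ β → U))} = ∅ := by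
          ext x
          simp
        rwa [h1] at hm
      ultra := by
        intro D hD
        obtain ⟨B', hB', hDB'⟩ := TT_fin hD
        have hC := SM_union hκ hA (SM_countable hκ hB'.countable)
        obtain ⟨c, hc⟩ := HO_real hκ hs q hC
        have hpC : InvOver L (A ∪ B') p.sets := IN_mono hp Set.subset_union_left
        have hDC := hDB'.mono (Set.subset_union_right (s := A))
        rcases p.ultra _ (hfib D c hD) with h | h
        · exact Or.inl ((TT_iff hκ hs p q hC hpC hDC hc).2 h)
        · exact Or.inr ((TT_iff hκ hs p q hC hpC hDC.compl hc).2 h) }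
  refine ⟨t, rfl, ?_⟩
  intro γ _ R hR c c' hcc
  have hAc : ∀ c : γ → U, #(A ∪ Set.range c : Set U) < κ := fun c =>
    SM_union hκ hA (SM_countable hκ (Set.finite_range c).countable)
  obtain ⟨b, hb⟩ := HO_real hκ hs q (hAc c)
  obtain ⟨b', hb'⟩ := HO_real hκ hs q (hAc c')
  have hpc : ∀ c : γ → U, InvOver L (A ∪ Set.range c) p.sets := fun c =>
    IN_mono hp Set.subset_union_left
  have hRA : A.Definable L R := hR.mono (Set.empty_subset A)
  have h1 := TT_iff hκ hs p q (hAc c) (hpc c) (DF_fib hRA c) hb
  have h2 := TT_iff hκ hs p q (hAc c') (hpc c') (DF_fib hRA c') hb'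
  have hsame : SameTp L A (Sum.elim b c) (Sum.elim b' c') := by
    intro E hE
    have h3 := IN_iff q hb (DF_fib hE c)
    have h4 := IN_iff q hb' (DF_fib hE c')
    exact (h3.trans (IN_rel hq subset_rfl hE hcc)).trans h4.symm
  let f : (α ⊕ β) ⊕ γ → (α ⊕ (β ⊕ γ)) ⊕ (∅ : Set U) :=
    Sum.elim (Sum.elim (fun x => Sum.inl (Sum.inl x)) fun x => Sum.inl (Sum.inr (Sum.inl x)))
      fun x => Sum.inl (Sum.inr (Sum.inr x))
  have hR' := DF_pre hR f
  have h5 := hp (β ⊕ γ) _ hR' _ _ hsame
  have h6 : ∀ (x : α → U) (b : β → U) (c : γ → U),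
      (fun i => Sum.elim (Sum.elim x (Sum.elim b c)) (fun a : (∅ : Set U) => (a : U)) (f i)) =
        Sum.elim (Sum.elim x b) c := by
    intro x b c
    funext i
    rcases i with (i | i) | i <;> rfl
  simp only [Set.mem_ofPred_eq, h6] at h5
  exact (h1.trans h5).trans h2.symm

theorem TT_inl {α β : Type} [Finite α] [Finite β] (p : Typ L (Set.univ : Set U) α)
    (q : Typ L (Set.univ : Set U) β) {A : Set U} (hA : #A < κ) (hp : InvOver L A p.sets)
    {D : Set (α → U)} (hD : D ∈ p.sets) :
    {z : α ⊕ β → U | z ∘ Sum.inl ∈ D} ∈ tensor L κ p.sets q.sets := by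
  obtain ⟨B', hB', hDB'⟩ := TT_fin (p.dfn D hD)
  have hC := SM_union hκ hA (SM_countable hκ hB'.countable)
  obtain ⟨c, hc⟩ := HO_real hκ hs q hC
  exact ⟨A ∪ B', hC, IN_mono hp Set.subset_union_left,
    (DF_pre (hDB'.mono Set.subset_union_right) (fun i => Sum.inl (Sum.inl i))), c, hc, hD⟩

end Sat

end Pool.Agent.Lib_helper23.SD
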