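import Pool.Agent.Lib_helper23.SD.Base
import Pool.Agent.Lib_helper23.SD.SM
import Pool.Agent.Lib_helper23.SD.DF
import Pool.Agent.Lib_helper23.SD.IN
import Pool.Agent.Lib_helper23.SD.HO
import Pool.Agent.Lib_helper23.SD.SI
import Pool.Agent.Lib_helper23.SD.NI
import Pool.Agent.Lib_helper23.SD.TT

/-!
# MP_bc6371_lc.StronglyDependent: block PW (powers of an invariant type)

Theorems `PW_fin`, `PW_typ`, `PW_down`.
-/

set_option autoImplicit false

namespace Pool.Agent.Lib_helper23.SD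

open Cardinal

variable {L : FirstOrder.Language.{0, 0}} {U : Type} [L.Structure U]

theorem PW_fin {α : Type} [Finite α] (n : ℕ) : Finite (PowVar α n) := by
  induction n with
  | zero => exact (inferInstance : Finite α)
  | succ n ih =>
    have : Finite (PowVar α n) := ih
    exact (inferInstance : Finite (PowVar α n ⊕ α))

section Sat
variable {κ : Cardinal.{0}} (hκ : ℵ₀ < κ) (hs : Saturated L κ U)
include hκ hs

theorem PW_typ {α : Type} [Finite α] (p : Typ L (Set.univ : Set U) α) {A : Set U} (hA : #A < κ)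
    (hp : InvOver L A p.sets) (n : ℕ) :
    ∃ t : Typ L (Set.univ : Set U) (PowVar α n), t.sets = pow L κ p.sets n ∧
      InvOver L A t.sets := by
  induction n with
  | zero => exact ⟨p, rfl, hp⟩
  | succ n ih =>
    obtain ⟨t, ht, hti⟩ := ih
    have : Finite (PowVar α n) := PW_fin n
    obtain ⟨t', ht', hti'⟩ := TT_main hκ hs t p hA hti hp
    refine ⟨t', ?_, hti'⟩
    rw [ht', ht]
    rfl

/-- membership in the lower power can be read off in the higher power -/
theorem PW_iff {α : Type} [Finite α] (p : Typ L (Set.univ : Set U) α) {A : Set U} (hA : #A < κ)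
    (hp : InvOver L A p.sets) (n : ℕ) {D : Set (PowVar α n → U)}
    (hD : (Set.univ : Set U).Definable L D) :
    D ∈ pow L κ p.sets n ↔
      ({z | z ∘ Sum.inl ∈ D} : Set (PowVar α n ⊕ α → U)) ∈ pow L κ p.sets (n + 1) := by
  have : Finite (PowVar α n) := PW_fin n
  obtain ⟨t, ht, hti⟩ := PW_typ hκ hs p hA hp n
  obtain ⟨u, hu, -⟩ := PW_typ hκ hs p hA hp (n + 1)
  have key : ∀ D : Set (PowVar α n → U), D ∈ pow L κ p.sets n →
      ({z | z ∘ Sum.inl ∈ D} : Set (PowVar α n ⊕ α → U)) ∈ pow L κ p.sets (n + 1) := by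
    intro D hD
    have h := TT_inl hκ hs t p hA hti (D := D) (ht ▸ hD)
    rw [ht] at h
    exact h
  refine ⟨key D, fun h => ?_⟩
  by_contra hn
  have h1 : Dᶜ ∈ pow L κ p.sets n := by
    rw [← ht] at hn ⊢
    exact (t.ultra D hD).resolve_left hn
  have h2 := key _ h1
  rw [← hu] at h h2
  have h3 := u.inter _ h _ h2
  have h4 : ({z | z ∘ Sum.inl ∈ D} : Set (PowVar α n ⊕ α → U)) ∩ {z | z ∘ Sum.inl ∈ Dᶜ} = ∅ := by
    ext z
    simp
  have h5 : ∀ S : Set (PowVar α (n + 1) → U), S = ∅ → S ∈ u.sets → False := by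
    rintro S rfl hS
    exact u.nempty hS
  exact h5 _ h4 h3

theorem PW_step {α γ : Type} [Finite α] [Finite γ] (p : Typ L (Set.univ : Set U) α) {A : Set U}
    (hA : #A < κ) (hp : InvOver L A p.sets) (P : Set (Set (γ → U))) (n : ℕ)
    (hd : Dominates L κ P (pow L κ p.sets (n + 1))) : Dominates L κ P (pow L κ p.sets n) := by
  have : Finite (PowVar α n) := PW_fin n
  have : Finite (PowVar α (n + 1)) := PW_fin (n + 1)
  obtain ⟨B, hB, hBP, hBq, r, h1, h2, h3⟩ := hd
  let f : γ ⊕ PowVar α n → γ ⊕ (PowVar α n ⊕ α) := Sum.map id Sum.inl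
  have hpre : ∀ D : Set (γ ⊕ PowVar α n → U), B.Definable L D →
      B.Definable L ({z | z ∘ f ∈ D} : Set (γ ⊕ (PowVar α n ⊕ α) → U)) :=
    fun D hD => hD.preimage_comp f
  refine ⟨B, hB, hBP, ?_, ⟨{D | B.Definable L D ∧
      ({z | z ∘ f ∈ D} : Set (γ ⊕ (PowVar α n ⊕ α) → U)) ∈ r.sets}, ?_, ?_, ?_, ?_, ?_⟩,
      ?_, ?_, ?_⟩
  · intro β _ R hR b b' hbb
    have hfib : ∀ b : β → U, (Set.univ : Set U).Definable L {x : PowVar α n → U | Sum.elim x b ∈ R} :=
      fun b => (DF_fib hR b).mono (Set.subset_univ _)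
    let g : PowVar α n ⊕ β → (PowVar α n ⊕ α) ⊕ β := Sum.map Sum.inl id
    have hR' : (∅ : Set U).Definable L ({w | w ∘ g ∈ R} : Set ((PowVar α n ⊕ α) ⊕ β → U)) :=
      hR.preimage_comp g
    have h := hBq β ({w | w ∘ g ∈ R} : Set ((PowVar α n ⊕ α) ⊕ β → U)) hR' b b' hbb
    have e : ∀ b : β → U, ({z | z ∘ Sum.inl ∈ {x : PowVar α n → U | Sum.elim x b ∈ R}} :
        Set (PowVar α n ⊕ α → U)) =
        {z | Sum.elim z b ∈ ({w | w ∘ g ∈ R} : Set ((PowVar α n ⊕ α) ⊕ β → U))} := by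
      intro b
      ext z
      have : (Sum.elim z b) ∘ g = Sum.elim (z ∘ Sum.inl) b := by
        funext i
        rcases i with i | i <;> rfl
      show Sum.elim (z ∘ Sum.inl) b ∈ R ↔ (Sum.elim z b) ∘ g ∈ R
      rw [this]
    rw [PW_iff hκ hs p hA hp n (hfib b), PW_iff hκ hs p hA hp n (hfib b'), e, e]
    exact h
  · exact fun D hD => hD.1
  · exact fun D hD D' hD' => ⟨hD.1.inter hD'.1, r.inter _ hD.2 _ hD'.2⟩
  · exact fun D hD D' hD' hs' => ⟨hD', r.mono _ hD.2 _ (hpre D' hD') (fun z hz => hs' hz)⟩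
  · exact fun h => r.nempty h.2
  · intro D hD
    rcases r.ultra _ (hpre D hD) with h | h
    · exact Or.inl ⟨hD, h⟩
    · exact Or.inr ⟨hD.compl, h⟩
  · intro D hD hBD
    exact ⟨hBD.preimage_comp Sum.inl, h1 D hD hBD⟩
  · intro D hD hBD
    refine ⟨hBD.preimage_comp Sum.inr, ?_⟩
    have hD' := (PW_iff hκ hs p hA hp n (hBD.mono (Set.subset_univ _))).1 hD
    exact h2 _ hD' (hBD.preimage_comp Sum.inl)
  · intro D hD
    obtain ⟨t, ht, -⟩ := PW_typ hκ hs p hA hp n
    have hDd : (Set.univ : Set U).Definable L D := t.dfn D (by rw [ht]; exact hD)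
    have hD' := (PW_iff hκ hs p hA hp n hDd).1 hD
    obtain ⟨E, hE, R, hR, hER⟩ := h3 _ hD'
    refine ⟨E, hE, (fun w => w ∘ f) '' R, ⟨?_, ?_⟩, ?_⟩
    · exact (r.dfn R hR).image_comp f
    · exact r.mono R hR _ (hpre _ ((r.dfn R hR).image_comp f))
        (fun z hz => Set.mem_image_of_mem (fun w => w ∘ f) hz)
    · rintro x y hx ⟨w, hw, hwe⟩
      have hw1 : w ∘ Sum.inl = x := by
        funext i
        exact congrFun hwe (Sum.inl i)
      have hw2 : (w ∘ Sum.inr) ∘ Sum.inl = y := by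
        funext i
        exact congrFun hwe (Sum.inr i)
      have hw3 : ∀ w' : γ ⊕ PowVar α (n + 1) → U, w' ∈ R →
          Sum.elim (w' ∘ Sum.inl) (w' ∘ Sum.inr) ∈ R := by
        intro w' hw'
        rw [Sum.elim_comp_inl_inr]
        exact hw'
      have h5 := hER (w ∘ Sum.inl) (w ∘ Sum.inr) (by rw [hw1]; exact hx) (hw3 w hw)
      rw [← hw2]
      exact h5

theorem PW_down {α γ : Type} [Finite α] [Finite γ] (p : Typ L (Set.univ : Set U) α) {A : Set U}
    (hA : #A < κ) (hp : InvOver L A p.sets) (P : Set (Set (γ → U))) {n m : ℕ} (h : n ≤ m)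
    (hd : Dominates L κ P (pow L κ p.sets m)) : Dominates L κ P (pow L κ p.sets n) := by
  induction m, h using Nat.le_induction with
  | base => exact hd
  | succ m hm ih => exact ih (PW_step hκ hs p hA hp P m hd)

end Sat

end Pool.Agent.Lib_helper23.SD
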